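import Pool.Agent.MP_6cbd4a_an.Close

/-!
# The approximation theorem
-/

open Complex Metric Set Filter Topology
open scoped ComplexConjugate Real

namespace Pool.Agent.MP_6cbd4a_an

theorem approx {f0 : ℂ → ℂ} (h0 : Adm f0) {r δ' ε : ℝ} (hr : r < 1) (hδ' : 0 < δ') (hε : 0 < ε) :
    ∃ f : ℂ → ℂ, Adm f ∧ (∀ z : ℂ, ‖z‖ ≤ r → ‖f z - f0 z‖ < δ') ∧
      ∀ a : ℂ, ‖a‖ < 1 → Good f a ε := by
  classical
  set r1 : ℝ := max r 0 with hr1
  have hr10 : 0 ≤ r1 := le_max_right _ _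
  have hr11 : r1 < 1 := max_lt hr one_pos
  have hcont0 : ContinuousOn f0 (ball 0 1) := h0.diff.continuousOn
  -- step 1
  have huc : UniformContinuousOn f0 (closedBall (0 : ℂ) r1) :=
    (isCompact_closedBall (0 : ℂ) r1).uniformContinuousOn_of_continuous
      (hcont0.mono (closedBall_subset_ball hr11))
  obtain ⟨η, hη, hηu⟩ := Metric.uniformContinuousOn_iff.1 huc (δ' / 2) (by positivity)
  set t : ℝ := max (1 / 2) (1 - η / 4) with ht
  have ht0 : 1 / 2 ≤ t := le_max_left _ _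
  have ht1 : t < 1 := max_lt (by norm_num) (by linarith)
  have htη : 1 - t ≤ η / 4 := by
    have := le_max_right (1 / 2) (1 - η / 4)
    rw [← ht] at this
    linarith
  have htpos : 0 < t := by linarith
  have ht2 : 0 < t ^ 2 := by positivity
  have ht2' : t ^ 2 ≤ 1 := by nlinarith
  have ht2'' : 1 - t ^ 2 ≤ η / 2 := by nlinarith
  have hF0close : ∀ z : ℂ, ‖z‖ ≤ r1 → ‖f0 (((t ^ 2 : ℝ) : ℂ) * z) - f0 z‖ < δ' / 2 := by
    intro z hz
    rw [← dist_eq_norm]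
    apply hηu
    · rw [mem_closedBall_zero_iff, norm_mul, Complex.norm_real, Real.norm_of_nonneg ht2.le]
      have := norm_nonneg z
      calc t ^ 2 * ‖z‖ ≤ 1 * ‖z‖ := by gcongr
        _ ≤ r1 := by linarith
    · rwa [mem_closedBall_zero_iff]
    · rw [dist_eq_norm]
      have e : ((t ^ 2 : ℝ) : ℂ) * z - z = -(((1 - t ^ 2 : ℝ) : ℂ) * z) := by push_cast; ring
      rw [e, norm_neg, norm_mul, Complex.norm_real, Real.norm_of_nonneg (by linarith)]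
      have := norm_nonneg z
      calc (1 - t ^ 2) * ‖z‖ ≤ (η / 2) * 1 := by gcongr; linarith
        _ < η := by linarith
  -- step 2
  obtain ⟨L, hLd, hL⟩ := exists_log one_pos (h0.diff.deriv isOpen_ball) h0.der
  have hctb : closedBall (0 : ℂ) t ⊆ ball 0 1 := closedBall_subset_ball ht1
  obtain ⟨ML, hML⟩ := (isCompact_closedBall (0 : ℂ) t).exists_bound_of_continuousOn
    (hLd.continuousOn.mono hctb)
  obtain ⟨ML', hML'⟩ := (isCompact_closedBall (0 : ℂ) t).exists_bound_of_continuousOn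
    ((hLd.deriv isOpen_ball).continuousOn.mono hctb)
  have h0ct : (0 : ℂ) ∈ closedBall (0 : ℂ) t := mem_closedBall_self htpos.le
  have hML0 : 0 ≤ ML := (norm_nonneg _).trans (hML 0 h0ct)
  have hML'0 : 0 ≤ ML' := (norm_nonneg _).trans (hML' 0 h0ct)
  obtain ⟨zm, hzm, hmax⟩ := (isCompact_closedBall (0 : ℂ) t).exists_isMaxOn ⟨0, h0ct⟩
    (hcont0.mono hctb).norm
  set m : ℝ := ‖f0 zm‖ with hm
  have hm1 : m < 1 := h0.maps zm (hctb hzm)
  have hm0 : 0 ≤ m := norm_nonneg _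
  set δ : ℝ := (1 - m) / 2 with hδ
  have hδ0 : 0 < δ := by rw [hδ]; linarith
  have hδ1 : δ ≤ 1 := by rw [hδ]; linarith
  set K : ℝ := 128 / δ with hK
  have hK0 : 0 < K := by rw [hK]; positivity
  set R0 : ℝ := 1 / t with hR0
  have hR01 : 1 < R0 := by rw [hR0, lt_div_iff₀ htpos]; linarith
  have hsc : ∀ z ∈ ball (0 : ℂ) R0, ((t ^ 2 : ℝ) : ℂ) * z ∈ closedBall (0 : ℂ) t := by
    intro z hz
    rw [mem_ball_zero_iff] at hz
    rw [mem_closedBall_zero_iff, norm_mul, Complex.norm_real, Real.norm_of_nonneg ht2.le]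
    calc t ^ 2 * ‖z‖ ≤ t ^ 2 * R0 := by gcongr
      _ = t := by rw [hR0]; field_simp
  set Mq : ℝ := ML + |2 * Real.log t| with hMq
  have hMq0 : 0 ≤ Mq := by rw [hMq]; positivity
  set q : ℂ → ℂ := fun z => L (((t ^ 2 : ℝ) : ℂ) * z) + ((2 * Real.log t : ℝ) : ℂ) with hq
  set F : ℂ → ℂ := fun z => f0 (((t ^ 2 : ℝ) : ℂ) * z) with hF
  have hmul : ∀ z : ℂ, HasDerivAt (fun z : ℂ => ((t ^ 2 : ℝ) : ℂ) * z) ((t ^ 2 : ℝ) : ℂ) z := by
    intro z
    have := (hasDerivAt_id' z).const_mul ((t ^ 2 : ℝ) : ℂ)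
    rwa [mul_one] at this
  have hqder : ∀ z ∈ ball (0 : ℂ) R0, HasDerivAt q
      (deriv L (((t ^ 2 : ℝ) : ℂ) * z) * ((t ^ 2 : ℝ) : ℂ)) z := by
    intro z hz
    have h1 : HasDerivAt L (deriv L (((t ^ 2 : ℝ) : ℂ) * z)) (((t ^ 2 : ℝ) : ℂ) * z) :=
      (hLd.differentiableAt (isOpen_ball.mem_nhds (hctb (hsc z hz)))).hasDerivAt
    exact (h1.comp z (hmul z)).add_const _
  have hqd : DifferentiableOn ℂ q (ball 0 R0) := fun z hz =>
    (hqder z hz).differentiableAt.differentiableWithinAt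
  have hqb : ∀ z ∈ ball (0 : ℂ) R0, ‖q z‖ ≤ Mq := by
    intro z hz
    refine (norm_add_le _ _).trans ?_
    rw [Complex.norm_real, Real.norm_eq_abs, hMq]
    gcongr
    exact hML _ (hsc z hz)
  have hqb' : ∀ z ∈ ball (0 : ℂ) R0, ‖deriv q z‖ ≤ ML' := by
    intro z hz
    rw [(hqder z hz).deriv, norm_mul, Complex.norm_real, Real.norm_of_nonneg ht2.le]
    calc ‖deriv L (((t ^ 2 : ℝ) : ℂ) * z)‖ * t ^ 2 ≤ ML' * 1 := by
          gcongr
          · exact hML' _ (hsc z hz)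
      _ = ML' := mul_one _
  have hFd : ∀ z ∈ ball (0 : ℂ) R0, HasDerivAt F (exp (q z)) z := by
    intro z hz
    have h1 : HasDerivAt f0 (deriv f0 (((t ^ 2 : ℝ) : ℂ) * z)) (((t ^ 2 : ℝ) : ℂ) * z) :=
      (h0.diff.differentiableAt (isOpen_ball.mem_nhds (hctb (hsc z hz)))).hasDerivAt
    refine (h1.comp z (hmul z)).congr_deriv ?_
    rw [hL _ (hctb (hsc z hz)), hq]
    simp only
    rw [exp_add, ← Complex.ofReal_exp, two_mul, Real.exp_add, Real.exp_log htpos, sq]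
  have hFb : ∀ z ∈ ball (0 : ℂ) R0, ‖F z‖ ≤ 1 - 2 * δ := by
    intro z hz
    have h1 : ‖f0 (((t ^ 2 : ℝ) : ℂ) * z)‖ ≤ m := hmax (hsc z hz)
    rw [hδ]
    simp only [hF]
    linarith
  -- primitives
  have hprim : ∀ N : ℕ, ∃ g : ℂ → ℂ, g 0 = F 0 ∧
      ∀ z ∈ ball (0 : ℂ) R0, HasDerivAt g (exp (q z + z ^ N)) z := by
    intro N
    have h1 : DifferentiableOn ℂ (fun z => exp (q z + z ^ N)) (ball 0 R0) :=
      (hqd.add (differentiableOn_pow N)).cexp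
    obtain ⟨g, hg0, hg⟩ := (h1.isExactOn_ball).with_val_at 0 (F 0)
    exact ⟨g, hg0, hg⟩
  choose g hg0 hg using hprim
  -- κ
  set κ : ℝ := min (1 - r1) (δ' * (1 - r1) / (40 * Real.exp Mq)) with hκ
  have h1r : 0 < 1 - r1 := by linarith
  have hκ0 : 0 < κ := lt_min h1r (by positivity)
  have hκ1 : κ ≤ 1 - r1 := min_le_left _ _
  have hκ2 : κ ≤ δ' * (1 - r1) / (40 * Real.exp Mq) := min_le_right _ _
  have hκ3 : Real.exp Mq * (5 * κ / (1 - r1)) ≤ δ' / 8 := by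
    calc Real.exp Mq * (5 * κ / (1 - r1))
        ≤ Real.exp Mq * (5 * (δ' * (1 - r1) / (40 * Real.exp Mq)) / (1 - r1)) := by gcongr
      _ = δ' / 8 := by
          have := Real.exp_pos Mq
          field_simp
          norm_num
  have hκr : (1 + κ) * r1 ≤ 1 := by nlinarith
  -- asymptotics
  have hkk : Tendsto (fun k : ℕ => (k : ℝ)) atTop atTop := tendsto_natCast_atTop_atTop
  have hk3 : Tendsto (fun k : ℕ => (k : ℝ) ^ 3) atTop atTop :=
    (tendsto_pow_atTop (by norm_num)).comp hkk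
  have hNN : Tendsto (fun k : ℕ => 8 * k ^ 4) atTop atTop := by
    apply Tendsto.const_mul_atTop' (by norm_num)
    exact tendsto_pow_atTop (by norm_num)
  have hNR : Tendsto (fun k : ℕ => ((8 * k ^ 4 : ℕ) : ℝ)) atTop atTop :=
    tendsto_natCast_atTop_atTop.comp hNN
  have hgeom : ∀ R : ℝ, 1 < R → ∀ᶠ k : ℕ in atTop, 2 * ((8 * k ^ 4 : ℕ) : ℝ) < R ^ (8 * k ^ 4) := by
    intro R hR
    have h1 := tendsto_pow_const_div_const_pow_of_one_lt 1 hR
    have h2 : ∀ᶠ n : ℕ in atTop, (n : ℝ) ^ 1 / R ^ n < 1 / 2 :=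
      h1.eventually (gt_mem_nhds (by norm_num))
    filter_upwards [hNN.eventually h2] with k hk
    have hRp : 0 < R ^ (8 * k ^ 4) := by positivity
    rw [pow_one, div_lt_iff₀ hRp] at hk
    linarith
  have e1 : ∀ᶠ k : ℕ in atTop, 1 ≤ k := eventually_ge_atTop 1
  have e2 := hgeom R0 hR01
  have e3 : ∀ᶠ k : ℕ in atTop, 2 * R0 * Real.exp (Mq + K) / (k : ℝ) ^ 3 < δ / 2 :=
    (hk3.const_div_atTop _).eventually (gt_mem_nhds (by positivity))
  have e4 : ∀ᶠ k : ℕ in atTop, R0 * Real.exp (Mq + K) / (((8 * k ^ 4 : ℕ) : ℝ) * K) < δ / 2 :=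
    ((hNR.atTop_mul_const hK0).const_div_atTop _).eventually (gt_mem_nhds (by positivity))
  have e5 : ∀ᶠ k : ℕ in atTop, ML' * R0 + 1 ≤ ((8 * k ^ 4 : ℕ) : ℝ) := hNR.eventually_ge_atTop _
  have e6 : ∀ᶠ k : ℕ in atTop, Lc Mq K ≤ k := hkk.eventually_ge_atTop _
  have hτ : 0 < tauc R0 Mq ML' := tauc_pos (by linarith) hML'0
  have e7 : ∀ᶠ k : ℕ in atTop, 2 ≤ tauc R0 Mq ML' * ((8 * k ^ 4 : ℕ) : ℝ) :=
    (hNR.const_mul_atTop hτ).eventually_ge_atTop _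
  have e8 : ∀ᶠ k : ℕ in atTop, C2c R0 Mq ML' K * √(Lc Mq K / (2 * k)) < ε := by
    have h1 : Tendsto (fun k : ℕ => Lc Mq K / (2 * (k : ℝ))) atTop (𝓝 0) :=
      (hkk.const_mul_atTop two_pos).const_div_atTop _
    have h2 : Tendsto (fun k : ℕ => C2c R0 Mq ML' K * √(Lc Mq K / (2 * k))) atTop
        (𝓝 (C2c R0 Mq ML' K * √0)) :=
      ((Real.continuous_sqrt.tendsto 0).comp h1).const_mul _
    rw [Real.sqrt_zero, mul_zero] at h2
    exact h2.eventually (gt_mem_nhds hε)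
  have e9 := hgeom (1 + κ) (by linarith)
  have e10 : ∀ᶠ k : ℕ in atTop, 2 * R0 * Real.exp (Mq + 1) / (k : ℝ) ^ 3 < δ' / 4 :=
    (hk3.const_div_atTop _).eventually (gt_mem_nhds (by positivity))
  obtain ⟨k, ⟨h1, h2, h3, h4, h5⟩, h6, h7, h8, h9, h10⟩ :=
    ((e1.and (e2.and (e3.and (e4.and e5)))).and (e6.and (e7.and (e8.and (e9.and e10))))).exists
  let S : Setup :=
    { R0 := R0, Mq := Mq, M2 := ML', δ := δ, K := K, q := q, F := F, g := g (8 * k ^ 4), k := k,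
      N := 8 * k ^ 4, hN := rfl, hk := h1, hR0 := hR01, hδ := hδ0, hδ1 := hδ1, hK := le_refl _,
      hMq := hMq0, hM2 := hML'0, hq := hqd, hqb := hqb, hqb' := hqb', hF := hFd, hFb := hFb,
      hg := hg _, hg0 := hg0 _, hRN := h2, hclose := h3.le, hJ0 := h4.le, hN2 := h5 }
  obtain ⟨ψ, φ, hRM⟩ := S.exists_RM
  refine ⟨fun w => S.g (φ w), gφ_adm hRM, ?_, ?_⟩
  · intro z hz
    have hz1 : ‖z‖ ≤ r1 := hz.trans (le_max_left _ _)
    have h11 := close_F hRM hκ0 (by linarith) h9.le hr10 hr11 hκr hz1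
    have h12 := hF0close z hz1
    have h13 : ‖S.g (φ z) - f0 z‖ ≤ ‖S.g (φ z) - S.F z‖ + ‖S.F z - f0 z‖ := by
      have : S.g (φ z) - f0 z = (S.g (φ z) - S.F z) + (S.F z - f0 z) := by ring
      rw [this]
      exact norm_add_le _ _
    have h14 : ‖S.F z - f0 z‖ < δ' / 2 := h12
    have h15 : ‖S.g (φ z) - S.F z‖ ≤ 2 * R0 * Real.exp (Mq + 1) / (k : ℝ) ^ 3
      + Real.exp Mq * (5 * κ / (1 - r1)) := h11
    show ‖S.g (φ z) - f0 z‖ < δ'
    linarith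
  · intro a ha
    exact good_gφ hRM ha h6 h7 h8

end Pool.Agent.MP_6cbd4a_an
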