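import Mathlib

/-!
# Disc automorphisms and division by a Blaschke factor
-/

open Complex Metric Set Filter Topology
open scoped ComplexConjugate

namespace Pool.Agent.MP_6cbd4a_an

/-- The disc automorphism `z ↦ (z - a)/(1 - conj a * z)`. -/
noncomputable def mob (a z : ℂ) : ℂ := (z - a) / (1 - conj a * z)

lemma den_ne {a z : ℂ} (ha : ‖a‖ < 1) (hz : ‖z‖ ≤ 1) : (1 : ℂ) - conj a * z ≠ 0 := by
  intro h
  have h1 : conj a * z = 1 := by linear_combination -h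
  have h2 : ‖conj a * z‖ = 1 := by rw [h1]; simp
  rw [norm_mul, RCLike.norm_conj] at h2
  nlinarith [norm_nonneg a, norm_nonneg z]

lemma norm_den_le {a z : ℂ} (ha : ‖a‖ ≤ 1) (hz : ‖z‖ ≤ 1) : ‖(1 : ℂ) - conj a * z‖ ≤ 2 := by
  calc ‖(1 : ℂ) - conj a * z‖ ≤ ‖(1 : ℂ)‖ + ‖conj a * z‖ := norm_sub_le _ _
    _ ≤ 1 + 1 := by
        rw [norm_mul, RCLike.norm_conj, norm_one]
        nlinarith [norm_nonneg a, norm_nonneg z]
    _ = 2 := by norm_num

lemma sq_identity (a z : ℂ) :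
    ‖(1 : ℂ) - conj a * z‖ ^ 2 - ‖z - a‖ ^ 2 = (1 - ‖a‖ ^ 2) * (1 - ‖z‖ ^ 2) := by
  rw [← Complex.normSq_eq_norm_sq, ← Complex.normSq_eq_norm_sq, ← Complex.normSq_eq_norm_sq,
    ← Complex.normSq_eq_norm_sq]
  simp only [Complex.normSq_apply, Complex.sub_re, Complex.sub_im, Complex.one_re, Complex.one_im,
    Complex.mul_re, Complex.mul_im, Complex.conj_re, Complex.conj_im]
  ring

lemma norm_mob_lt {a z : ℂ} (ha : ‖a‖ < 1) (hz : ‖z‖ < 1) : ‖mob a z‖ < 1 := by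
  have h := sq_identity a z
  have hd : 0 < ‖(1 : ℂ) - conj a * z‖ := norm_pos_iff.2 (den_ne ha hz.le)
  rw [mob, norm_div, div_lt_one hd]
  have h1 : 0 < (1 - ‖a‖ ^ 2) * (1 - ‖z‖ ^ 2) := by
    apply mul_pos <;> nlinarith [norm_nonneg a, norm_nonneg z]
  nlinarith [norm_nonneg (z - a), norm_nonneg ((1 : ℂ) - conj a * z)]

lemma norm_mob_eq {a z : ℂ} (ha : ‖a‖ < 1) (hz : ‖z‖ = 1) : ‖mob a z‖ = 1 := by
  have h := sq_identity a z
  have hd : 0 < ‖(1 : ℂ) - conj a * z‖ := norm_pos_iff.2 (den_ne ha hz.le)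
  rw [mob, norm_div, div_eq_one_iff_eq hd.ne']
  rw [hz] at h
  have h2 : ‖(1 : ℂ) - conj a * z‖ ^ 2 = ‖z - a‖ ^ 2 := by linarith
  exact ((sq_eq_sq₀ (norm_nonneg _) (norm_nonneg _)).1 h2).symm

lemma norm_mob_le {a z : ℂ} (ha : ‖a‖ < 1) (hz : ‖z‖ ≤ 1) : ‖mob a z‖ ≤ 1 := by
  rcases hz.lt_or_eq with h | h
  · exact (norm_mob_lt ha h).le
  · exact (norm_mob_eq ha h).le

lemma le_norm_mob {a z : ℂ} (ha : ‖a‖ < 1) (hz : ‖z‖ ≤ 1) : ‖z - a‖ / 2 ≤ ‖mob a z‖ := by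
  have hd : 0 < ‖(1 : ℂ) - conj a * z‖ := norm_pos_iff.2 (den_ne ha hz)
  rw [mob, norm_div]
  exact div_le_div_of_nonneg_left (norm_nonneg _) hd (norm_den_le ha.le hz)

@[simp] lemma mob_self (a : ℂ) : mob a a = 0 := by simp [mob]

lemma mob_eq_zero {a z : ℂ} (ha : ‖a‖ < 1) (hz : ‖z‖ ≤ 1) : mob a z = 0 ↔ z = a := by
  rw [mob, div_eq_zero_iff, sub_eq_zero]
  simp [den_ne ha hz]

@[simp] lemma mob_zero_left (z : ℂ) : mob 0 z = z := by simp [mob]

lemma mob_neg_mob {a z : ℂ} (ha : ‖a‖ < 1) (hz : ‖z‖ ≤ 1) : mob (-a) (mob a z) = z := by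
  have hd : (1 : ℂ) - conj a * z ≠ 0 := den_ne ha hz
  have h2 : (1 : ℂ) - conj (-a) * mob a z ≠ 0 := den_ne (by simpa using ha) (norm_mob_le ha hz)
  have haa : (1 : ℂ) - conj a * a ≠ 0 := den_ne ha ha.le
  rw [mob, div_eq_iff h2, mob]
  generalize hD : (1 : ℂ) - conj a * z = D at *
  simp only [map_neg]
  field_simp
  rw [← hD]
  ring

lemma mob_mob_neg {a z : ℂ} (ha : ‖a‖ < 1) (hz : ‖z‖ ≤ 1) : mob a (mob (-a) z) = z := by
  have := mob_neg_mob (a := -a) (z := z) (by simpa using ha) hz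
  simpa using this

lemma differentiableAt_mob {a z : ℂ} (ha : ‖a‖ < 1) (hz : ‖z‖ ≤ 1) :
    DifferentiableAt ℂ (mob a) z := by
  unfold mob
  apply DifferentiableAt.div
  · fun_prop
  · fun_prop
  · exact den_ne ha hz

lemma hasDerivAt_mob {a z : ℂ} (ha : ‖a‖ < 1) (hz : ‖z‖ ≤ 1) :
    HasDerivAt (mob a) ((1 - conj a * a) / (1 - conj a * z) ^ 2) z := by
  have hd : (1 : ℂ) - conj a * z ≠ 0 := den_ne ha hz
  have h1 : HasDerivAt (fun z : ℂ => z - a) 1 z := (hasDerivAt_id z).sub_const a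
  have h2 : HasDerivAt (fun z : ℂ => (1 : ℂ) - conj a * z) (-(conj a)) z := by
    simpa using ((hasDerivAt_id z).const_mul (conj a)).const_sub 1
  have h3 := h1.div h2 hd
  refine h3.congr_deriv ?_
  congr 1
  ring

lemma differentiableOn_mob {a : ℂ} (ha : ‖a‖ < 1) : DifferentiableOn ℂ (mob a) (ball 0 1) :=
  fun z hz => (differentiableAt_mob ha (by simpa using (mem_ball_zero_iff.1 hz).le)).differentiableWithinAt

lemma continuousAt_mob {a z : ℂ} (ha : ‖a‖ < 1) (hz : ‖z‖ ≤ 1) : ContinuousAt (mob a) z :=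
  (differentiableAt_mob ha hz).continuousAt

/-- joint continuity of `mob`. -/
lemma continuousAt_mob₂ {a z : ℂ} (ha : ‖a‖ < 1) (hz : ‖z‖ ≤ 1) :
    ContinuousAt (fun p : ℂ × ℂ => mob p.1 p.2) (a, z) := by
  unfold mob
  apply ContinuousAt.div
  · fun_prop
  · fun_prop
  · exact den_ne ha hz

/-- Division of a bounded function by one Blaschke factor. -/
lemma exists_div {h : ℂ → ℂ} (hd : DifferentiableOn ℂ h (ball 0 1))
    (hb : ∀ z ∈ ball (0 : ℂ) 1, ‖h z‖ ≤ 1) {w : ℂ} (hw : ‖w‖ < 1) (h0 : h w = 0) :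
    ∃ k : ℂ → ℂ, DifferentiableOn ℂ k (ball 0 1) ∧ (∀ z ∈ ball (0 : ℂ) 1, ‖k z‖ ≤ 1) ∧
      ∀ z ∈ ball (0 : ℂ) 1, h z = mob w z * k z := by
  have hwb : w ∈ ball (0 : ℂ) 1 := by simpa using hw
  set k : ℂ → ℂ := fun z => dslope h w z * (1 - conj w * z) with hk
  have hds : DifferentiableOn ℂ (dslope h w) (ball 0 1) :=
    (differentiableOn_dslope (isOpen_ball.mem_nhds hwb)).mpr hd
  have hkd : DifferentiableOn ℂ k (ball 0 1) := by
    apply hds.mul
    fun_prop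
  have hfac : ∀ z ∈ ball (0 : ℂ) 1, h z = mob w z * k z := by
    intro z hz
    have hz1 : ‖z‖ ≤ 1 := (mem_ball_zero_iff.1 hz).le
    have hden := den_ne hw hz1
    have h1 : h z = (z - w) * dslope h w z := by
      have := sub_smul_dslope h w z
      rw [h0, sub_zero, smul_eq_mul] at this
      exact this.symm
    rw [h1]
    simp only [hk, mob]
    generalize (1 : ℂ) - conj w * z = D at *
    field_simp
  have hSchwarz : ∀ z ∈ ball (0 : ℂ) 1, ‖h z‖ ≤ ‖mob w z‖ := by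
    intro z hz
    have hz1 : ‖z‖ < 1 := mem_ball_zero_iff.1 hz
    have hw' : ‖-w‖ < 1 := by simpa using hw
    have hmaps : MapsTo (mob (-w)) (ball 0 1) (ball (0 : ℂ) 1) := by
      intro u hu
      exact mem_ball_zero_iff.2 (norm_mob_lt hw' (mem_ball_zero_iff.1 hu))
    have hdc : DifferentiableOn ℂ (fun u => h (mob (-w) u)) (ball 0 1) :=
      hd.comp (differentiableOn_mob hw') hmaps
    have hc0 : (fun u => h (mob (-w) u)) 0 = 0 := by
      simp only [mob, map_neg, mul_zero, sub_zero, div_one, zero_sub, neg_neg]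
      exact h0
    have := norm_le_norm_of_mapsTo_ball (f := fun u => h (mob (-w) u)) (R := 1) (z := mob w z) hdc
      (fun u hu => by
        rw [mem_closedBall_zero_iff]
        exact hb _ (hmaps hu)) hc0 (norm_mob_lt hw hz1)
    simpa [mob_neg_mob hw hz1.le] using this
  refine ⟨k, hkd, ?_, hfac⟩
  have hne : ∀ z ∈ ball (0 : ℂ) 1, z ≠ w → ‖k z‖ ≤ 1 := by
    intro z hz hzw
    have h1 := hSchwarz z hz
    have hz1 : ‖z‖ ≤ 1 := (mem_ball_zero_iff.1 hz).le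
    have h2 : 0 < ‖mob w z‖ := norm_pos_iff.2 (by
      rw [Ne, mob_eq_zero hw hz1]; exact hzw)
    rw [hfac z hz, norm_mul] at h1
    have h3 : ‖mob w z‖ * ‖k z‖ ≤ ‖mob w z‖ * 1 := by linarith
    exact le_of_mul_le_mul_left h3 h2
  intro z hz
  by_cases hzw : z = w
  · subst hzw
    have hc : ContinuousAt k z := (hkd.differentiableAt (isOpen_ball.mem_nhds hz)).continuousAt
    have hfr : ∃ᶠ u in 𝓝[≠] z, ‖k u‖ ≤ 1 := by
      apply Eventually.frequently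
      have : ∀ᶠ u in 𝓝[≠] z, u ∈ ball (0 : ℂ) 1 :=
        (nhdsWithin_le_nhds (isOpen_ball.mem_nhds hz))
      filter_upwards [this, self_mem_nhdsWithin] with u hu hne'
      exact hne u hu hne'
    have ht : Tendsto (fun u => ‖k u‖) (𝓝[≠] z) (𝓝 ‖k z‖) :=
      (hc.norm.tendsto).mono_left nhdsWithin_le_nhds
    exact le_of_tendsto_of_frequently ht hfr
  · exact hne z hz hzw

/-- Division by a finite product of Blaschke factors with simple zeros. -/
lemma exists_div_finset {h : ℂ → ℂ} (hd : DifferentiableOn ℂ h (ball 0 1))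
    (hb : ∀ z ∈ ball (0 : ℂ) 1, ‖h z‖ ≤ 1) (S : Finset ℂ) (hS : ∀ w ∈ S, ‖w‖ < 1)
    (h0 : ∀ w ∈ S, h w = 0) :
    ∃ k : ℂ → ℂ, DifferentiableOn ℂ k (ball 0 1) ∧ (∀ z ∈ ball (0 : ℂ) 1, ‖k z‖ ≤ 1) ∧
      ∀ z ∈ ball (0 : ℂ) 1, h z = (∏ w ∈ S, mob w z) * k z := by
  classical
  induction S using Finset.induction_on with
  | empty => exact ⟨h, hd, hb, by simp⟩
  | insert w S hwS ih =>
    obtain ⟨k, hk1, hk2, hk3⟩ := ih (fun v hv => hS v (Finset.mem_insert_of_mem hv))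
      (fun v hv => h0 v (Finset.mem_insert_of_mem hv))
    have hw : ‖w‖ < 1 := hS w (Finset.mem_insert_self _ _)
    have hwb : w ∈ ball (0 : ℂ) 1 := by simpa using hw
    have hkw : k w = 0 := by
      have h1 := hk3 w hwb
      rw [h0 w (Finset.mem_insert_self _ _)] at h1
      rcases mul_eq_zero.1 h1.symm with h2 | h2
      · exfalso
        rw [Finset.prod_eq_zero_iff] at h2
        obtain ⟨v, hv, hv2⟩ := h2
        rw [mob_eq_zero (hS v (Finset.mem_insert_of_mem hv)) hw.le] at hv2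
        exact hwS (hv2 ▸ hv)
      · exact h2
    obtain ⟨k', h1, h2, h3⟩ := exists_div hk1 hk2 hw hkw
    refine ⟨k', h1, h2, fun z hz => ?_⟩
    rw [hk3 z hz, h3 z hz, Finset.prod_insert hwS]
    ring

/-- `f` hits the value `a` often enough: `mob a ∘ f` is, up to a factor `k` with
`|k 0| > 1 - ε`, a finite Blaschke product with simple zeros. -/
def Good (f : ℂ → ℂ) (a : ℂ) (ε : ℝ) : Prop :=
  ∃ (S : Finset ℂ) (k : ℂ → ℂ), (∀ w ∈ S, ‖w‖ < 1) ∧ DifferentiableOn ℂ k (ball 0 1) ∧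
    (∀ z ∈ ball (0 : ℂ) 1, ‖k z‖ ≤ 1) ∧
    (∀ z ∈ ball (0 : ℂ) 1, mob a (f z) = (∏ w ∈ S, mob w z) * k z) ∧ 1 - ε < ‖k 0‖

/-- Admissible maps: holomorphic locally univalent self-maps of the disc. -/
structure Adm (f : ℂ → ℂ) : Prop where
  diff : DifferentiableOn ℂ f (ball 0 1)
  maps : ∀ z ∈ ball (0 : ℂ) 1, ‖f z‖ < 1
  der : ∀ z ∈ ball (0 : ℂ) 1, deriv f z ≠ 0

/-- holomorphic logarithm on a disc -/
lemma exists_log {h : ℂ → ℂ} {R : ℝ} (hR : 0 < R) (hd : DifferentiableOn ℂ h (ball 0 R))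
    (hne : ∀ z ∈ ball (0 : ℂ) R, h z ≠ 0) :
    ∃ L : ℂ → ℂ, DifferentiableOn ℂ L (ball 0 R) ∧ ∀ z ∈ ball (0 : ℂ) R, h z = exp (L z) := by
  have h0 : (0 : ℂ) ∈ ball (0 : ℂ) R := by simpa using hR
  have hder : DifferentiableOn ℂ (fun z => deriv h z / h z) (ball 0 R) :=
    (hd.deriv isOpen_ball).div hd hne
  obtain ⟨L, hL0, hL⟩ := (hder.isExactOn_ball).with_val_at 0 (Complex.log (h 0))
  have hLd : DifferentiableOn ℂ L (ball 0 R) :=
    fun z hz => (hL z hz).differentiableAt.differentiableWithinAt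
  refine ⟨L, hLd, ?_⟩
  -- h * exp(-L) is constant
  have hder0 : ∀ z ∈ ball (0 : ℂ) R, HasDerivAt (fun z => h z * exp (-(L z))) 0 z := by
    intro z hz
    have h1 : HasDerivAt h (deriv h z) z :=
      (hd.differentiableAt (isOpen_ball.mem_nhds hz)).hasDerivAt
    have h2 : HasDerivAt (fun z => exp (-(L z))) (exp (-(L z)) * (-(deriv h z / h z))) z :=
      (hL z hz).neg.cexp
    refine (h1.mul h2).congr_deriv ?_
    have := hne z hz
    field_simp
    ring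
  have hconst : ∀ z ∈ ball (0 : ℂ) R, h z * exp (-(L z)) = h 0 * exp (-(L 0)) := by
    intro z hz
    apply (convex_ball (0 : ℂ) R).is_const_of_fderivWithin_eq_zero (𝕜 := ℂ) (f := fun z => h z * exp (-(L z)))
      ?_ ?_ hz h0
    · intro x hx
      exact (hder0 x hx).differentiableAt.differentiableWithinAt
    · intro x hx
      rw [fderivWithin_of_isOpen isOpen_ball hx]
      have := (hder0 x hx).hasFDerivAt.fderiv
      rw [this]
      ext
      simp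
  intro z hz
  have h1 := hconst z hz
  rw [hL0, exp_neg (Complex.log (h 0)), exp_log (hne 0 h0), mul_inv_cancel₀ (hne 0 h0)] at h1
  rw [exp_neg] at h1
  field_simp [exp_ne_zero] at h1
  exact h1

end Pool.Agent.MP_6cbd4a_an
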