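import Pool.Agent.MP_6cbd4a_an.Inst

/-!
# `g ∘ φ` is close to `F`
-/

open Complex Metric Set Filter Topology
open scoped ComplexConjugate Real

namespace Pool.Agent.MP_6cbd4a_an

lemma unit_close {u : ℂ → ℂ} (hd : DifferentiableOn ℂ u (ball 0 1))
    (hb : ∀ z ∈ ball (0 : ℂ) 1, ‖u z‖ ≤ 1) {t : ℝ} (ht : u 0 = t) {z : ℂ} (hz : ‖z‖ < 1)
    {M : ℝ} (hM : 0 < M) (htM : 1 - t ≤ M) : ‖u z - t‖ ≤ 2 * M * ‖z‖ / (1 - ‖z‖) := by
  have h := Complex.borelCaratheodory_zero (f := fun z => u z - t) (R := 1) (M := M) (z := z) hM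
    (hd.sub (differentiableOn_const _)) ?_ one_pos (mem_ball_zero_iff.2 hz) (by simp [ht])
  · exact h
  · intro w hw
    simp only [Set.mem_ofPred_eq, Complex.sub_re, Complex.ofReal_re]
    have := (Complex.re_le_norm (u w)).trans (hb w hw)
    linarith

lemma close_F {S : Setup} {ψ φ : ℂ → ℂ} (h : RM S.Om ψ φ) {κ r : ℝ} (hκ : 0 < κ) (hκ1 : κ ≤ 1)
    (h2N : 2 * (S.N : ℝ) ≤ (1 + κ) ^ S.N) (hr0 : 0 ≤ r) (hr : r < 1) (hκr : (1 + κ) * r ≤ 1)
    {w : ℂ} (hw : ‖w‖ ≤ r) :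
    ‖S.g (φ w) - S.F w‖ ≤ 2 * S.R0 * Real.exp (S.Mq + 1) / S.k ^ 3
      + Real.exp S.Mq * (5 * κ / (1 - r)) := by
  have hR0 := S.hR0
  have hw1 : ‖w‖ < 1 := lt_of_le_of_lt hw hr
  have hwb : w ∈ ball (0 : ℂ) 1 := mem_ball_zero_iff.2 hw1
  have h0b : (0 : ℂ) ∈ ball (0 : ℂ) 1 := mem_ball_self one_pos
  have hφ0 : φ 0 = 0 := by
    have := h.φψ 0 S.zero_mem_Om
    rwa [h.ψ0] at this
  have hφb : ∀ z ∈ ball (0 : ℂ) 1, ‖φ z‖ ≤ 1 + κ := by
    intro z hz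
    by_contra hcon
    push Not at hcon
    have h1 := (h.φm z hz).1
    have h2 : (1 + κ) ^ S.N ≤ ‖φ z‖ ^ S.N := pow_le_pow_left₀ (by linarith) hcon.le _
    linarith
  have hmaps : MapsTo φ (ball 0 1) (closedBall (φ 0) (1 + κ)) := by
    intro z hz
    rw [hφ0, mem_closedBall_zero_iff]
    exact hφb z hz
  set u : ℂ → ℂ := fun z => dslope φ 0 z / ((1 + κ : ℝ) : ℂ) with hu
  have hκn : ‖((1 + κ : ℝ) : ℂ)‖ = 1 + κ := by
    rw [Complex.norm_real, Real.norm_of_nonneg (by linarith)]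
  have hκne : ((1 + κ : ℝ) : ℂ) ≠ 0 := by
    rw [← norm_pos_iff, hκn]; linarith
  have hud : DifferentiableOn ℂ u (ball 0 1) :=
    ((differentiableOn_dslope (isOpen_ball.mem_nhds h0b)).mpr h.φd).div_const _
  have hub : ∀ z ∈ ball (0 : ℂ) 1, ‖u z‖ ≤ 1 := by
    intro z hz
    rw [hu]
    simp only [norm_div, hκn]
    rw [div_le_one (by linarith)]
    simpa using Complex.norm_dslope_le_div_of_mapsTo_ball h.φd hmaps hz
  obtain ⟨c, hc0, hc⟩ := h.pos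
  have hψd1 : DifferentiableOn ℂ ψ (ball 0 1) :=
    h.ψd.mono (ball_subset_closedBall.trans S.closedBall_sub_Om)
  have hc1 : c ≤ 1 := by
    have h1 := Complex.norm_deriv_le_one_of_mapsTo_ball (f := ψ) (c := 0) (R := 1) hψd1 (by
      intro z hz
      rw [h.ψ0, mem_closedBall_zero_iff]
      exact (h.ψm z (S.closedBall_sub_Om (ball_subset_closedBall hz))).le) one_pos
    rwa [hc, Complex.norm_real, Real.norm_of_nonneg hc0.le] at h1
  have hφ'0 : deriv φ 0 = ((1 / c : ℝ) : ℂ) := by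
    have h1 := h.derφ S.isOpen_Om h0b
    rw [hφ0, hc] at h1
    have hcne : (c : ℂ) ≠ 0 := by exact_mod_cast hc0.ne'
    push_cast
    field_simp
    rw [mul_comm]; exact h1
  have hu0 : u 0 = ((1 / c / (1 + κ) : ℝ) : ℂ) := by
    simp only [hu, dslope_same, hφ'0]
    push_cast
    ring
  have ht : 1 - 1 / c / (1 + κ) ≤ κ := by
    have h1 : 1 ≤ 1 / c := by rw [le_div_iff₀ hc0]; linarith
    have h2 : 1 / (1 + κ) ≤ 1 / c / (1 + κ) := by gcongr
    have h3 : 1 - κ ≤ 1 / (1 + κ) := by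
      rw [le_div_iff₀ (by linarith)]
      nlinarith
    linarith
  have ht1 : 1 / c / (1 + κ) ≤ 1 := by
    have h1 := hub 0 h0b
    rw [hu0, Complex.norm_real] at h1
    exact (le_abs_self _).trans h1
  have h1 := unit_close hud hub hu0 hw1 hκ ht
  have hr1 : 0 < 1 - r := by linarith
  have h2 : ‖u w - 1‖ ≤ 2 * κ * r / (1 - r) + κ := by
    have h3 : ‖u w - 1‖ ≤ ‖u w - ((1 / c / (1 + κ) : ℝ) : ℂ)‖
        + ‖((1 / c / (1 + κ) : ℝ) : ℂ) - 1‖ := by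
      have : u w - 1 = (u w - ((1 / c / (1 + κ) : ℝ) : ℂ))
        + (((1 / c / (1 + κ) : ℝ) : ℂ) - 1) := by ring
      rw [this]
      exact norm_add_le _ _
    have h4 : ‖((1 / c / (1 + κ) : ℝ) : ℂ) - 1‖ ≤ κ := by
      rw [← Complex.ofReal_one, ← Complex.ofReal_sub, Complex.norm_real, Real.norm_eq_abs,
        abs_sub_comm, abs_of_nonneg (by linarith)]
      exact ht
    have h5 : 2 * κ * ‖w‖ / (1 - ‖w‖) ≤ 2 * κ * r / (1 - r) := by
      gcongr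
    linarith
  have hφw : φ w = w * (((1 + κ : ℝ) : ℂ) * u w) := by
    have h3 : (w - 0) • dslope φ 0 w = φ w - φ 0 := sub_smul_dslope φ 0 w
    rw [hφ0, sub_zero, sub_zero, smul_eq_mul] at h3
    rw [← h3, hu]
    field_simp
  have hd1 : ‖φ w - w‖ ≤ 5 * κ / (1 - r) := by
    have h3 : φ w - w = w * (((1 + κ : ℝ) : ℂ) * (u w - 1) + (κ : ℂ)) := by
      rw [hφw]; push_cast; ring
    rw [h3, norm_mul]
    have h4 : ‖((1 + κ : ℝ) : ℂ) * (u w - 1) + (κ : ℂ)‖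
        ≤ (1 + κ) * (2 * κ * r / (1 - r) + κ) + κ := by
      refine (norm_add_le _ _).trans ?_
      rw [norm_mul, hκn, Complex.norm_real, Real.norm_of_nonneg hκ.le]
      gcongr
    calc ‖w‖ * ‖((1 + κ : ℝ) : ℂ) * (u w - 1) + (κ : ℂ)‖
        ≤ 1 * ((1 + κ) * (2 * κ * r / (1 - r) + κ) + κ) := by gcongr
      _ ≤ 5 * κ / (1 - r) := by
          rw [one_mul, le_div_iff₀ hr1]
          have e : ((1 + κ) * (2 * κ * r / (1 - r) + κ) + κ) * (1 - r)
            = (1 + κ) * (2 * κ * r + κ * (1 - r)) + κ * (1 - r) := by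
            field_simp
          rw [e]
          nlinarith [mul_nonneg hκ.le hr0, mul_pos hκ hr1, mul_nonneg hκ.le (mul_nonneg hκ.le hr0),
            mul_nonneg hκ.le (sub_nonneg.2 hκ1), mul_nonneg (mul_nonneg hκ.le hr0) (sub_nonneg.2 hκ1)]
  have hφw1 : ‖φ w‖ ≤ 1 := by
    rw [hφw, norm_mul, norm_mul, hκn]
    calc ‖w‖ * ((1 + κ) * ‖u w‖) ≤ r * ((1 + κ) * 1) := by
          gcongr
          exact hub w hwb
      _ = (1 + κ) * r := by ring
      _ ≤ 1 := hκr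
  have hN1 := S.N_ge_one
  have hpow : ‖φ w‖ ^ S.N ≤ 1 := pow_le_one₀ (norm_nonneg _) hφw1
  have h6 := S.g_sub_F (K := 1) zero_le_one (z := φ w) (by linarith) (by
    have := Complex.re_le_norm (φ w ^ S.N)
    rw [norm_pow] at this
    linarith)
  have hφR : φ w ∈ ball (0 : ℂ) S.R0 := by
    rw [mem_ball_zero_iff]; linarith
  have hwR : w ∈ ball (0 : ℂ) S.R0 := by
    rw [mem_ball_zero_iff]; linarith
  have h7 : ‖S.F (φ w) - S.F w‖ ≤ Real.exp S.Mq * ‖φ w - w‖ := by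
    apply (convex_ball (0 : ℂ) S.R0).norm_image_sub_le_of_norm_hasDerivWithin_le
      (f' := fun u => exp (S.q u)) ?_ ?_ hwR hφR
    · exact fun u hu => (S.hF u hu).hasDerivWithinAt
    · intro u hu
      rw [norm_exp]
      exact Real.exp_le_exp.2 ((Complex.re_le_norm _).trans (S.hqb _ hu))
  have h8 : ‖S.g (φ w) - S.F w‖ ≤ ‖S.g (φ w) - S.F (φ w)‖ + ‖S.F (φ w) - S.F w‖ := by
    have : S.g (φ w) - S.F w = (S.g (φ w) - S.F (φ w)) + (S.F (φ w) - S.F w) := by ring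
    rw [this]
    exact norm_add_le _ _
  have h9 : Real.exp S.Mq * ‖φ w - w‖ ≤ Real.exp S.Mq * (5 * κ / (1 - r)) := by gcongr
  linarith

end Pool.Agent.MP_6cbd4a_an
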