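import Pool.Agent.MP_6cbd4a_an.GN

/-!
# The flow to the left in the coordinate `z^N`
-/

open Complex Metric Set Filter Topology
open scoped ComplexConjugate

namespace Pool.Agent.MP_6cbd4a_an

namespace Setup

variable (S : Setup)

/-- the point of the `ζ`-plane -/
noncomputable def W (z : ℂ) (t : ℝ) : ℂ := z ^ S.N - (((z ^ S.N).re - S.K : ℝ) : ℂ) + t

/-- the path in the `z`-plane -/
noncomputable def P (z : ℂ) (t : ℝ) : ℂ :=
  z * exp ((log (S.W z t) - log (z ^ S.N)) / S.N)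

noncomputable def Th (z : ℂ) (t : ℝ) : ℂ :=
  S.q (S.P z t) + S.W z t + (log (S.W z t) - log (z ^ S.N)) / S.N - log (S.W z t)

noncomputable def J (z : ℂ) (t : ℝ) : ℂ := (z / S.N) * exp (S.Th z t)

noncomputable def G (z : ℂ) (t : ℝ) : ℂ := S.g (S.P z t)

variable {z : ℂ}

lemma W_re (z : ℂ) (t : ℝ) : (S.W z t).re = S.K + t := by
  simp only [W, Complex.add_re, Complex.sub_re, Complex.ofReal_re]
  ring

lemma W_im (z : ℂ) (t : ℝ) : (S.W z t).im = (z ^ S.N).im := by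
  simp [W]

lemma W_T (z : ℂ) : S.W z ((z ^ S.N).re - S.K) = z ^ S.N := by
  simp [W]

lemma W_slit {t : ℝ} (ht : 0 ≤ t) : S.W z t ∈ slitPlane := by
  rw [mem_slitPlane_iff]
  left
  rw [S.W_re]
  linarith [S.Kpos]

lemma W_ne {t : ℝ} (ht : 0 ≤ t) : S.W z t ≠ 0 := slitPlane_ne_zero (S.W_slit ht)

lemma pow_slit (hre : S.K ≤ (z ^ S.N).re) : z ^ S.N ∈ slitPlane := by
  rw [mem_slitPlane_iff]
  left
  linarith [S.Kpos]

lemma pow_ne (hre : S.K ≤ (z ^ S.N).re) : z ^ S.N ≠ 0 := slitPlane_ne_zero (S.pow_slit hre)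

lemma NC_ne : (S.N : ℂ) ≠ 0 := by exact_mod_cast S.Npos.ne'

lemma P_pow (hre : S.K ≤ (z ^ S.N).re) {t : ℝ} (ht : 0 ≤ t) : S.P z t ^ S.N = S.W z t := by
  rw [P, mul_pow, ← exp_nat_mul]
  have h1 : (S.N : ℂ) * ((log (S.W z t) - log (z ^ S.N)) / S.N)
      = log (S.W z t) - log (z ^ S.N) := by
    have := S.NC_ne
    field_simp
  rw [h1, exp_sub, exp_log (S.W_ne ht), exp_log (S.pow_ne hre)]
  have := S.pow_ne hre
  field_simp

lemma P_T (z : ℂ) : S.P z ((z ^ S.N).re - S.K) = z := by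
  rw [P, S.W_T]
  simp

lemma norm_W_le (hre : S.K ≤ (z ^ S.N).re) {t : ℝ} (ht : t ∈ Icc 0 ((z ^ S.N).re - S.K)) :
    ‖S.W z t‖ ≤ ‖z ^ S.N‖ := by
  have hK := S.Kpos
  rw [← sq_le_sq₀ (norm_nonneg _) (norm_nonneg _), ← Complex.normSq_eq_norm_sq,
    ← Complex.normSq_eq_norm_sq, Complex.normSq_apply, Complex.normSq_apply, S.W_re, S.W_im]
  have h1 : S.K + t ≤ (z ^ S.N).re := by linarith [ht.2]
  have h0 : 0 ≤ S.K + t := by linarith [ht.1]
  nlinarith

lemma norm_P_pow_le (hre : S.K ≤ (z ^ S.N).re) {t : ℝ}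
    (ht : t ∈ Icc 0 ((z ^ S.N).re - S.K)) : ‖S.P z t‖ ^ S.N ≤ ‖z‖ ^ S.N := by
  rw [← norm_pow, ← norm_pow, S.P_pow hre ht.1]
  exact S.norm_W_le hre ht

lemma P_mem (hz : ‖z‖ ^ S.N ≤ 2 * S.N) (hre : S.K ≤ (z ^ S.N).re) {t : ℝ}
    (ht : t ∈ Icc 0 ((z ^ S.N).re - S.K)) : S.P z t ∈ ball (0 : ℂ) S.R0 :=
  S.mem_ball_of_pow ((S.norm_P_pow_le hre ht).trans hz)

lemma hasDerivAt_W (z : ℂ) (t : ℝ) : HasDerivAt (S.W z) 1 t := by
  have h1 : HasDerivAt (fun t : ℝ => (t : ℂ)) 1 t := Complex.ofRealCLM.hasDerivAt (x := t)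
  exact h1.const_add _

lemma hasDerivAt_logW {t : ℝ} (ht : 0 ≤ t) :
    HasDerivAt (fun t => log (S.W z t)) (1 / S.W z t) t :=
  (S.hasDerivAt_W z t).clog_real (S.W_slit ht)

lemma hasDerivAt_P {t : ℝ} (ht : 0 ≤ t) :
    HasDerivAt (S.P z) (S.P z t / (S.N * S.W z t)) t := by
  have h1 := (((S.hasDerivAt_logW (z := z) ht).sub_const (log (z ^ S.N))).div_const (S.N : ℂ)).cexp.const_mul z
  refine h1.congr_deriv ?_
  rw [P]
  have := S.NC_ne
  have := S.W_ne (z := z) ht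
  field_simp

lemma J_eq (hre : S.K ≤ (z ^ S.N).re) {t : ℝ} (ht : 0 ≤ t) :
    S.J z t = exp (S.q (S.P z t) + S.W z t) * (S.P z t / (S.N * S.W z t)) := by
  rw [J, Th, P, exp_sub, exp_add _ ((log (S.W z t) - log (z ^ S.N)) / S.N), exp_log (S.W_ne ht)]
  have := S.NC_ne
  have := S.W_ne (z := z) ht
  field_simp

lemma hasDerivAt_G (hz : ‖z‖ ^ S.N ≤ 2 * S.N) (hre : S.K ≤ (z ^ S.N).re) {t : ℝ}
    (ht : t ∈ Icc 0 ((z ^ S.N).re - S.K)) : HasDerivAt (S.G z) (S.J z t) t := by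
  have h1 := (S.hg _ (S.P_mem hz hre ht)).scomp t (S.hasDerivAt_P (z := z) ht.1)
  refine h1.congr_deriv ?_
  rw [smul_eq_mul, S.P_pow hre ht.1, S.J_eq hre ht.1]
  ring

/-- the relative error -/
noncomputable def ep (z : ℂ) (t : ℝ) : ℂ :=
  (deriv S.q (S.P z t) * S.P z t / S.N + 1 / S.N - 1) / S.W z t

lemma hasDerivAt_Th (hz : ‖z‖ ^ S.N ≤ 2 * S.N) (hre : S.K ≤ (z ^ S.N).re) {t : ℝ}
    (ht : t ∈ Icc 0 ((z ^ S.N).re - S.K)) : HasDerivAt (S.Th z) (1 + S.ep z t) t := by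
  have hm := S.P_mem hz hre ht
  have hqd : HasDerivAt S.q (deriv S.q (S.P z t)) (S.P z t) :=
    (S.hq.differentiableAt (isOpen_ball.mem_nhds hm)).hasDerivAt
  have h1 := hqd.scomp t (S.hasDerivAt_P (z := z) ht.1)
  have h2 := S.hasDerivAt_W z t
  have h3 := ((S.hasDerivAt_logW (z := z) ht.1).sub_const (log (z ^ S.N))).div_const (S.N : ℂ)
  have h4 := S.hasDerivAt_logW (z := z) ht.1
  have h5 := ((h1.add h2).add h3).sub h4
  refine h5.congr_deriv ?_
  rw [ep, smul_eq_mul]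
  have := S.NC_ne
  have := S.W_ne (z := z) ht.1
  field_simp
  ring

lemma hasDerivAt_J (hz : ‖z‖ ^ S.N ≤ 2 * S.N) (hre : S.K ≤ (z ^ S.N).re) {t : ℝ}
    (ht : t ∈ Icc 0 ((z ^ S.N).re - S.K)) :
    HasDerivAt (S.J z) (S.J z t * (1 + S.ep z t)) t := by
  have h1 := (S.hasDerivAt_Th hz hre ht).cexp.const_mul (z / S.N)
  refine h1.congr_deriv ?_
  rw [J]
  ring

lemma norm_ep_le (hz : ‖z‖ ^ S.N ≤ 2 * S.N) (hre : S.K ≤ (z ^ S.N).re) {t : ℝ}
    (ht : t ∈ Icc 0 ((z ^ S.N).re - S.K)) : ‖S.ep z t‖ ≤ 2 / S.K := by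
  have hm := S.P_mem hz hre ht
  have hK := S.Kpos
  have hN := S.NposR
  have hW : S.K ≤ ‖S.W z t‖ := by
    calc S.K ≤ (S.W z t).re := by rw [S.W_re]; linarith [ht.1]
      _ ≤ ‖S.W z t‖ := Complex.re_le_norm _
  have hnum : ‖deriv S.q (S.P z t) * S.P z t / S.N + 1 / S.N - 1‖ ≤ 2 := by
    calc ‖deriv S.q (S.P z t) * S.P z t / S.N + 1 / S.N - 1‖
        ≤ ‖deriv S.q (S.P z t) * S.P z t / S.N + 1 / S.N‖ + ‖(1 : ℂ)‖ := norm_sub_le _ _
      _ ≤ ‖deriv S.q (S.P z t) * S.P z t / S.N‖ + ‖(1 : ℂ) / S.N‖ + 1 := by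
          rw [norm_one]
          gcongr
          exact norm_add_le _ _
      _ ≤ S.M2 * S.R0 / S.N + 1 / S.N + 1 := by
          rw [norm_div, norm_mul, norm_div, norm_one, Complex.norm_natCast]
          gcongr
          · exact S.hM2
          · exact S.hqb' _ hm
          · exact (mem_ball_zero_iff.1 hm).le
      _ = (S.M2 * S.R0 + 1) / S.N + 1 := by ring
      _ ≤ 1 + 1 := by
          gcongr
          rw [div_le_one hN]
          exact S.hN2
      _ = 2 := by norm_num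
  rw [ep, norm_div]
  exact div_le_div₀ (by norm_num) hnum (by linarith) hW

lemma norm_J (z : ℂ) (t : ℝ) : ‖S.J z t‖ = ‖z‖ / S.N * Real.exp (S.Th z t).re := by
  rw [J, norm_mul, norm_div, norm_exp, Complex.norm_natCast]

lemma G_sub_J (hz : ‖z‖ ^ S.N ≤ 2 * S.N) (hre : S.K ≤ (z ^ S.N).re) {t : ℝ}
    (ht : t ∈ Icc 0 ((z ^ S.N).re - S.K)) :
    ‖S.G z t - S.J z t - (S.G z 0 - S.J z 0)‖ ≤ 4 / S.K * ‖S.J z t‖ := by
  set T := (z ^ S.N).re - S.K with hT
  have hK := S.Kpos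
  have hT0 : (0 : ℝ) ∈ Icc 0 T := ⟨le_rfl, by rw [hT]; linarith⟩
  set f : ℝ → ℂ := fun t => S.G z t - S.J z t - (S.G z 0 - S.J z 0) with hf
  set f' : ℝ → ℂ := fun t => S.J z t - S.J z t * (1 + S.ep z t) with hf'
  set B : ℝ → ℝ := fun t => 4 / S.K * (‖z‖ / S.N * Real.exp (S.Th z t).re) with hB
  set B' : ℝ → ℝ := fun t =>
    4 / S.K * (‖z‖ / S.N * (Real.exp (S.Th z t).re * (1 + S.ep z t).re)) with hB'
  have hfd : ∀ t ∈ Icc 0 T, HasDerivAt f (f' t) t := fun t ht =>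
    ((S.hasDerivAt_G hz hre ht).sub (S.hasDerivAt_J hz hre ht)).sub_const _
  have hBd : ∀ t ∈ Icc 0 T, HasDerivAt B (B' t) t := by
    intro t ht
    have h1 : HasDerivAt (fun t => (S.Th z t).re) (1 + S.ep z t).re t := by
      have := (Complex.reCLM.hasFDerivAt (x := S.Th z t)).comp_hasDerivAt t
        (S.hasDerivAt_Th hz hre ht)
      exact this
    exact ((h1.exp).const_mul _).const_mul _
  have hmain := image_norm_le_of_norm_deriv_right_le_deriv_boundary' (a := 0) (b := T)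
    (f := f) (f' := f') (B := B) (B' := B')
    (fun x hx => (hfd x hx).continuousAt.continuousWithinAt)
    (fun x hx => (hfd x ⟨hx.1, hx.2.le⟩).hasDerivWithinAt)
    (by
      simp only [hf, hB, sub_self, norm_zero]
      have := S.NposR
      positivity)
    (fun x hx => (hBd x hx).continuousAt.continuousWithinAt)
    (fun x hx => (hBd x ⟨hx.1, hx.2.le⟩).hasDerivWithinAt)
    (by
      intro x hx
      have hxI : x ∈ Icc 0 T := ⟨hx.1, hx.2.le⟩
      have hep := S.norm_ep_le hz hre hxI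
      have h1 : f' x = -(S.J z x * S.ep z x) := by simp only [hf']; ring
      rw [h1, norm_neg, norm_mul]
      have h2 : B' x = 4 / S.K * ‖S.J z x‖ * (1 + S.ep z x).re := by
        simp only [hB', S.norm_J]; ring
      rw [h2]
      have h3 : 1 / 2 ≤ (1 + S.ep z x).re := by
        have h4 := Complex.abs_re_le_norm (S.ep z x)
        have h5 : 2 / S.K ≤ 1 / 2 := by
          rw [div_le_div_iff₀ (by linarith) (by norm_num)]
          linarith
        have h6 := neg_abs_le (S.ep z x).re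
        rw [Complex.add_re, Complex.one_re]
        linarith
      calc ‖S.J z x‖ * ‖S.ep z x‖ ≤ ‖S.J z x‖ * (2 / S.K) := by gcongr
        _ = 4 / S.K * ‖S.J z x‖ * (1 / 2) := by ring
        _ ≤ 4 / S.K * ‖S.J z x‖ * (1 + S.ep z x).re := by gcongr)
    ht
  simpa only [hf, hB, ← S.norm_J] using hmain

lemma W_zero_re (z : ℂ) : (S.W z 0).re = S.K := by rw [S.W_re]; ring

/-- the base value has norm at most `1 - δ` -/
lemma norm_base (hz : ‖z‖ ^ S.N ≤ 2 * S.N) (hre : S.K ≤ (z ^ S.N).re) :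
    ‖S.G z 0 - S.J z 0‖ ≤ 1 - S.δ := by
  have hK := S.Kpos
  have hT0 : (0 : ℝ) ∈ Icc 0 ((z ^ S.N).re - S.K) := ⟨le_rfl, by linarith⟩
  have hm := S.P_mem hz hre hT0
  have h1 : ‖S.G z 0‖ ≤ 1 - 3 / 2 * S.δ := by
    apply S.g_bound_left
    · exact (S.norm_P_pow_le hre hT0).trans hz
    · rw [S.P_pow hre le_rfl, S.W_zero_re]
  have h2 : ‖S.J z 0‖ ≤ S.δ / 2 := by
    rw [S.J_eq hre le_rfl, norm_mul, norm_div, norm_mul, norm_exp, Complex.norm_natCast,
      Complex.add_re, S.W_zero_re]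
    have hW : S.K ≤ ‖S.W z 0‖ := by
      calc S.K = (S.W z 0).re := (S.W_zero_re z).symm
        _ ≤ ‖S.W z 0‖ := Complex.re_le_norm _
    have hq1 : (S.q (S.P z 0)).re ≤ S.Mq := (Complex.re_le_norm _).trans (S.hqb _ hm)
    have hP : ‖S.P z 0‖ ≤ S.R0 := (mem_ball_zero_iff.1 hm).le
    have hN := S.NposR
    have hR0 := S.hR0
    calc Real.exp ((S.q (S.P z 0)).re + S.K) * (‖S.P z 0‖ / (S.N * ‖S.W z 0‖))
        ≤ Real.exp (S.Mq + S.K) * (S.R0 / (S.N * S.K)) := by gcongr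
      _ = S.R0 * Real.exp (S.Mq + S.K) / (S.N * S.K) := by ring
      _ ≤ S.δ / 2 := S.hJ0
  calc ‖S.G z 0 - S.J z 0‖ ≤ ‖S.G z 0‖ + ‖S.J z 0‖ := norm_sub_le _ _
    _ ≤ 1 - S.δ := by linarith

/-- `G = p + J (1 + e)` with `|e| ≤ 4/K` and `|p| ≤ 1 - δ`, so that `|J|` is bounded by `4` when
`|G| ≤ 1`. -/
lemma norm_J_le (hz : ‖z‖ ^ S.N ≤ 2 * S.N) (hre : S.K ≤ (z ^ S.N).re) {t : ℝ}
    (ht : t ∈ Icc 0 ((z ^ S.N).re - S.K)) (hG : ‖S.G z t‖ ≤ 1) : ‖S.J z t‖ ≤ 4 := by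
  have hK := S.Kpos
  have h1 := S.G_sub_J hz hre ht
  have h2 := S.norm_base hz hre
  have h3 : 4 / S.K ≤ 1 / 2 := by
    rw [div_le_div_iff₀ (by linarith) (by norm_num)]
    linarith
  have hδ := S.hδ
  have h4 : ‖S.J z t‖ ≤ ‖S.G z t‖ + ‖S.G z 0 - S.J z 0‖
      + ‖S.G z t - S.J z t - (S.G z 0 - S.J z 0)‖ := by
    have : S.J z t = S.G z t - (S.G z 0 - S.J z 0)
      - (S.G z t - S.J z t - (S.G z 0 - S.J z 0)) := by ring
    calc ‖S.J z t‖ = ‖S.G z t - (S.G z 0 - S.J z 0)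
      - (S.G z t - S.J z t - (S.G z 0 - S.J z 0))‖ := by rw [← this]
      _ ≤ ‖S.G z t - (S.G z 0 - S.J z 0)‖
          + ‖S.G z t - S.J z t - (S.G z 0 - S.J z 0)‖ := norm_sub_le _ _
      _ ≤ _ := by
          gcongr
          exact norm_sub_le _ _
  have h5 : 4 / S.K * ‖S.J z t‖ ≤ 1 / 2 * ‖S.J z t‖ := by gcongr
  linarith

/-- the flow to the left keeps `‖g‖ < 1`. -/
lemma flow_stays (hz : ‖z‖ ^ S.N ≤ 2 * S.N) (hre : S.K ≤ (z ^ S.N).re) (hgz : ‖S.g z‖ < 1)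
    {t : ℝ} (ht : t ∈ Icc 0 ((z ^ S.N).re - S.K)) : ‖S.G z t‖ < 1 := by
  set T := (z ^ S.N).re - S.K with hT
  have hK := S.Kpos
  have hKδ : 128 ≤ S.K * S.δ := by
    have := S.hK
    rw [div_le_iff₀ S.hδ] at this
    exact this
  have hδ := S.hδ
  have hδ1 := S.hδ1
  have hGT : S.G z T = S.g z := by rw [G, hT, S.P_T]
  set c : ℝ := max (‖S.g z‖ ^ 2) ((1 - S.δ / 2) ^ 2) with hc
  have hc1 : c < 1 := by
    rw [hc, max_lt_iff]
    constructor
    · nlinarith [norm_nonneg (S.g z)]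
    · nlinarith
  -- reversed function
  set y : ℝ → ℝ := fun τ => ‖S.G z (T - τ)‖ ^ 2 with hy
  set y' : ℝ → ℝ := fun τ => -(2 * (conj (S.G z (T - τ)) * S.J z (T - τ)).re) with hy'
  have hyd : ∀ τ ∈ Icc 0 T, HasDerivAt y (y' τ) τ := by
    intro τ hτ
    have hmem : T - τ ∈ Icc 0 T := ⟨by linarith [hτ.2], by linarith [hτ.1]⟩
    have h1 := S.hasDerivAt_G hz hre hmem
    have h2 : HasDerivAt (fun τ : ℝ => T - τ) (-1) τ := by
      simpa using (hasDerivAt_id τ).const_sub T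
    have h3 := h1.scomp τ h2
    have h4 := h3.norm_sq
    refine h4.congr_deriv ?_
    simp only [hy', Function.comp_apply, neg_smul, one_smul, inner_neg_right, Complex.inner]
    ring
  have hmain := image_le_of_deriv_right_lt_deriv_boundary (a := 0) (b := T)
    (f := y) (f' := y') (B := fun _ => c) (B' := fun _ => 0)
    (fun x hx => (hyd x hx).continuousAt.continuousWithinAt)
    (fun x hx => (hyd x ⟨hx.1, hx.2.le⟩).hasDerivWithinAt)
    (by
      simp only [hy, sub_zero, hGT]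
      exact le_max_left _ _)
    (fun x => hasDerivAt_const x c)
    (by
      intro x hx hxc
      have hmem : T - x ∈ Icc 0 T := ⟨by linarith [hx.2], by linarith [hx.1]⟩
      set s := T - x with hs
      have hxc' : ‖S.G z s‖ ^ 2 = c := hxc
      have hG1 : ‖S.G z s‖ < 1 := by
        have := norm_nonneg (S.G z s)
        nlinarith
      have hG2 : 1 - S.δ / 2 ≤ ‖S.G z s‖ := by
        have h1 : (1 - S.δ / 2) ^ 2 ≤ ‖S.G z s‖ ^ 2 := by rw [hxc']; exact le_max_right _ _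
        exact (sq_le_sq₀ (by linarith) (norm_nonneg _)).1 h1
      have hJ4 := S.norm_J_le hz hre hmem hG1.le
      have he := S.G_sub_J hz hre hmem
      have hb := S.norm_base hz hre
      set p := S.G z 0 - S.J z 0 with hp
      set e := S.G z s - S.J z s - p with hee
      have he16 : ‖e‖ ≤ 16 / S.K := by
        calc ‖e‖ ≤ 4 / S.K * ‖S.J z s‖ := he
          _ ≤ 4 / S.K * 4 := by gcongr
          _ = 16 / S.K := by ring
      have he8 : ‖e‖ ≤ S.δ / 8 := by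
        refine he16.trans ?_
        rw [div_le_div_iff₀ (by linarith) (by norm_num)]
        linarith
      have hJeq : S.J z s = S.G z s - p - e := by rw [hee]; ring
      have hre1 : (conj (S.G z s) * S.J z s).re
          = ‖S.G z s‖ ^ 2 - (conj (S.G z s) * p).re - (conj (S.G z s) * e).re := by
        rw [hJeq, mul_sub, mul_sub, Complex.sub_re, Complex.sub_re]
        congr 2
        rw [mul_comm, Complex.mul_conj, Complex.ofReal_re, Complex.normSq_eq_norm_sq]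
      have hre2 : (conj (S.G z s) * p).re ≤ ‖S.G z s‖ * (1 - S.δ) := by
        calc (conj (S.G z s) * p).re ≤ ‖conj (S.G z s) * p‖ := Complex.re_le_norm _
          _ = ‖S.G z s‖ * ‖p‖ := by rw [norm_mul, RCLike.norm_conj]
          _ ≤ _ := by gcongr
      have hre3 : (conj (S.G z s) * e).re ≤ ‖S.G z s‖ * (S.δ / 8) := by
        calc (conj (S.G z s) * e).re ≤ ‖conj (S.G z s) * e‖ := Complex.re_le_norm _
          _ = ‖S.G z s‖ * ‖e‖ := by rw [norm_mul, RCLike.norm_conj]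
          _ ≤ _ := by gcongr
      have hpos : 0 < (conj (S.G z s) * S.J z s).re := by
        rw [hre1]
        have hGpos : 0 < ‖S.G z s‖ := by linarith
        have : 0 < ‖S.G z s‖ * (‖S.G z s‖ - (1 - S.δ) - S.δ / 8) := by
          apply mul_pos hGpos
          linarith
        nlinarith
      show -(2 * (conj (S.G z s) * S.J z s).re) < 0
      linarith)
  have hmem : T - t ∈ Icc 0 T := ⟨by linarith [ht.2], by linarith [ht.1]⟩
  have h1 := hmain hmem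
  simp only [hy, sub_sub_cancel] at h1
  have := norm_nonneg (S.G z t)
  nlinarith

/-- bound for `Re z^N` on `Ω`. -/
lemma re_bound (hz : ‖z‖ ^ S.N ≤ 2 * S.N) (hgz : ‖S.g z‖ < 1) :
    (z ^ S.N).re ≤ Real.log (8 * S.N ^ 2) + S.Mq + S.K := by
  have hK := S.Kpos
  have hN1 := S.N_ge_one
  have hN := S.NposR
  have hlog : 0 ≤ Real.log (8 * (S.N : ℝ) ^ 2) := by
    apply Real.log_nonneg
    nlinarith
  have hMq := S.hMq
  rcases le_or_gt S.K (z ^ S.N).re with hre | hre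
  swap
  · linarith
  have hT : (z ^ S.N).re - S.K ∈ Icc 0 ((z ^ S.N).re - S.K) := ⟨by linarith, le_rfl⟩
  have hG : S.G z ((z ^ S.N).re - S.K) = S.g z := by rw [G, S.P_T]
  have h1 := S.norm_J_le hz hre hT (by rw [hG]; exact hgz.le)
  have hzb := S.mem_ball_of_pow hz
  rw [S.J_eq hre hT.1, S.P_T, S.W_T, norm_mul, norm_div, norm_mul, norm_exp,
    Complex.norm_natCast, Complex.add_re, norm_pow] at h1
  have hq1 : -S.Mq ≤ (S.q z).re := by
    have h2 := S.hqb z hzb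
    have h3 := Complex.abs_re_le_norm (S.q z)
    have h4 := neg_abs_le (S.q z).re
    linarith
  have hpow1 : 1 ≤ ‖z‖ ^ S.N := by
    calc (1 : ℝ) ≤ S.K := by linarith
      _ ≤ (z ^ S.N).re := hre
      _ ≤ ‖z ^ S.N‖ := Complex.re_le_norm _
      _ = ‖z‖ ^ S.N := norm_pow _ _
  have hz1 : 1 ≤ ‖z‖ := by
    by_contra h
    push Not at h
    have : ‖z‖ ^ S.N < 1 := pow_lt_one₀ (norm_nonneg _) h S.Npos.ne'
    linarith
  have h5 : Real.exp ((S.q z).re + (z ^ S.N).re) ≤ 8 * S.N ^ 2 := by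
    have hden : 0 < (S.N : ℝ) * ‖z‖ ^ S.N := by positivity
    rw [mul_div_assoc', div_le_iff₀ hden] at h1
    have hE := Real.exp_pos ((S.q z).re + (z ^ S.N).re)
    calc Real.exp ((S.q z).re + (z ^ S.N).re)
        ≤ Real.exp ((S.q z).re + (z ^ S.N).re) * ‖z‖ := by nlinarith
      _ ≤ 4 * (S.N * ‖z‖ ^ S.N) := h1
      _ ≤ 4 * (S.N * (2 * S.N)) := by gcongr
      _ = 8 * S.N ^ 2 := by ring
  have h6 : (S.q z).re + (z ^ S.N).re ≤ Real.log (8 * S.N ^ 2) := by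
    rw [Real.le_log_iff_exp_le (by positivity)]
    exact h5
  linarith

end Setup

end Pool.Agent.MP_6cbd4a_an
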