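import Pool.Agent.MP_6cbd4a_an.Basic

/-!
# The perturbed primitive `g` with `g' = exp (q + z^N)` and the domain
`Ω = {‖z‖^N < 2N, ‖g z‖ < 1}`
-/

open Complex Metric Set Filter Topology
open scoped ComplexConjugate

namespace Pool.Agent.MP_6cbd4a_an

structure Setup where
  R0 : ℝ
  Mq : ℝ
  M2 : ℝ
  δ : ℝ
  K : ℝ
  q : ℂ → ℂ
  F : ℂ → ℂ
  g : ℂ → ℂ
  k : ℕ
  N : ℕ
  hN : N = 8 * k ^ 4
  hk : 1 ≤ k
  hR0 : 1 < R0
  hδ : 0 < δ
  hδ1 : δ ≤ 1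
  hK : 128 / δ ≤ K
  hMq : 0 ≤ Mq
  hM2 : 0 ≤ M2
  hq : DifferentiableOn ℂ q (ball 0 R0)
  hqb : ∀ z ∈ ball (0 : ℂ) R0, ‖q z‖ ≤ Mq
  hqb' : ∀ z ∈ ball (0 : ℂ) R0, ‖deriv q z‖ ≤ M2
  hF : ∀ z ∈ ball (0 : ℂ) R0, HasDerivAt F (exp (q z)) z
  hFb : ∀ z ∈ ball (0 : ℂ) R0, ‖F z‖ ≤ 1 - 2 * δ
  hg : ∀ z ∈ ball (0 : ℂ) R0, HasDerivAt g (exp (q z + z ^ N)) z
  hg0 : g 0 = F 0
  hRN : 2 * (N : ℝ) < R0 ^ N
  hclose : 2 * R0 * Real.exp (Mq + K) / k ^ 3 ≤ δ / 2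
  hJ0 : R0 * Real.exp (Mq + K) / (N * K) ≤ δ / 2
  hN2 : M2 * R0 + 1 ≤ N

lemma norm_exp_sub_one_le_quartic {w : ℂ} {K y : ℝ} (hK : 0 ≤ K) (hw : w.re ≤ K) (hy : 0 ≤ y)
    (hwy : ‖w‖ ≤ y ^ 4) : ‖exp w - 1‖ ≤ 2 * Real.exp K * y := by
  have hE : 1 ≤ Real.exp K := Real.one_le_exp hK
  rcases le_or_gt y 1 with hy1 | hy1
  · have h4 : y ^ 4 ≤ y := by
      have : y ^ 3 ≤ 1 := pow_le_one₀ hy hy1
      calc y ^ 4 = y ^ 3 * y := by ring
        _ ≤ 1 * y := by gcongr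
        _ = y := one_mul y
    have h1 : ‖w‖ ≤ 1 := hwy.trans (h4.trans hy1)
    calc ‖exp w - 1‖ ≤ 2 * ‖w‖ := norm_exp_sub_one_le h1
      _ ≤ 2 * y := by linarith
      _ ≤ 2 * Real.exp K * y := by nlinarith
  · calc ‖exp w - 1‖ ≤ ‖exp w‖ + ‖(1 : ℂ)‖ := norm_sub_le _ _
      _ ≤ Real.exp K + 1 := by
          rw [norm_exp, norm_one]
          gcongr
      _ ≤ 2 * Real.exp K := by linarith
      _ ≤ 2 * Real.exp K * y := by nlinarith

namespace Setup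

variable (S : Setup)

lemma Kpos : 128 ≤ S.K := by
  have h1 := S.hK
  have h2 : 128 ≤ 128 / S.δ := by
    rw [le_div_iff₀ S.hδ]
    nlinarith [S.hδ1]
  linarith

lemma Npos : 0 < S.N := by
  rw [S.hN]
  have := S.hk
  positivity

lemma NposR : (0 : ℝ) < S.N := by exact_mod_cast S.Npos

lemma kposR : (0 : ℝ) < S.k := by
  have := S.hk
  exact_mod_cast this

lemma N_ge_one : (1 : ℝ) ≤ S.N := by exact_mod_cast S.Npos

lemma mem_ball_of_pow {z : ℂ} (hz : ‖z‖ ^ S.N ≤ 2 * S.N) : z ∈ ball (0 : ℂ) S.R0 := by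
  rw [mem_ball_zero_iff]
  by_contra h
  push Not at h
  have h1 : S.R0 ^ S.N ≤ ‖z‖ ^ S.N := by
    apply pow_le_pow_left₀ (by linarith [S.hR0]) h
  linarith [S.hRN]

/-- (E1) -/
lemma g_sub_F {z : ℂ} {K : ℝ} (hK : 0 ≤ K) (hz : ‖z‖ ^ S.N ≤ 2 * S.N) (hre : (z ^ S.N).re ≤ K) :
    ‖S.g z - S.F z‖ ≤ 2 * S.R0 * Real.exp (S.Mq + K) / S.k ^ 3 := by
  have hzb := S.mem_ball_of_pow hz
  have hzn : ‖z‖ < S.R0 := mem_ball_zero_iff.1 hzb
  have hR0 := S.hR0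
  have hk0 := S.kposR
  set n := 2 * S.k ^ 4 with hn
  have hN4 : S.N = 4 * n := by rw [S.hN, hn]; ring
  have hseg : ∀ x : ℝ, x ∈ Icc (0 : ℝ) 1 → (x : ℂ) * z ∈ ball (0 : ℂ) S.R0 := by
    intro x hx
    rw [mem_ball_zero_iff, norm_mul, Complex.norm_real, Real.norm_of_nonneg hx.1]
    calc x * ‖z‖ ≤ 1 * ‖z‖ := by gcongr; exact hx.2
      _ < S.R0 := by rw [one_mul]; exact hzn
  set f : ℝ → ℂ := fun x => S.g (x * z) - S.F (x * z) with hf
  set f' : ℝ → ℂ := fun x => z * exp (S.q (x * z)) * (exp ((x * z) ^ S.N) - 1) with hf'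
  have hder : ∀ x ∈ Icc (0 : ℝ) 1, HasDerivAt f (f' x) x := by
    intro x hx
    have hxm := hseg x hx
    have h1 : HasDerivAt (fun x : ℝ => (x : ℂ) * z) z x := by
      simpa using (Complex.ofRealCLM.hasDerivAt (x := x)).mul_const z
    have h2 := (S.hg _ hxm).scomp x h1
    have h3 := (S.hF _ hxm).scomp x h1
    have h4 := h2.sub h3
    refine h4.congr_deriv ?_
    simp only [hf', smul_eq_mul, exp_add]
    ring
  set A : ℝ := S.R0 * Real.exp S.Mq * (2 * Real.exp K) * (2 * S.k) with hA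
  have hA0 : 0 ≤ A := by positivity
  set B : ℝ → ℝ := fun x => A * x ^ (n + 1) / (n + 1) with hB
  set B' : ℝ → ℝ := fun x => A * x ^ n with hB'
  have hBder : ∀ x : ℝ, HasDerivAt B (B' x) x := by
    intro x
    have h1 := ((hasDerivAt_pow (n + 1) x).const_mul A).div_const ((n : ℝ) + 1)
    refine h1.congr_deriv ?_
    simp only [hB', Nat.add_sub_cancel]
    push_cast
    field_simp
  have hbound : ∀ x ∈ Ico (0 : ℝ) 1, ‖f' x‖ ≤ B' x := by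
    intro x hx
    have hxI : x ∈ Icc (0 : ℝ) 1 := ⟨hx.1, hx.2.le⟩
    have hxm := hseg x hxI
    have hy : 0 ≤ 2 * (S.k : ℝ) * x ^ n := by
      have := hx.1
      positivity
    have hw : ‖((x : ℂ) * z) ^ S.N‖ ≤ (2 * (S.k : ℝ) * x ^ n) ^ 4 := by
      rw [norm_pow, norm_mul, Complex.norm_real, Real.norm_of_nonneg hx.1, mul_pow]
      calc x ^ S.N * ‖z‖ ^ S.N ≤ x ^ S.N * (2 * S.N) := by
            have := hx.1
            gcongr
        _ = (2 * (S.k : ℝ) * x ^ n) ^ 4 := by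
            have h1 : (S.N : ℝ) = 8 * (S.k : ℝ) ^ 4 := by rw [S.hN]; push_cast; ring
            rw [h1, mul_pow, mul_pow, ← pow_mul, hN4, mul_comm n 4]
            ring
    have hwre : (((x : ℂ) * z) ^ S.N).re ≤ K := by
      rw [mul_pow, ← Complex.ofReal_pow, Complex.re_ofReal_mul]
      have hx0 : 0 ≤ x ^ S.N := pow_nonneg hx.1 _
      have hx1 : x ^ S.N ≤ 1 := pow_le_one₀ hx.1 hx.2.le
      rcases le_or_gt (z ^ S.N).re 0 with h | h
      · nlinarith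
      · nlinarith
    have h1 := norm_exp_sub_one_le_quartic hK hwre hy hw
    have h2 : ‖exp (S.q (x * z))‖ ≤ Real.exp S.Mq := by
      rw [norm_exp]
      apply Real.exp_le_exp.2
      exact (Complex.re_le_norm _).trans (S.hqb _ hxm)
    simp only [hf', hB', norm_mul]
    calc ‖z‖ * ‖exp (S.q (x * z))‖ * ‖exp ((x * z) ^ S.N) - 1‖
        ≤ S.R0 * Real.exp S.Mq * (2 * Real.exp K * (2 * (S.k : ℝ) * x ^ n)) := by
          gcongr
      _ = A * x ^ n := by rw [hA]; ring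
  have hmain := image_norm_le_of_norm_deriv_right_le_deriv_boundary' (a := 0) (b := 1)
    (f := f) (f' := f') (B := B) (B' := B')
    (fun x hx => (hder x hx).continuousAt.continuousWithinAt)
    (fun x hx => (hder x ⟨hx.1, hx.2.le⟩).hasDerivWithinAt)
    (by simp [hf, hB, S.hg0])
    (fun x _ => (hBder x).continuousAt.continuousWithinAt)
    (fun x _ => (hBder x).hasDerivWithinAt) hbound (right_mem_Icc.2 zero_le_one)
  simp only [hf, hB, Complex.ofReal_one, one_mul, one_pow, mul_one] at hmain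
  refine hmain.trans ?_
  rw [hA, hn, Real.exp_add]
  push_cast
  have h5 : (0 : ℝ) < (S.k : ℝ) ^ 3 := by positivity
  rw [div_le_div_iff₀ (by positivity) h5]
  have hE : 0 < Real.exp S.Mq * Real.exp K := by positivity
  have h6 : 0 < S.R0 * (Real.exp S.Mq * Real.exp K) := by positivity
  nlinarith [mul_pos h6 h5, mul_pos h6 hk0, pow_pos hk0 4]

lemma g_bound_left {z : ℂ} (hz : ‖z‖ ^ S.N ≤ 2 * S.N) (hre : (z ^ S.N).re ≤ S.K) :
    ‖S.g z‖ ≤ 1 - 3 / 2 * S.δ := by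
  have h1 := S.g_sub_F (by linarith [S.Kpos]) hz hre
  have h2 := S.hFb z (S.mem_ball_of_pow hz)
  have h3 := S.hclose
  have h4 : ‖S.g z‖ ≤ ‖S.g z - S.F z‖ + ‖S.F z‖ := by
    have := norm_add_le (S.g z - S.F z) (S.F z)
    simpa using this
  linarith

end Setup

end Pool.Agent.MP_6cbd4a_an
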