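import Pool.Agent.MP_6cbd4a_an.Tools

/-!
# Riemann mapping theorem for bounded simply connected open sets
-/

open Complex Metric Set Filter Topology
open scoped ComplexConjugate

namespace Pool.Agent.MP_6cbd4a_an

lemma isolated {f : ℂ → ℂ} {U : Set ℂ} (hU : IsOpen U) (hpc : IsPreconnected U)
    (hf : DifferentiableOn ℂ f U) {x : ℂ} (hx : x ∈ U) (hfx : f x ≠ 0) {w : ℂ} (hw : w ∈ U) :
    ∀ᶠ z in 𝓝[≠] w, f z ≠ 0 := by
  by_contra hcon
  rw [not_eventually] at hcon
  have hfr : ∃ᶠ z in 𝓝[≠] w, f z = 0 := hcon.mono (by intro z hz; simpa using hz)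
  have := (hf.analyticOnNhd hU).eqOn_zero_of_preconnected_of_frequently_eq_zero hpc hw hfr
  exact hfx (this hx)

lemma sqrt_differentiableOn {U : Set ℂ} (hU : IsOpen U) {h k : ℂ → ℂ}
    (hh : DifferentiableOn ℂ h U) (hk : ContinuousOn k U) (hkh : ∀ z ∈ U, k z ^ 2 = h z)
    (hne : ∀ z ∈ U, h z ≠ 0) {z : ℂ} (hz : z ∈ U) :
    HasDerivAt k (deriv h z / (2 * k z)) z := by
  have hk0 : k z ≠ 0 := by
    intro h0
    apply hne z hz
    rw [← hkh z hz, h0]
    simp
  have hhd : HasDerivAt h (deriv h z) z := (hh.differentiableAt (hU.mem_nhds hz)).hasDerivAt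
  rw [hasDerivAt_iff_tendsto_slope] at hhd ⊢
  have hkc : ContinuousAt k z := hk.continuousAt (hU.mem_nhds hz)
  have hsum : Tendsto (fun u => k u + k z) (𝓝[≠] z) (𝓝 (2 * k z)) := by
    have : Tendsto (fun u => k u + k z) (𝓝[≠] z) (𝓝 (k z + k z)) :=
      (hkc.tendsto.mono_left nhdsWithin_le_nhds).add_const _
    convert this using 2
    ring
  have h2 : (2 * k z : ℂ) ≠ 0 := by simpa using hk0
  have hdiv := hhd.div hsum h2
  refine hdiv.congr' ?_
  have hU' : ∀ᶠ u in 𝓝[≠] z, u ∈ U := nhdsWithin_le_nhds (hU.mem_nhds hz)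
  have hne' : ∀ᶠ u in 𝓝[≠] z, k u + k z ≠ 0 := hsum.eventually_ne h2
  filter_upwards [hU', hne', self_mem_nhdsWithin] with u hu hu2 hu3
  have hu3' : u - z ≠ 0 := sub_ne_zero.2 hu3
  rw [Pi.div_apply, slope_def_field, slope_def_field, ← hkh u hu, ← hkh z hz]
  field_simp
  ring

/-- The family of competitors. -/
structure Comp (Ω : Set ℂ) (ψ : ℂ → ℂ) : Prop where
  diff : DifferentiableOn ℂ ψ Ω
  maps : ∀ z ∈ Ω, ‖ψ z‖ < 1
  inj : InjOn ψ Ω
  zero : ψ 0 = 0
  der : ∀ z ∈ Ω, deriv ψ z ≠ 0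

theorem exists_extremal {Ω : Set ℂ} (ho : IsOpen Ω) (hpc : IsPreconnected Ω)
    (h0 : (0 : ℂ) ∈ Ω) {R : ℝ} (hR : 0 < R) (hb : Ω ⊆ ball 0 R) :
    ∃ g : ℂ → ℂ, Comp Ω g ∧ ∀ ψ, Comp Ω ψ → ‖deriv ψ 0‖ ≤ ‖deriv g 0‖ := by
  set V : Set ℝ := {x | ∃ ψ, Comp Ω ψ ∧ x = ‖deriv ψ 0‖} with hV
  have hid : Comp Ω (fun z => z / (R : ℂ)) := by
    have hRC : (R : ℂ) ≠ 0 := by exact_mod_cast hR.ne'
    refine ⟨by fun_prop, ?_, ?_, by simp, ?_⟩
    · intro z hz
      have := mem_ball_zero_iff.1 (hb hz)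
      rw [norm_div, Complex.norm_real, Real.norm_of_nonneg hR.le, div_lt_one hR]
      exact this
    · intro x _ y _ hxy
      simp only at hxy
      field_simp at hxy
      exact hxy
    · intro z _
      have : HasDerivAt (fun z : ℂ => z / (R : ℂ)) (1 / R) z := (hasDerivAt_id z).div_const _
      rw [this.deriv]
      simpa using hRC
  have hVne : V.Nonempty := ⟨_, _, hid, rfl⟩
  obtain ⟨r, hr, hΩr⟩ := Metric.isOpen_iff.1 ho 0 h0
  have hVb : BddAbove V := by
    refine ⟨1 / (r / 2), ?_⟩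
    rintro x ⟨ψ, hψ, rfl⟩
    have hsub : closedBall (0 : ℂ) (r / 2) ⊆ Ω :=
      (closedBall_subset_ball (by linarith)).trans hΩr
    apply Complex.norm_deriv_le_of_forall_mem_sphere_norm_le (by positivity)
    · apply DifferentiableOn.diffContOnCl
      rw [closure_ball _ (by positivity)]
      exact hψ.diff.mono hsub
    · intro z hz
      exact (hψ.maps z (hsub (sphere_subset_closedBall hz))).le
  obtain ⟨u, -, hu, hum⟩ := exists_seq_tendsto_sSup hVne hVb
  choose ψ hψ huψ using hum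
  set M := sSup V with hM
  have hMle : ∀ ψ, Comp Ω ψ → ‖deriv ψ 0‖ ≤ M := fun ψ hψ => le_csSup hVb ⟨ψ, hψ, rfl⟩
  have hM0 : 0 < M := by
    have := hMle _ hid
    exact lt_of_lt_of_le (norm_pos_iff.2 (hid.der 0 h0)) this
  obtain ⟨g, hg⟩ := montel (hyperfilter ℕ) ho ψ (fun n => (hψ n).diff)
    (fun n z hz => ((hψ n).maps z hz).le)
  have hgd : DifferentiableOn ℂ g Ω :=
    hg.differentiableOn (Eventually.of_forall fun n => (hψ n).diff) ho
  have hgder := hg.deriv (Eventually.of_forall fun n => (hψ n).diff) ho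
  have hle : (hyperfilter ℕ : Filter ℕ) ≤ atTop := by
    exact Nat.hyperfilter_le_atTop
  have hder0 : ‖deriv g 0‖ = M := by
    have h1 : Tendsto (fun n => ‖deriv (ψ n) 0‖) (hyperfilter ℕ : Filter ℕ) (𝓝 ‖deriv g 0‖) :=
      (hgder.tendsto_at h0).norm
    have h2 : Tendsto (fun n => ‖deriv (ψ n) 0‖) (hyperfilter ℕ : Filter ℕ) (𝓝 M) := by
      have : (fun n => ‖deriv (ψ n) 0‖) = u := by
        funext n
        exact (huψ n).symm
      rw [this]
      exact hu.mono_left hle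
    exact tendsto_nhds_unique h1 h2
  have hdg0 : deriv g 0 ≠ 0 := by
    rw [← norm_pos_iff, hder0]; exact hM0
  have hgle : ∀ z ∈ Ω, ‖g z‖ ≤ 1 := by
    intro z hz
    exact le_of_tendsto (hg.tendsto_at hz).norm
      (Eventually.of_forall fun n => ((hψ n).maps z hz).le)
  have hg0 : g 0 = 0 := by
    have h1 := hg.tendsto_at h0
    have h2 : (fun n => ψ n 0) = fun _ => 0 := by
      funext n; exact (hψ n).zero
    rw [h2] at h1
    exact tendsto_nhds_unique h1 tendsto_const_nhds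
  have hdgd : DifferentiableOn ℂ (deriv g) Ω := hgd.deriv ho
  have hgcomp : Comp Ω g := by
    refine ⟨hgd, ?_, ?_, hg0, ?_⟩
    · intro z hz
      refine lt_of_le_of_ne (hgle z hz) ?_
      intro h1
      have hmaxon : IsMaxOn (norm ∘ g) Ω z := by
        intro u hu
        simp only [Set.mem_ofPred_eq, Function.comp_apply, h1]
        exact hgle u hu
      have := Complex.norm_eqOn_of_isPreconnected_of_isMaxOn hpc ho hgd hz hmaxon h0
      simp only [Function.comp_apply, Function.const_apply, hg0, norm_zero, h1] at this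
      norm_num at this
    · intro z₁ hz₁ z₂ hz₂ h12
      by_contra hne
      have hloc : TendstoLocallyUniformlyOn (fun n z => ψ n z - ψ n z₁) (fun z => g z - g z₁)
          (hyperfilter ℕ : Filter ℕ) Ω := by
        rw [Metric.tendstoLocallyUniformlyOn_iff] at hg ⊢
        intro ε hε z hz
        obtain ⟨t, ht, htn⟩ := hg (ε / 2) (by positivity) z hz
        have h3 : ∀ᶠ n in (hyperfilter ℕ : Filter ℕ), dist (ψ n z₁) (g z₁) < ε / 2 := by
          have := ((Metric.tendstoLocallyUniformlyOn_iff.2 hg).tendsto_at hz₁)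
          exact this.eventually (Metric.ball_mem_nhds _ (by positivity))
        refine ⟨t, ht, ?_⟩
        filter_upwards [htn, h3] with n hn hn3 y hy
        have h4 := hn y hy
        rw [dist_eq_norm] at *
        calc ‖g y - g z₁ - (ψ n y - ψ n z₁)‖ = ‖(g y - ψ n y) + (ψ n z₁ - g z₁)‖ := by
              congr 1; ring
          _ ≤ ‖g y - ψ n y‖ + ‖ψ n z₁ - g z₁‖ := norm_add_le _ _
          _ < ε := by linarith
      have hdiffg : DifferentiableOn ℂ (fun z => g z - g z₁) Ω := hgd.sub_const _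
      have hiso : ∀ᶠ z in 𝓝[≠] z₂, g z - g z₁ ≠ 0 := by
        by_contra hcon
        rw [not_eventually] at hcon
        have hfr : ∃ᶠ z in 𝓝[≠] z₂, (fun z => g z - g z₁) z = 0 :=
          hcon.mono (by intro z hz; simpa using hz)
        have heq := (hdiffg.analyticOnNhd ho).eqOn_zero_of_preconnected_of_frequently_eq_zero
          hpc hz₂ hfr
        apply hdg0
        have hev : g =ᶠ[𝓝 0] fun _ => g z₁ := by
          filter_upwards [ho.mem_nhds h0] with z hz
          have := heq hz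
          simp only [Pi.zero_apply] at this
          exact sub_eq_zero.1 this
        rw [hev.deriv_eq]
        simp
      have hd12 : 0 < dist z₁ z₂ := dist_pos.2 hne
      have hH := hurwitz ho (l := (hyperfilter ℕ : Filter ℕ))
        (Eventually.of_forall fun n => (hψ n).diff.sub_const (ψ n z₁)) hdiffg hloc hz₂
        (by rw [h12]; simp) hiso hd12
      obtain ⟨n, z, hz1, hz2, hz3⟩ := hH.exists
      have : z = z₁ := (hψ n).inj hz2 hz₁ (sub_eq_zero.1 hz3)
      rw [this] at hz1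
      exact lt_irrefl _ hz1
    · intro z hz hdz
      have hiso := isolated ho hpc hdgd h0 hdg0 hz
      have hH := hurwitz ho (l := (hyperfilter ℕ : Filter ℕ))
        (f := fun n => deriv (ψ n))
        (Eventually.of_forall fun n => (hψ n).diff.deriv ho) hdgd hgder hz hdz hiso one_pos
      obtain ⟨n, w, -, hw2, hw3⟩ := hH.exists
      exact (hψ n).der w hw2 hw3
  exact ⟨g, hgcomp, fun ψ hψ => by rw [hder0]; exact hMle ψ hψ⟩

/-- Riemann mapping theorem for bounded simply connected open sets containing `0`. -/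
theorem rmt {Ω : Set ℂ} (ho : IsOpen Ω) (hsc : IsSimplyConnected Ω)
    (h0 : (0 : ℂ) ∈ Ω) {R : ℝ} (hR : 0 < R) (hb : Ω ⊆ ball 0 R) :
    ∃ ψ φ : ℂ → ℂ, DifferentiableOn ℂ ψ Ω ∧ (∀ z ∈ Ω, ‖ψ z‖ < 1) ∧ ψ 0 = 0 ∧
      DifferentiableOn ℂ φ (ball 0 1) ∧ (∀ w ∈ ball (0 : ℂ) 1, φ w ∈ Ω) ∧
      (∀ z ∈ Ω, φ (ψ z) = z) ∧ (∀ w ∈ ball (0 : ℂ) 1, ψ (φ w) = w) ∧
      (∀ z ∈ Ω, deriv ψ z ≠ 0) ∧ ∃ c : ℝ, 0 < c ∧ deriv ψ 0 = c := by
  have hpc : IsPreconnected Ω := hsc.isPathConnected.isConnected.isPreconnected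
  obtain ⟨g, hg, hmax⟩ := exists_extremal ho hpc h0 hR hb
  -- surjectivity
  have hsurj : ∀ b ∈ ball (0 : ℂ) 1, ∃ z ∈ Ω, g z = b := by
    by_contra hcon
    push Not at hcon
    obtain ⟨b, hb1, hb2⟩ := hcon
    have hbn : ‖b‖ < 1 := mem_ball_zero_iff.1 hb1
    have hb0 : b ≠ 0 := by
      intro h
      exact hb2 0 h0 (by rw [hg.zero, h])
    set h : ℂ → ℂ := fun z => mob b (g z) with hh
    have hmapsb : MapsTo g Ω (ball 0 1) := fun z hz => mem_ball_zero_iff.2 (hg.maps z hz)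
    have hhd : DifferentiableOn ℂ h Ω := (differentiableOn_mob hbn).comp hg.diff hmapsb
    have hhne : ∀ z ∈ Ω, h z ≠ 0 := by
      intro z hz hz0
      rw [hh] at hz0
      simp only at hz0
      rw [mob_eq_zero hbn (hg.maps z hz).le] at hz0
      exact hb2 z hz hz0
    obtain ⟨k, hkc, hk2⟩ := exists_continuousOn_pow_eq hsc ho hhd.continuousOn
      (by rintro ⟨z, hz, hz0⟩; exact hhne z hz hz0) two_ne_zero
    have hkder : ∀ z ∈ Ω, HasDerivAt k (deriv h z / (2 * k z)) z := fun z hz =>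
      sqrt_differentiableOn ho hhd hkc (fun z _ => hk2 z) hhne hz
    have hkd : DifferentiableOn ℂ k Ω :=
      fun z hz => (hkder z hz).differentiableAt.differentiableWithinAt
    have hkn : ∀ z ∈ Ω, ‖k z‖ < 1 := by
      intro z hz
      have h1 : ‖k z‖ ^ 2 < 1 := by
        rw [← norm_pow, hk2]
        exact norm_mob_lt hbn (hg.maps z hz)
      nlinarith [norm_nonneg (k z)]
    have hk0 : ∀ z ∈ Ω, k z ≠ 0 := by
      intro z hz h1
      apply hhne z hz
      rw [← hk2 z, h1]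
      simp
    set c := k 0 with hc
    have hcn : ‖c‖ < 1 := hkn 0 h0
    have hc2 : ‖c‖ ^ 2 = ‖b‖ := by
      rw [← norm_pow, hc, hk2, hh]
      simp only [hg.zero, mob]
      simp
    have hcpos : 0 < ‖c‖ := norm_pos_iff.2 (hk0 0 h0)
    set G : ℂ → ℂ := fun z => mob c (k z) with hG
    have hhder : ∀ z ∈ Ω, HasDerivAt h
        ((1 - conj b * b) / (1 - conj b * g z) ^ 2 * deriv g z) z := by
      intro z hz
      exact (hasDerivAt_mob hbn (hg.maps z hz).le).comp z
        (hg.diff.differentiableAt (ho.mem_nhds hz)).hasDerivAt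
    have hGder : ∀ z ∈ Ω, HasDerivAt G
        ((1 - conj c * c) / (1 - conj c * k z) ^ 2 * (deriv h z / (2 * k z))) z := by
      intro z hz
      exact (hasDerivAt_mob hcn (hkn z hz).le).comp z (hkder z hz)
    have hnb : (1 : ℂ) - conj b * b ≠ 0 := den_ne hbn hbn.le
    have hnc : (1 : ℂ) - conj c * c ≠ 0 := den_ne hcn hcn.le
    have hGcomp : Comp Ω G := by
      refine ⟨fun z hz => (hGder z hz).differentiableAt.differentiableWithinAt, ?_, ?_, ?_, ?_⟩
      · intro z hz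
        exact norm_mob_lt hcn (hkn z hz)
      · intro z₁ hz₁ z₂ hz₂ h12
        have h1 : k z₁ = k z₂ := by
          have := congrArg (mob (-c)) h12
          simpa [hG, mob_neg_mob hcn (hkn z₁ hz₁).le, mob_neg_mob hcn (hkn z₂ hz₂).le] using this
        have h2 : h z₁ = h z₂ := by rw [← hk2, ← hk2, h1]
        have h3 : g z₁ = g z₂ := by
          have := congrArg (mob (-b)) h2
          simpa [hh, mob_neg_mob hbn (hg.maps z₁ hz₁).le, mob_neg_mob hbn (hg.maps z₂ hz₂).le]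
            using this
        exact hg.inj hz₁ hz₂ h3
      · simp [hG, ← hc]
      · intro z hz
        rw [(hGder z hz).deriv, (hhder z hz).deriv]
        apply mul_ne_zero
        · exact div_ne_zero hnc (pow_ne_zero _ (den_ne hcn (hkn z hz).le))
        · apply div_ne_zero
          · apply mul_ne_zero
            · exact div_ne_zero hnb (pow_ne_zero _ (den_ne hbn (hg.maps z hz).le))
            · exact hg.der z hz
          · exact mul_ne_zero two_ne_zero (hk0 z hz)
    have hle := hmax G hGcomp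
    rw [(hGder 0 h0).deriv, (hhder 0 h0).deriv, hg.zero, ← hc] at hle
    have hcc : (1 : ℂ) - conj c * c = ((1 - ‖c‖ ^ 2 : ℝ) : ℂ) := by
      rw [mul_comm, Complex.mul_conj, Complex.normSq_eq_norm_sq]; push_cast; ring
    have hbb : (1 : ℂ) - conj b * b = ((1 - ‖b‖ ^ 2 : ℝ) : ℂ) := by
      rw [mul_comm, Complex.mul_conj, Complex.normSq_eq_norm_sq]; push_cast; ring
    rw [hcc, hbb] at hle
    simp only [mul_zero, sub_zero, one_pow, div_one, norm_mul, norm_div, norm_pow,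
      Complex.norm_real, norm_ofNat] at hle
    have hA : 0 < 1 - ‖c‖ ^ 2 := by nlinarith
    have hB : 0 < 1 - ‖b‖ ^ 2 := by nlinarith [norm_nonneg b]
    rw [Real.norm_of_nonneg hA.le, Real.norm_of_nonneg hB.le] at hle
    have hD : 0 < ‖deriv g 0‖ := norm_pos_iff.2 (hg.der 0 h0)
    rw [← hc2] at hle hB
    set t := ‖c‖ with ht
    have hval : (1 - t ^ 2) / (1 - t ^ 2) ^ 2 * ((1 - (t ^ 2) ^ 2) * ‖deriv g 0‖ / (2 * t))
        = (1 + t ^ 2) / (2 * t) * ‖deriv g 0‖ := by
      field_simp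
      ring
    rw [hval] at hle
    have h1 : 1 < (1 + t ^ 2) / (2 * t) := by
      rw [one_lt_div (by positivity)]
      nlinarith [mul_pos (sub_pos.2 hcn) (sub_pos.2 hcn)]
    nlinarith
  -- normalisation
  set d := deriv g 0 with hd
  have hd0 : d ≠ 0 := hg.der 0 h0
  have hdn : 0 < ‖d‖ := norm_pos_iff.2 hd0
  set u : ℂ := conj d / (‖d‖ : ℂ) with hu
  have hun : ‖u‖ = 1 := by
    rw [hu, norm_div, RCLike.norm_conj, Complex.norm_real, norm_norm, div_self hdn.ne']
  have hu0 : u ≠ 0 := by rw [← norm_pos_iff, hun]; exact one_pos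
  set ψ : ℂ → ℂ := fun z => u * g z with hψ
  have hψder : ∀ z ∈ Ω, HasDerivAt ψ (u * deriv g z) z := fun z hz =>
    ((hg.diff.differentiableAt (ho.mem_nhds hz)).hasDerivAt).const_mul u
  have hψd : DifferentiableOn ℂ ψ Ω :=
    fun z hz => (hψder z hz).differentiableAt.differentiableWithinAt
  have hψn : ∀ z ∈ Ω, ‖ψ z‖ < 1 := by
    intro z hz
    rw [hψ]
    simp only [norm_mul, hun, one_mul]
    exact hg.maps z hz
  have hψinj : InjOn ψ Ω := by
    intro z₁ hz₁ z₂ hz₂ h12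
    exact hg.inj hz₁ hz₂ (mul_left_cancel₀ hu0 h12)
  have hψsurj : ∀ w ∈ ball (0 : ℂ) 1, ∃ z ∈ Ω, ψ z = w := by
    intro w hw
    obtain ⟨z, hz, hzw⟩ := hsurj (u⁻¹ * w) (by
      rw [mem_ball_zero_iff] at hw ⊢
      rw [norm_mul, norm_inv, hun, inv_one, one_mul]
      exact hw)
    refine ⟨z, hz, ?_⟩
    rw [hψ]
    simp only [hzw]
    field_simp
  choose! φ hφ1 hφ2 using hψsurj
  have hψφ : ∀ z ∈ Ω, φ (ψ z) = z := by
    intro z hz
    have hm : ψ z ∈ ball (0 : ℂ) 1 := mem_ball_zero_iff.2 (hψn z hz)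
    exact hψinj (hφ1 _ hm) hz (hφ2 _ hm)
  have hψne : ∀ z ∈ Ω, deriv ψ z ≠ 0 := by
    intro z hz
    rw [(hψder z hz).deriv]
    exact mul_ne_zero hu0 (hg.der z hz)
  refine ⟨ψ, φ, hψd, hψn, by simp [hψ, hg.zero], ?_, hφ1, hψφ, hφ2, hψne, ‖d‖, hdn, ?_⟩
  · intro w hw
    apply DifferentiableAt.differentiableWithinAt
    have hstrict : HasStrictDerivAt ψ (deriv ψ (φ w)) (φ w) := by
      have : AnalyticAt ℂ ψ (φ w) := hψd.analyticAt (ho.mem_nhds (hφ1 w hw))
      exact this.hasStrictDerivAt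
    have hcont : ContinuousAt φ w := by
      intro s hs
      have h1 : s ∩ Ω ∈ 𝓝 (φ w) := inter_mem hs (ho.mem_nhds (hφ1 w hw))
      have h2 := hstrict.map_nhds_eq (hψne _ (hφ1 w hw))
      rw [hφ2 w hw] at h2
      rw [← h2] at *
      rw [mem_map, mem_map]
      filter_upwards [h1] with z hz
      show φ (ψ z) ∈ s
      rw [hψφ z hz.2]
      exact hz.1
    apply HasDerivAt.differentiableAt
    apply HasDerivAt.of_local_left_inverse (f := ψ) (f' := deriv ψ (φ w)) hcont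
      hstrict.hasDerivAt (hψne _ (hφ1 w hw))
    filter_upwards [isOpen_ball.mem_nhds hw] with y hy
    exact hφ2 y hy
  · rw [(hψder 0 h0).deriv, ← hd, hu]
    have : (‖d‖ : ℂ) ≠ 0 := by exact_mod_cast hdn.ne'
    field_simp
    rw [mul_comm, Complex.mul_conj, Complex.normSq_eq_norm_sq]
    push_cast
    ring

end Pool.Agent.MP_6cbd4a_an
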