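import Pool.Agent.MP_6cbd4a_an.Loss4
import Pool.Agent.MP_6cbd4a_an.RMT

/-!
# The function `g ∘ φ` and its defect
-/

open Complex Metric Set Filter Topology
open scoped ComplexConjugate Real

namespace Pool.Agent.MP_6cbd4a_an

/-- Riemann map data -/
structure RM (Ω : Set ℂ) (ψ φ : ℂ → ℂ) : Prop where
  ψd : DifferentiableOn ℂ ψ Ω
  ψm : ∀ z ∈ Ω, ‖ψ z‖ < 1
  ψ0 : ψ 0 = 0
  φd : DifferentiableOn ℂ φ (ball 0 1)
  φm : ∀ w ∈ ball (0 : ℂ) 1, φ w ∈ Ω
  φψ : ∀ z ∈ Ω, φ (ψ z) = z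
  ψφ : ∀ w ∈ ball (0 : ℂ) 1, ψ (φ w) = w
  pos : ∃ c : ℝ, 0 < c ∧ deriv ψ 0 = c

lemma RM.derφ {Ω : Set ℂ} (hΩ : IsOpen Ω) {ψ φ : ℂ → ℂ} (h : RM Ω ψ φ) {w : ℂ}
    (hw : w ∈ ball (0 : ℂ) 1) : deriv ψ (φ w) * deriv φ w = 1 := by
  have h1 : HasDerivAt φ (deriv φ w) w :=
    (h.φd.differentiableAt (isOpen_ball.mem_nhds hw)).hasDerivAt
  have h2 : HasDerivAt ψ (deriv ψ (φ w)) (φ w) :=
    (h.ψd.differentiableAt (hΩ.mem_nhds (h.φm w hw))).hasDerivAt
  have h3 := h2.comp w h1
  have h4 : (ψ ∘ φ) =ᶠ[𝓝 w] id := by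
    filter_upwards [isOpen_ball.mem_nhds hw] with u hu
    exact h.ψφ u hu
  exact (h3.congr_of_eventuallyEq h4.symm).unique (hasDerivAt_id w)

namespace Setup

variable (S : Setup)

lemma exists_RM : ∃ ψ φ : ℂ → ℂ, RM S.Om ψ φ := by
  obtain ⟨ψ, φ, h1, h2, h3, h4, h5, h6, h7, _, h9⟩ := rmt S.isOpen_Om S.isSimplyConnected_Om
    S.zero_mem_Om (R := S.R0) (by linarith [S.hR0]) S.Om_sub_ball
  exact ⟨ψ, φ, h1, h2, h3, h4, h5, h6, h7, h9⟩

lemma g_ne_near {z : ℂ} (hz : z ∈ ball (0 : ℂ) S.R0) : ∀ᶠ u in 𝓝[≠] z, S.g u ≠ S.g z :=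
  (S.hg z hz).eventually_ne (exp_ne_zero _)

lemma zeros_finite (a : ℂ) : {z ∈ S.Om | S.g z = a}.Finite := by
  by_contra hinf
  have hinf' : {z ∈ S.Om | S.g z = a}.Infinite := hinf
  set Kc : Set ℂ := {z | ‖z‖ ^ S.N ≤ 2 * S.N} with hKc
  have hKball : Kc ⊆ ball 0 S.R0 := fun z hz => S.mem_ball_of_pow hz
  have hKcc : IsCompact Kc := by
    apply (isCompact_closedBall (0 : ℂ) S.R0).of_isClosed_subset
    · exact isClosed_le (continuous_norm.pow _) continuous_const
    · exact hKball.trans ball_subset_closedBall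
  obtain ⟨x, hx, hacc⟩ := hinf'.exists_accPt_of_subset_isCompact hKcc (fun z hz => hz.1.1.le)
  have hfr : ∃ᶠ y in 𝓝[≠] x, y ∈ {z ∈ S.Om | S.g z = a} := accPt_iff_frequently_nhdsNE.1 hacc
  have hgc : ContinuousAt S.g x := (S.hg x (hKball hx)).continuousAt
  have hgx : S.g x = a := by
    by_contra hne
    have h1 : ∀ᶠ y in 𝓝 x, S.g y ≠ a := hgc.eventually_ne hne
    have h2 : ∀ᶠ y in 𝓝[≠] x, S.g y ≠ a := h1.filter_mono nhdsWithin_le_nhds
    obtain ⟨y, hy1, hy2⟩ := (hfr.and_eventually h2).exists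
    exact hy2 hy1.2
  obtain ⟨y, hy1, hy2⟩ := (hfr.and_eventually (S.g_ne_near (hKball hx))).exists
  exact hy2 (by rw [hy1.2, hgx])

end Setup

variable {S : Setup} {ψ φ : ℂ → ℂ}

lemma hasDerivAt_gφ (h : RM S.Om ψ φ) {w : ℂ} (hw : w ∈ ball (0 : ℂ) 1) :
    HasDerivAt (fun w => S.g (φ w)) (exp (S.q (φ w) + φ w ^ S.N) * deriv φ w) w := by
  have h1 : HasDerivAt φ (deriv φ w) w :=
    (h.φd.differentiableAt (isOpen_ball.mem_nhds hw)).hasDerivAt
  exact (S.hg _ (S.Om_sub_ball (h.φm w hw))).comp w h1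

lemma gφ_adm (h : RM S.Om ψ φ) : Adm fun w => S.g (φ w) where
  diff := fun w hw => (hasDerivAt_gφ h hw).differentiableAt.differentiableWithinAt
  maps := fun w hw => (h.φm w hw).2
  der := fun w hw => by
    rw [(hasDerivAt_gφ h hw).deriv]
    have := h.derφ S.isOpen_Om hw
    exact mul_ne_zero (exp_ne_zero _) (right_ne_zero_of_mul (by rw [this]; exact one_ne_zero))

/-- Zero-free quotient. -/
lemma exists_quot (h : RM S.Om ψ φ) {a : ℂ} (ha : ‖a‖ < 1) :
    ∃ (Z : Finset ℂ) (L : ℂ → ℂ), (∀ w ∈ Z, ‖w‖ < 1) ∧ DifferentiableOn ℂ L (ball 0 1) ∧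
      (∀ z ∈ ball (0 : ℂ) 1, (L z).re ≤ 0) ∧
      ∀ z ∈ ball (0 : ℂ) 1, mob a (S.g (φ z)) = (∏ w ∈ Z, mob w z) * exp (L z) := by
  classical
  have hadm := gφ_adm h
  set Z : Finset ℂ := (S.zeros_finite a).toFinset.image ψ with hZ
  have hZ1 : ∀ w ∈ Z, ‖w‖ < 1 ∧ S.g (φ w) = a := by
    intro w hw
    rw [hZ, Finset.mem_image] at hw
    obtain ⟨z, hz, rfl⟩ := hw
    rw [Set.Finite.mem_toFinset] at hz
    exact ⟨h.ψm z hz.1, by rw [h.φψ z hz.1]; exact hz.2⟩
  have hZ2 : ∀ w ∈ ball (0 : ℂ) 1, S.g (φ w) = a → w ∈ Z := by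
    intro w hw hgw
    rw [hZ, Finset.mem_image]
    exact ⟨φ w, by rw [Set.Finite.mem_toFinset]; exact ⟨h.φm w hw, hgw⟩, h.ψφ w hw⟩
  set m : ℂ → ℂ := fun w => mob a (S.g (φ w)) with hm
  have hmd : ∀ w ∈ ball (0 : ℂ) 1, DifferentiableAt ℂ m w := by
    intro w hw
    exact (differentiableAt_mob ha (hadm.maps w hw).le).comp w
      (hasDerivAt_gφ h hw).differentiableAt
  obtain ⟨k, hk1, hk2, hk3⟩ := exists_div_finset (h := m)
    (fun w hw => (hmd w hw).differentiableWithinAt)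
    (fun w hw => norm_mob_le ha (hadm.maps w hw).le) Z (fun w hw => (hZ1 w hw).1)
    (fun w hw => by simp only [hm]; rw [(hZ1 w hw).2, mob_self])
  have hkne : ∀ w ∈ ball (0 : ℂ) 1, k w ≠ 0 := by
    intro w hw hkw
    have hw1 : ‖w‖ < 1 := mem_ball_zero_iff.1 hw
    have h1 := hk3 w hw
    rw [hkw, mul_zero] at h1
    have h2 : S.g (φ w) = a := by
      rwa [hm, mob_eq_zero ha (hadm.maps w hw).le] at h1
    have h3 := hZ2 w hw h2
    -- derivative
    have hkd : HasDerivAt k (deriv k w) w :=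
      (hk1.differentiableAt (isOpen_ball.mem_nhds hw)).hasDerivAt
    have hPd : DifferentiableAt ℂ (fun z => ∏ v ∈ Z, mob v z) w := by
      apply DifferentiableAt.fun_finsetProd
      intro v hv
      exact differentiableAt_mob (hZ1 v hv).1 hw1.le
    have h4 := hPd.hasDerivAt.mul hkd
    have hP0 : ∏ v ∈ Z, mob v w = 0 := Finset.prod_eq_zero h3 (mob_self w)
    rw [hkw, hP0, mul_zero, zero_mul, add_zero] at h4
    have h5 : HasDerivAt m 0 w := by
      apply h4.congr_of_eventuallyEq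
      filter_upwards [isOpen_ball.mem_nhds hw] with u hu
      exact hk3 u hu
    have h6 := (hasDerivAt_mob ha (hadm.maps w hw).le).comp w
      (hadm.diff.differentiableAt (isOpen_ball.mem_nhds hw)).hasDerivAt
    have h7 := h6.unique h5
    rw [mul_eq_zero] at h7
    rcases h7 with h8 | h8
    · rw [div_eq_zero_iff] at h8
      rcases h8 with h9 | h9
      · have h10 : ‖a‖ ^ 2 < 1 := by
          have := norm_nonneg a
          nlinarith
        have h11 : conj a * a = 1 := (sub_eq_zero.1 h9).symm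
        rw [Complex.conj_mul'] at h11
        have h12 : ‖a‖ ^ 2 = 1 := by exact_mod_cast h11
        linarith
      · exact den_ne ha (hadm.maps w hw).le (by simpa using h9)
    · exact hadm.der w hw h8
  obtain ⟨L, hL1, hL2⟩ := exists_log one_pos hk1 hkne
  refine ⟨Z, L, fun w hw => (hZ1 w hw).1, hL1, ?_, ?_⟩
  · intro z hz
    have h1 := hk2 z hz
    rw [hL2 z hz, norm_exp] at h1
    rwa [← Real.exp_zero, Real.exp_le_exp] at h1
  · intro z hz
    rw [← hL2 z hz, ← hk3 z hz]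

theorem good_gφ (h : RM S.Om ψ φ) {a : ℂ} (ha : ‖a‖ < 1) {ε : ℝ}
    (h1 : Lc S.Mq S.K ≤ S.k) (h2 : 2 ≤ tauc S.R0 S.Mq S.M2 * S.N)
    (h3 : C2c S.R0 S.Mq S.M2 S.K * √(Lc S.Mq S.K / (2 * S.k)) < ε) :
    Good (fun w => S.g (φ w)) a ε := by
  classical
  obtain ⟨Z, L, hZ, hL, hLre, hfac⟩ := exists_quot h ha
  set s : ℂ → ℝ := fun z => if z ∈ S.Om then -(L (ψ z)).re else 0 with hs
  have hsin : ∀ z ∈ S.Om, s z = -(L (ψ z)).re := fun z hz => by rw [hs]; simp only [if_pos hz]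
  have hsout : ∀ z, z ∉ S.Om → s z = 0 := fun z hz => by rw [hs]; simp only [if_neg hz]
  have hψb : ∀ z ∈ S.Om, ψ z ∈ ball (0 : ℂ) 1 := fun z hz => mem_ball_zero_iff.2 (h.ψm z hz)
  have hLψ : DifferentiableOn ℂ (fun z => L (ψ z)) S.Om := hL.comp h.ψd hψb
  have hsn : ∀ z, 0 ≤ s z := by
    intro z
    by_cases hz : z ∈ S.Om
    · rw [hsin z hz]
      linarith [hLre _ (hψb z hz)]
    · rw [hsout z hz]
  -- key lower bound
  have hkey : ∀ z ∈ S.Om, ‖mob a (S.g z)‖ ≤ Real.exp (-(s z)) := by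
    intro z hz
    have h4 := hfac (ψ z) (hψb z hz)
    rw [h.φψ z hz] at h4
    rw [h4, norm_mul, hsin z hz, neg_neg, norm_exp]
    have h5 : ‖∏ w ∈ Z, mob w (ψ z)‖ ≤ 1 := by
      rw [norm_prod]
      exact Finset.prod_le_one (fun w _ => norm_nonneg _)
        (fun w hw => norm_mob_le (hZ w hw) (h.ψm z hz).le)
    calc _ ≤ 1 * Real.exp (L (ψ z)).re := by gcongr
      _ = _ := one_mul _
  have hopen : IsOpen {z : ℂ | ‖z‖ ^ S.N < 2 * S.N} :=
    isOpen_lt (continuous_norm.pow _) continuous_const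
  have hpot : Pot S a s := by
    refine ⟨hsn, hsout, ?_, ?_, ?_⟩
    · intro z hz
      exact (le_norm_mob ha hz.2.le).trans (hkey z hz)
    · intro z hz
      apply ContinuousAt.continuousWithinAt
      by_cases hzO : z ∈ S.Om
      · have h6 : ContinuousAt (fun z => -(L (ψ z)).re) z :=
          (Complex.continuous_re.continuousAt.comp
            ((hLψ.differentiableAt (S.isOpen_Om.mem_nhds hzO)).continuousAt)).neg
        apply h6.congr
        filter_upwards [S.isOpen_Om.mem_nhds hzO] with u hu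
        exact (hsin u hu).symm
      · have hzb := S.mem_ball_of_pow (le_of_lt hz)
        have hgc : ContinuousAt S.g z := (S.hg z hzb).continuousAt
        have hg1 : 1 ≤ ‖S.g z‖ := by
          by_contra hcon
          push Not at hcon
          exact hzO ⟨hz, hcon⟩
        rw [ContinuousAt, hsout z hzO]
        rcases lt_or_eq_of_le hg1 with hgt | heq
        · have h7 : ∀ᶠ u in 𝓝 z, 1 < ‖S.g u‖ :=
            (continuousAt_const.eventually_lt hgc.norm hgt)
          apply tendsto_const_nhds.congr'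
          filter_upwards [h7] with u hu
          exact (hsout u (fun hO => by linarith [hO.2])).symm
        · have h8 : ContinuousAt (fun u => mob a (S.g u)) z :=
            (continuousAt_mob ha heq.symm.le).comp hgc
          have h9 : ‖mob a (S.g z)‖ = 1 := norm_mob_eq ha heq.symm
          have h10 : Tendsto (fun u => |Real.log ‖mob a (S.g u)‖|) (𝓝 z) (𝓝 0) := by
            have h11 : ContinuousAt (fun u => Real.log ‖mob a (S.g u)‖) z :=
              h8.norm.log (by rw [h9]; exact one_ne_zero)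
            have h12 := h11.abs
            rw [ContinuousAt, h9, Real.log_one, abs_zero] at h12
            exact h12
          have h13 : ∀ᶠ u in 𝓝 z, mob a (S.g u) ≠ 0 := by
            apply h8.eventually_ne
            intro h0
            rw [h0, norm_zero] at h9
            exact zero_ne_one h9
          apply squeeze_zero' (Eventually.of_forall hsn) ?_ h10
          filter_upwards [h13] with u hu
          by_cases huO : u ∈ S.Om
          · have h14 := hkey u huO
            have h15 : Real.log ‖mob a (S.g u)‖ ≤ -(s u) := by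
              rw [Real.log_le_iff_le_exp (norm_pos_iff.2 hu)]
              exact h14
            have := neg_le_abs (Real.log ‖mob a (S.g u)‖)
            linarith
          · rw [hsout u huO]
            exact abs_nonneg _
    · intro z hz
      by_cases hzO : z ∈ S.Om
      · obtain ⟨r, hr, hrs⟩ := Metric.isOpen_iff.1 S.isOpen_Om z hzO
        refine ⟨fun z => -(L (ψ z)), r, hr, fun u hu => (hrs hu).1, (hLψ.mono hrs).neg, ?_, ?_⟩
        · simp only [Complex.neg_re]
          exact (hsin z hzO).symm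
        · intro u hu
          simp only [Complex.neg_re]
          exact (hsin u (hrs hu)).symm.le
      · obtain ⟨r, hr, hrs⟩ := Metric.isOpen_iff.1 hopen z hz
        refine ⟨fun _ => 0, r, hr, hrs, differentiableOn_const _, ?_, ?_⟩
        · rw [hsout z hzO]; simp
        · intro u _
          simpa using hsn u
  have hmain := hpot.main h1 h2
  refine ⟨Z, fun z => exp (L z), hZ, hL.cexp, ?_, hfac, ?_⟩
  · intro z hz
    rw [norm_exp, ← Real.exp_zero]
    exact Real.exp_le_exp.2 (hLre z hz)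
  · have h4 : s 0 = -(L 0).re := by rw [hsin 0 S.zero_mem_Om, h.ψ0]
    rw [norm_exp]
    have h5 := Real.add_one_le_exp (L 0).re
    linarith

end Pool.Agent.MP_6cbd4a_an
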