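import Pool.Agent.MP_6cbd4a_an.Seq
import Pool.Agent.MP_6cbd4a_an.Approx

/-!
# The limit function
-/

open Complex Metric Set Filter Topology
open scoped ComplexConjugate Real

namespace Pool.Agent.MP_6cbd4a_an

/-- the starting function -/
noncomputable def start (z : ℂ) : ℂ := exp (4 * z - 5)

lemma hasDerivAt_start (z : ℂ) : HasDerivAt start (exp (4 * z - 5) * 4) z := by
  have h1 : HasDerivAt (fun z : ℂ => 4 * z - 5) 4 z := by
    have := ((hasDerivAt_id' z).const_mul (4 : ℂ)).sub_const 5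
    rwa [mul_one] at this
  exact h1.cexp

lemma norm_start (z : ℂ) : ‖start z‖ = Real.exp (4 * z.re - 5) := by
  rw [start, norm_exp]
  simp

lemma start_adm : Adm start where
  diff := fun z _ => (hasDerivAt_start z).differentiableAt.differentiableWithinAt
  maps := fun z hz => by
    rw [norm_start]
    have h1 := Complex.re_le_norm z
    have h2 := mem_ball_zero_iff.1 hz
    rw [← Real.exp_zero]
    exact Real.exp_lt_exp.2 (by linarith)
  der := fun z _ => by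
    rw [(hasDerivAt_start z).deriv]
    exact mul_ne_zero (exp_ne_zero _) (by norm_num)

lemma start_open : ∃ d0 : ℝ, 0 < d0 ∧ ∀ g : ℂ → ℂ, DifferentiableOn ℂ g (ball 0 1) →
    (∀ z : ℂ, ‖z‖ ≤ 9 / 10 → ‖g z - start z‖ ≤ d0) →
    (∃ z₁ ∈ ball (0 : ℂ) 1, ∃ z₂ ∈ ball (0 : ℂ) 1, z₁ ≠ z₂ ∧ g z₁ = g z₂) ∧ g 0 ≠ g (1 / 2) := by
  classical
  by_contra hcon
  push Not at hcon
  have hseq : ∀ n : ℕ, ∃ g : ℂ → ℂ, DifferentiableOn ℂ g (ball 0 1) ∧
      (∀ z : ℂ, ‖z‖ ≤ 9 / 10 → ‖g z - start z‖ ≤ 1 / ((n : ℝ) + 1)) ∧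
      ((∃ z₁ ∈ ball (0 : ℂ) 1, ∃ z₂ ∈ ball (0 : ℂ) 1, z₁ ≠ z₂ ∧ g z₁ = g z₂) → g 0 = g (1 / 2)) := by
    intro n
    obtain ⟨g, h1, h2, h3⟩ := hcon (1 / ((n : ℝ) + 1)) (by positivity)
    refine ⟨g, h1, h2, ?_⟩
    rintro ⟨z₁, hz₁, z₂, hz₂, h4, h5⟩
    exact h3 ⟨z₁, hz₁, z₂, hz₂, h4, h5⟩
  choose g hg1 hg2 hg3 using hseq
  set U : Set ℂ := ball 0 (9 / 10) with hU
  have hUsub : U ⊆ ball 0 1 := ball_subset_ball (by norm_num)
  have hunif : TendstoUniformlyOn g start atTop U := by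
    rw [Metric.tendstoUniformlyOn_iff]
    intro t ht
    have h1 : ∀ᶠ n : ℕ in atTop, 1 / ((n : ℝ) + 1) < t :=
      tendsto_one_div_add_atTop_nhds_zero_nat.eventually (gt_mem_nhds ht)
    filter_upwards [h1] with n hn z hz
    rw [dist_comm, dist_eq_norm]
    exact lt_of_le_of_lt (hg2 n z (mem_ball_zero_iff.1 hz).le) hn
  have hpi : π < 3.15 := Real.pi_lt_d2
  have hpi3 : 3 < π := Real.pi_gt_three
  set z1 : ℂ := ((π / 4 : ℝ) : ℂ) * I with hz1
  set z2 : ℂ := -z1 with hz2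
  have hnz1 : ‖z1‖ = π / 4 := by
    rw [hz1, norm_mul, Complex.norm_real, norm_I, mul_one, Real.norm_of_nonneg (by positivity)]
  have hz1U : z1 ∈ U := by rw [hU, mem_ball_zero_iff, hnz1]; linarith
  have hz2U : z2 ∈ U := by rw [hU, mem_ball_zero_iff, hz2, norm_neg, hnz1]; linarith
  have hper : start z1 = start z2 := by
    rw [start, start, Complex.exp_eq_exp_iff_exists_int]
    refine ⟨1, ?_⟩
    rw [hz2, hz1]
    push_cast
    ring
  have hsub : TendstoLocallyUniformlyOn (fun n z => g n z - g n z2)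
      (fun z => start z - start z2) atTop U := by
    apply hunif.tendstoLocallyUniformlyOn.fun_sub
    apply TendstoUniformlyOn.tendstoLocallyUniformlyOn
    exact (hunif.tendsto_at hz2U).tendstoUniformlyOn_const _
  have h1 := hurwitz (l := atTop) (U := U) isOpen_ball (f := fun n z => g n z - g n z2)
    (g := fun z => start z - start z2)
    (Eventually.of_forall fun n => ((hg1 n).mono hUsub).sub (differentiableOn_const _))
    ((start_adm.diff.mono hUsub).sub (differentiableOn_const _)) hsub hz1U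
    (by simp [hper]) (by
      filter_upwards [start_adm.eventually_ne (hUsub hz1U) (start z2)] with z hz
      exact sub_ne_zero.2 hz) (t := 1 / 2) (by norm_num)
  have h2 : ∀ᶠ n in atTop, g n 0 ≠ g n (1 / 2) := by
    have e0 : (0 : ℂ) ∈ U := mem_ball_self (by norm_num)
    have e1 : (1 / 2 : ℂ) ∈ U := by
      rw [hU, mem_ball_zero_iff]; norm_num
    have e2 := (hunif.tendsto_at e0).sub (hunif.tendsto_at e1)
    have e3 : start 0 - start (1 / 2) ≠ 0 := by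
      rw [sub_ne_zero]
      intro h
      have h3 : ‖start 0‖ = ‖start (1 / 2)‖ := by rw [h]
      rw [norm_start, norm_start, Real.exp_eq_exp] at h3
      norm_num at h3
    filter_upwards [e2.eventually_ne e3] with n hn
    exact sub_ne_zero.1 hn
  obtain ⟨n, ⟨z, hz1', hz2', hz3'⟩, hn2⟩ := (h1.and h2).exists
  apply hn2
  apply hg3 n
  refine ⟨z, hUsub hz2', z2, hUsub hz2U, ?_, sub_eq_zero.1 hz3'⟩
  intro heq
  rw [heq, hz2, dist_eq_norm] at hz1'
  have h4 : -z1 - z1 = -(2 * z1) := by ring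
  rw [h4, norm_neg, norm_mul, hnz1] at hz1'
  norm_num at hz1'
  linarith

structure State where
  f : ℂ → ℂ
  r : ℝ
  d : ℝ
  hf : Adm f
  hr : r < 1
  hd : 0 < d

lemma step (n : ℕ) (s : State) : ∃ s' : State, (∀ z : ℂ, ‖z‖ ≤ s.r → ‖s'.f z - s.f z‖ ≤ s.d / 2) ∧
    s.r ≤ s'.r ∧ 1 - 1 / ((n : ℝ) + 2) ≤ s'.r ∧ s'.d ≤ s.d / 2 ∧
    ∀ g : ℂ → ℂ, DifferentiableOn ℂ g (ball 0 1) → (∀ z ∈ ball (0 : ℂ) 1, ‖g z‖ < 1) →
      (∀ z : ℂ, ‖z‖ ≤ s'.r → ‖g z - s'.f z‖ ≤ s'.d) →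
      ∀ a : ℂ, ‖a‖ ≤ 1 - 1 / ((n : ℝ) + 2) → Good g a (1 / ((n : ℝ) + 1)) := by
  have hn2 : (0 : ℝ) < 1 / ((n : ℝ) + 2) := by positivity
  obtain ⟨f', hf', hclose, hgood⟩ := approx s.hf s.hr (half_pos s.hd)
    (ε := 1 / ((n : ℝ) + 1)) (by positivity)
  obtain ⟨r', δ', hr', hδ', hop⟩ := good_open hf' (R := 1 - 1 / ((n : ℝ) + 2))
    (ε := 1 / ((n : ℝ) + 1)) (by linarith) (fun a ha => hgood a (by linarith))
  refine ⟨⟨f', max r' (max s.r (1 - 1 / ((n : ℝ) + 2))), min δ' (s.d / 2), hf',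
    max_lt hr' (max_lt s.hr (by linarith)), lt_min hδ' (half_pos s.hd)⟩, ?_, ?_, ?_, ?_, ?_⟩
  · exact fun z hz => (hclose z hz).le
  · exact (le_max_left _ _).trans (le_max_right _ _)
  · exact (le_max_right _ _).trans (le_max_right _ _)
  · exact min_le_right _ _
  · intro g hg1 hg2 hg3 a ha
    exact hop g hg1 hg2 (fun z hz => (hg3 z (hz.trans (le_max_left _ _))).trans (min_le_left _ _))
      a ha

lemma Good.mono {f : ℂ → ℂ} {a : ℂ} {ε ε' : ℝ} (h : Good f a ε) (hε : ε ≤ ε') : Good f a ε' := by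
  obtain ⟨S, k, h1, h2, h3, h4, h5⟩ := h
  exact ⟨S, k, h1, h2, h3, h4, by linarith⟩

theorem exists_limit : ∃ f : ℂ → ℂ, Adm f ∧
    (∃ z₁ ∈ ball (0 : ℂ) 1, ∃ z₂ ∈ ball (0 : ℂ) 1, z₁ ≠ z₂ ∧ f z₁ = f z₂) ∧
    ∀ a : ℂ, ‖a‖ < 1 → ∀ ε : ℝ, 0 < ε → Good f a ε := by
  classical
  obtain ⟨d0, hd0, hstart⟩ := start_open
  choose nx hnx using step
  let s0 : State := ⟨start, 9 / 10, d0, start_adm, by norm_num, hd0⟩
  let σ : ℕ → State := fun n => Nat.rec s0 (fun n s => nx n s) n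
  have hσ0 : σ 0 = s0 := rfl
  have hσ : ∀ n, σ (n + 1) = nx n (σ n) := fun n => rfl
  have hprop : ∀ n, (∀ z : ℂ, ‖z‖ ≤ (σ n).r → ‖(σ (n + 1)).f z - (σ n).f z‖ ≤ (σ n).d / 2) ∧
      (σ n).r ≤ (σ (n + 1)).r ∧ 1 - 1 / ((n : ℝ) + 2) ≤ (σ (n + 1)).r ∧
      (σ (n + 1)).d ≤ (σ n).d / 2 ∧
      ∀ g : ℂ → ℂ, DifferentiableOn ℂ g (ball 0 1) → (∀ z ∈ ball (0 : ℂ) 1, ‖g z‖ < 1) →
        (∀ z : ℂ, ‖z‖ ≤ (σ (n + 1)).r → ‖g z - (σ (n + 1)).f z‖ ≤ (σ (n + 1)).d) →
        ∀ a : ℂ, ‖a‖ ≤ 1 - 1 / ((n : ℝ) + 2) → Good g a (1 / ((n : ℝ) + 1)) := by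
    intro n
    rw [hσ n]
    exact hnx n (σ n)
  have hrmono : Monotone fun n => (σ n).r := monotone_nat_of_le_succ fun n => (hprop n).2.1
  -- telescoping
  have htel : ∀ n j : ℕ, ∀ z : ℂ, ‖z‖ ≤ (σ n).r →
      ‖(σ (n + j)).f z - (σ n).f z‖ ≤ (σ n).d - (σ (n + j)).d := by
    intro n j z hz
    induction j with
    | zero => simp
    | succ j ih =>
      have h1 := (hprop (n + j)).1 z (hz.trans (hrmono (Nat.le_add_right n j)))
      have h2 := (hprop (n + j)).2.2.2.1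
      have h3 : ‖(σ (n + (j + 1))).f z - (σ n).f z‖
          ≤ ‖(σ (n + j + 1)).f z - (σ (n + j)).f z‖ + ‖(σ (n + j)).f z - (σ n).f z‖ := by
        have : (σ (n + (j + 1))).f z - (σ n).f z
          = ((σ (n + j + 1)).f z - (σ (n + j)).f z) + ((σ (n + j)).f z - (σ n).f z) := by
          rw [← add_assoc]; ring
        rw [this]
        exact norm_add_le _ _
      have h4 : (σ (n + (j + 1))).d = (σ (n + j + 1)).d := by rw [← add_assoc]
      rw [h4]
      have h5 := (σ (n + j)).hd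
      linarith
  -- d n → 0
  have hdle : ∀ n, (σ n).d ≤ d0 * (1 / 2) ^ n := by
    intro n
    induction n with
    | zero => simp [hσ0, s0]
    | succ n ih =>
      have h1 := (hprop n).2.2.2.1
      rw [pow_succ]
      linarith
  have hd_tend : Tendsto (fun n => (σ n).d) atTop (𝓝 0) := by
    have h1 : Tendsto (fun n : ℕ => d0 * (1 / 2 : ℝ) ^ n) atTop (𝓝 (d0 * 0)) :=
      (tendsto_pow_atTop_nhds_zero_of_lt_one (by norm_num) (by norm_num)).const_mul _
    rw [mul_zero] at h1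
    exact squeeze_zero (fun n => (σ n).hd.le) hdle h1
  have hr_ev : ∀ c : ℝ, c < 1 → ∀ᶠ n in atTop, c ≤ (σ n).r := by
    intro c hc
    have h1 : ∀ᶠ n : ℕ in atTop, 1 / ((n : ℝ) + 1) < 1 - c :=
      tendsto_one_div_add_atTop_nhds_zero_nat.eventually (gt_mem_nhds (by linarith))
    obtain ⟨n, hn⟩ := h1.exists
    filter_upwards [eventually_ge_atTop (n + 1)] with m hm
    have h2 := (hprop n).2.2.1
    have h3 : (σ (n + 1)).r ≤ (σ m).r := hrmono hm
    have h4 : 1 / ((n : ℝ) + 2) ≤ 1 / ((n : ℝ) + 1) := by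
      apply one_div_le_one_div_of_le (by positivity)
      linarith
    linarith
  -- pointwise limit
  have hlimex : ∀ z : ℂ, ∃ y : ℂ, z ∈ ball (0 : ℂ) 1 →
      Tendsto (fun n => (σ n).f z) atTop (𝓝 y) := by
    intro z
    by_cases hz : z ∈ ball (0 : ℂ) 1
    · have hc : CauchySeq fun n => (σ n).f z := by
        rw [Metric.cauchySeq_iff']
        intro t ht
        obtain ⟨n, hn1, hn2⟩ := ((hr_ev ‖z‖ (mem_ball_zero_iff.1 hz)).and
          (hd_tend.eventually (gt_mem_nhds ht))).exists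
        refine ⟨n, fun m hm => ?_⟩
        obtain ⟨j, rfl⟩ := Nat.exists_eq_add_of_le hm
        rw [dist_eq_norm]
        have h1 := htel n j z hn1
        have h2 := (σ (n + j)).hd
        linarith
      obtain ⟨y, hy⟩ := cauchySeq_tendsto_of_complete hc
      exact ⟨y, fun _ => hy⟩
    · exact ⟨0, fun h => absurd h hz⟩
  choose f hf using hlimex
  have hclose : ∀ n : ℕ, ∀ z : ℂ, ‖z‖ ≤ (σ n).r → ‖f z - (σ n).f z‖ ≤ (σ n).d := by
    intro n z hz
    have hzb : z ∈ ball (0 : ℂ) 1 := mem_ball_zero_iff.2 (lt_of_le_of_lt hz (σ n).hr)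
    have h1 : Tendsto (fun m => ‖(σ m).f z - (σ n).f z‖) atTop (𝓝 ‖f z - (σ n).f z‖) :=
      ((hf z hzb).sub_const _).norm
    apply le_of_tendsto h1
    filter_upwards [eventually_ge_atTop n] with m hm
    obtain ⟨j, rfl⟩ := Nat.exists_eq_add_of_le hm
    have h2 := htel n j z hz
    have h3 := (σ (n + j)).hd
    linarith
  have hlu : TendstoLocallyUniformlyOn (fun n => (σ n).f) f atTop (ball 0 1) := by
    rw [tendstoLocallyUniformlyOn_iff_forall_isCompact isOpen_ball]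
    intro Kc hKc hKcc
    rcases Kc.eq_empty_or_nonempty with rfl | hne
    · exact tendstoUniformlyOn_empty
    obtain ⟨zm, hzm, hmax⟩ := hKcc.exists_isMaxOn hne continuous_norm.continuousOn
    have hzm1 : ‖zm‖ < 1 := mem_ball_zero_iff.1 (hKc hzm)
    rw [Metric.tendstoUniformlyOn_iff]
    intro t ht
    filter_upwards [hr_ev ‖zm‖ hzm1, hd_tend.eventually (gt_mem_nhds ht)] with n hn1 hn2 z hz
    have h3 : ‖z‖ ≤ ‖zm‖ := hmax hz
    have h4 := hclose n z (by linarith)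
    rw [dist_eq_norm]
    linarith
  have hfd : DifferentiableOn ℂ f (ball 0 1) :=
    hlu.differentiableOn (Eventually.of_forall fun n => (σ n).hf.diff) isOpen_ball
  have hbase := hstart f hfd (fun z hz => hclose 0 z hz)
  have hmaps1 : ∀ z ∈ ball (0 : ℂ) 1, ‖f z‖ ≤ 1 := by
    intro z hz
    apply le_of_tendsto (hf z hz).norm
    exact Eventually.of_forall fun n => ((σ n).hf.maps z hz).le
  have e0 : (0 : ℂ) ∈ ball (0 : ℂ) 1 := mem_ball_self one_pos
  have e1 : (1 / 2 : ℂ) ∈ ball (0 : ℂ) 1 := by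
    rw [mem_ball_zero_iff]; norm_num
  have hmaps : ∀ z ∈ ball (0 : ℂ) 1, ‖f z‖ < 1 := by
    intro z hz
    refine lt_of_le_of_ne (hmaps1 z hz) ?_
    intro heq
    have hmax : IsMaxOn (norm ∘ f) (ball 0 1) z := by
      intro u hu
      simp only [Set.mem_ofPred_eq, Function.comp_apply, heq]
      exact hmaps1 u hu
    have h1 := Complex.eqOn_of_isPreconnected_of_isMaxOn_norm
      (convex_ball (0 : ℂ) 1).isPreconnected isOpen_ball hfd hz hmax
    exact hbase.2 ((h1 e0).trans (h1 e1).symm)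
  have hder : ∀ z ∈ ball (0 : ℂ) 1, deriv f z ≠ 0 := by
    intro w hw h0
    obtain ⟨x, hx, hfx⟩ : ∃ x ∈ ball (0 : ℂ) 1, deriv f x ≠ 0 := by
      by_contra hall
      push Not at hall
      apply hbase.2
      apply (convex_ball (0 : ℂ) 1).is_const_of_fderivWithin_eq_zero (𝕜 := ℂ) hfd ?_ e0 e1
      intro x hx
      rw [fderivWithin_of_isOpen isOpen_ball hx]
      ext
      simp [hall x hx]
    have hiso := isolated isOpen_ball (convex_ball (0 : ℂ) 1).isPreconnected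
      (hfd.deriv isOpen_ball) hx hfx hw
    have hdl := hlu.deriv (Eventually.of_forall fun n => (σ n).hf.diff) isOpen_ball
    have h1 := hurwitz (l := atTop) isOpen_ball
      (Eventually.of_forall fun n => (σ n).hf.diff.deriv isOpen_ball)
      (hfd.deriv isOpen_ball) hdl hw h0 hiso one_pos
    obtain ⟨n, z, _, hz2, hz3⟩ := h1.exists
    exact (σ n).hf.der z hz2 hz3
  refine ⟨f, ⟨hfd, hmaps, hder⟩, hbase.1, ?_⟩
  intro a ha ε hε
  have h1 : ∀ᶠ n : ℕ in atTop, 1 / ((n : ℝ) + 1) < 1 - ‖a‖ :=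
    tendsto_one_div_add_atTop_nhds_zero_nat.eventually (gt_mem_nhds (by linarith))
  have h2 : ∀ᶠ n : ℕ in atTop, 1 / ((n : ℝ) + 1) < ε :=
    tendsto_one_div_add_atTop_nhds_zero_nat.eventually (gt_mem_nhds hε)
  obtain ⟨n, hn1, hn2⟩ := (h1.and h2).exists
  have h4 : 1 / ((n : ℝ) + 2) ≤ 1 / ((n : ℝ) + 1) := by
    apply one_div_le_one_div_of_le (by positivity)
    linarith
  exact ((hprop n).2.2.2.2 f hfd hmaps (hclose (n + 1)) a (by linarith)).mono hn2.le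

end Pool.Agent.MP_6cbd4a_an
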