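import Pool.Agent.MP_6cbd4a_an.Basic

/-!
# Maximum principle, Hurwitz and Montel
-/

open Complex Metric Set Filter Topology
open scoped ComplexConjugate

namespace Pool.Agent.MP_6cbd4a_an

/-- Maximum principle for functions with local harmonic minorants. -/
lemma maxP {Y : Set ℂ} (hY : IsCompact Y) {D : ℂ → ℝ} (hD : ContinuousOn D Y) {c : ℝ}
    (hloc : ∀ z ∈ Y, c < D z → ∃ (h : ℂ → ℂ) (r : ℝ), 0 < r ∧ ball z r ⊆ Y ∧
      DifferentiableOn ℂ h (ball z r) ∧ (h z).re = D z ∧ ∀ z' ∈ ball z r, (h z').re ≤ D z') :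
    ∀ z ∈ Y, D z ≤ c := by
  by_contra hcon
  push Not at hcon
  obtain ⟨z₁, hz₁, hDz₁⟩ := hcon
  obtain ⟨z₀, hz₀, hmax⟩ := hY.exists_isMaxOn ⟨z₁, hz₁⟩ hD
  have hM : ∀ z ∈ Y, D z ≤ D z₀ := fun z hz => hmax hz
  set M := D z₀ with hMdef
  have hcM : c < M := lt_of_lt_of_le hDz₁ (hM z₁ hz₁)
  set E : Set ℂ := Y ∩ D ⁻¹' {M} with hE
  have hEc : IsClosed E := hD.preimage_isClosed_of_isClosed hY.isClosed isClosed_singleton
  have hEo : IsOpen E := by
    rw [Metric.isOpen_iff]
    rintro z ⟨hzY, hzM⟩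
    have hzM' : D z = M := hzM
    obtain ⟨h, r, hr, hball, hhd, hhz, hhle⟩ := hloc z hzY (by rw [hzM']; exact hcM)
    refine ⟨r, hr, fun z' hz' => ⟨hball hz', ?_⟩⟩
    have hexp : DifferentiableOn ℂ (fun u => exp (h u)) (ball z r) := hhd.cexp
    have hmaxon : IsMaxOn (norm ∘ fun u => exp (h u)) (ball z r) z := by
      intro u hu
      simp only [Set.mem_ofPred_eq, Function.comp_apply, norm_exp]
      apply Real.exp_le_exp.2
      rw [hhz, hzM']
      exact (hhle u hu).trans (hM u (hball hu))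
    have heq := Complex.norm_eqOn_of_isPreconnected_of_isMaxOn
      (convex_ball z r).isPreconnected isOpen_ball hexp (mem_ball_self hr) hmaxon hz'
    simp only [Function.comp_apply, Function.const_apply, norm_exp, Real.exp_eq_exp] at heq
    rw [hhz, hzM'] at heq
    have h1 := hhle z' hz'
    have h2 := hM z' (hball hz')
    show D z' = M
    linarith
  have huniv : E = univ := IsClopen.eq_univ ⟨hEc, hEo⟩ ⟨z₀, hz₀, rfl⟩
  have : Y = univ := by
    apply eq_univ_of_univ_subset
    rw [← huniv]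
    exact inter_subset_left
  rw [this] at hY
  exact noncompact_univ ℂ hY

/-- Hurwitz' theorem: existence of nearby zeros. -/
lemma hurwitz {ι : Type*} {l : Filter ι} {U : Set ℂ} (hU : IsOpen U) {f : ι → ℂ → ℂ} {g : ℂ → ℂ}
    (hf : ∀ᶠ n in l, DifferentiableOn ℂ (f n) U) (hg : DifferentiableOn ℂ g U)
    (hfg : TendstoLocallyUniformlyOn f g l U)
    {w : ℂ} (hw : w ∈ U) (hgw : g w = 0) (hiso : ∀ᶠ z in 𝓝[≠] w, g z ≠ 0) {t : ℝ} (ht : 0 < t) :
    ∀ᶠ n in l, ∃ z, dist z w < t ∧ z ∈ U ∧ f n z = 0 := by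
  -- choose a small radius
  rw [eventually_nhdsWithin_iff, Metric.eventually_nhds_iff] at hiso
  obtain ⟨r₁, hr₁, hiso⟩ := hiso
  obtain ⟨r₂, hr₂, hUr⟩ := Metric.isOpen_iff.1 hU w hw
  set r := min (min r₁ r₂) t / 2 with hr
  have hmin : 0 < min (min r₁ r₂) t := lt_min (lt_min hr₁ hr₂) ht
  have hr0 : 0 < r := by positivity
  have hrr₁ : r < r₁ := by
    have : min (min r₁ r₂) t ≤ r₁ := (min_le_left _ _).trans (min_le_left _ _)
    rw [hr]; linarith
  have hrr₂ : r < r₂ := by
    have : min (min r₁ r₂) t ≤ r₂ := (min_le_left _ _).trans (min_le_right _ _)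
    rw [hr]; linarith
  have hrt : r < t := by
    have : min (min r₁ r₂) t ≤ t := min_le_right _ _
    rw [hr]; linarith
  have hKU : closedBall w r ⊆ U := (closedBall_subset_ball hrr₂).trans hUr
  have hgc : ContinuousOn g (sphere w r) := (hg.continuousOn).mono (sphere_subset_closedBall.trans hKU)
  have hsne : (sphere w r).Nonempty := NormedSpace.sphere_nonempty.2 hr0.le
  obtain ⟨z₀, hz₀, hmin'⟩ := (isCompact_sphere w r).exists_isMinOn hsne hgc.norm
  set m := ‖g z₀‖ with hm
  have hm0 : 0 < m := by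
    rw [hm, norm_pos_iff]
    apply hiso
    · rw [mem_sphere.1 hz₀]; exact hrr₁
    · intro h
      rw [mem_singleton_iff] at h
      rw [h] at hz₀
      simp at hz₀
      linarith
  have hmle : ∀ z ∈ sphere w r, m ≤ ‖g z‖ := fun z hz => hmin' hz
  have hunif := (tendstoLocallyUniformlyOn_iff_forall_isCompact hU).1 hfg (closedBall w r) hKU
    (isCompact_closedBall w r)
  rw [Metric.tendstoUniformlyOn_iff] at hunif
  filter_upwards [hunif (m / 4) (by positivity), hf] with n hn hfn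
  by_contra hcon
  push Not at hcon
  have hnz : ∀ z ∈ closedBall w r, f n z ≠ 0 := by
    intro z hz
    exact hcon z (lt_of_le_of_lt (mem_closedBall.1 hz) hrt) (hKU hz)
  have hdc : DiffContOnCl ℂ (fun z => (f n z)⁻¹) (ball w r) := by
    apply DifferentiableOn.diffContOnCl
    rw [closure_ball w hr0.ne']
    exact (hfn.mono hKU).inv hnz
  have hbound : ‖(f n w)⁻¹‖ ≤ 4 / (3 * m) := by
    apply Complex.norm_le_of_forall_mem_frontier_norm_le isBounded_ball hdc ?_
      (subset_closure (mem_ball_self hr0))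
    intro z hz
    rw [frontier_ball w hr0.ne'] at hz
    have h1 := hn z (sphere_subset_closedBall hz)
    have h2 := hmle z hz
    have h3 : 3 * m / 4 ≤ ‖f n z‖ := by
      rw [dist_eq_norm] at h1
      have := norm_sub_norm_le (g z) (g z - f n z)
      rw [sub_sub_cancel] at this
      linarith
    rw [norm_inv]
    calc ‖f n z‖⁻¹ ≤ (3 * m / 4)⁻¹ := by
          apply inv_anti₀ (by positivity) h3
      _ = 4 / (3 * m) := by rw [inv_div]
  have h1 := hn w (mem_closedBall_self hr0.le)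
  rw [hgw, dist_zero_left] at h1
  have h2 : 0 < ‖f n w‖ := norm_pos_iff.2 (hnz w (mem_closedBall_self hr0.le))
  rw [norm_inv] at hbound
  have h3 : 4 / m < ‖f n w‖⁻¹ := by
    rw [lt_inv_comm₀ (by positivity) h2]
    simpa using h1
  have h4 : 4 / (3 * m) ≤ 4 / m := by
    apply div_le_div_of_nonneg_left (by norm_num) hm0 (by linarith)
  linarith

/-- Montel's theorem along an ultrafilter. -/
lemma montel {ι : Type*} (𝒰 : Ultrafilter ι) {U : Set ℂ} (hU : IsOpen U) (F : ι → ℂ → ℂ)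
    (hF : ∀ i, DifferentiableOn ℂ (F i) U) (hb : ∀ i, ∀ z ∈ U, ‖F i z‖ ≤ 1) :
    ∃ g : ℂ → ℂ, TendstoLocallyUniformlyOn F g (𝒰 : Filter ι) U := by
  have hlim : ∀ z : ℂ, ∃ w : ℂ, z ∈ U → Tendsto (fun i => F i z) 𝒰 (𝓝 w) := by
    intro z
    by_cases hz : z ∈ U
    · have hmem : (closedBall (0 : ℂ) 1) ∈ 𝒰.map (fun i => F i z) := by
        rw [Ultrafilter.mem_map]
        apply Filter.univ_mem'
        intro i
        simp only [mem_preimage, mem_closedBall_zero_iff]
        exact hb i z hz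
      obtain ⟨w, -, hw⟩ := (isCompact_closedBall (0 : ℂ) 1).ultrafilter_le_nhds' (𝒰.map (fun i => F i z)) hmem
      exact ⟨w, fun _ => hw⟩
    · exact ⟨0, fun h => absurd h hz⟩
  choose g hg using hlim
  refine ⟨g, ?_⟩
  rw [Metric.tendstoLocallyUniformlyOn_iff]
  intro ε hε z₀ hz₀
  obtain ⟨R, hR, hUR⟩ := Metric.isOpen_iff.1 hU z₀ hz₀
  set r := R / 4 with hr
  have hr0 : 0 < r := by positivity
  -- Lipschitz on the ball of radius r
  have hLip : ∀ i, ∀ x ∈ ball z₀ r, ∀ y ∈ ball z₀ r, ‖F i x - F i y‖ ≤ (1 / r) * ‖x - y‖ := by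
    intro i x hx y hy
    apply (convex_ball z₀ r).norm_image_sub_le_of_norm_deriv_le (f := F i) (𝕜 := ℂ) ?_ ?_ hy hx
    · intro u hu
      apply (hF i).differentiableAt (hU.mem_nhds (hUR _))
      exact ball_subset_ball (by rw [hr]; linarith) hu
    · intro u hu
      have hsub : closedBall u r ⊆ U := by
        intro v hv
        apply hUR
        rw [mem_ball] at *
        rw [mem_closedBall] at hv
        have := dist_triangle v u z₀
        rw [hr] at *
        linarith
      apply Complex.norm_deriv_le_of_forall_mem_sphere_norm_le hr0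
      · apply DifferentiableOn.diffContOnCl
        rw [closure_ball u hr0.ne']
        exact (hF i).mono hsub
      · intro v hv
        exact hb i v (hsub (sphere_subset_closedBall hv))
  have hball : ball z₀ r ⊆ U := (ball_subset_ball (by rw [hr]; linarith)).trans hUR
  have hgLip : ∀ x ∈ ball z₀ r, ∀ y ∈ ball z₀ r, ‖g x - g y‖ ≤ (1 / r) * ‖x - y‖ := by
    intro x hx y hy
    have h1 := ((hg x (hball hx)).sub (hg y (hball hy))).norm
    exact le_of_tendsto h1 (Eventually.of_forall fun i => hLip i x hx y hy)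
  -- a small ball suffices
  refine ⟨ball z₀ (min r (r * ε / 4)), ?_, ?_⟩
  · apply mem_nhdsWithin_of_mem_nhds
    apply ball_mem_nhds
    positivity
  · have h1 : ∀ᶠ i in (𝒰 : Filter ι), dist (F i z₀) (g z₀) < ε / 4 :=
      (hg z₀ hz₀).eventually (Metric.ball_mem_nhds _ (by positivity))
    filter_upwards [h1] with i hi y hy
    have hy1 : y ∈ ball z₀ r := ball_subset_ball (min_le_left _ _) hy
    have hy2 : ‖y - z₀‖ < r * ε / 4 := by
      rw [← dist_eq_norm]
      exact lt_of_lt_of_le (mem_ball.1 hy) (min_le_right _ _)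
    have hc : z₀ ∈ ball z₀ r := mem_ball_self hr0
    have e1 := hLip i y hy1 z₀ hc
    have e2 := hgLip y hy1 z₀ hc
    have e3 : (1 / r) * ‖y - z₀‖ ≤ ε / 4 := by
      rw [div_mul_eq_mul_div, one_mul, div_le_iff₀ hr0]
      linarith
    rw [dist_eq_norm] at hi ⊢
    calc ‖g y - F i y‖ = ‖(g y - g z₀) - (F i z₀ - g z₀) - (F i y - F i z₀)‖ := by
          congr 1; ring
      _ ≤ ‖g y - g z₀‖ + ‖F i z₀ - g z₀‖ + ‖F i y - F i z₀‖ := by
          refine (norm_sub_le _ _).trans ?_
          gcongr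
          exact norm_sub_le _ _
      _ < ε := by linarith

end Pool.Agent.MP_6cbd4a_an
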