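import Pool.Agent.MP_6cbd4a_an.Topo
import Pool.Agent.MP_6cbd4a_an.Tools

/-!
# Local upper bound for the defect function
-/

open Complex Metric Set Filter Topology
open scoped ComplexConjugate

namespace Pool.Agent.MP_6cbd4a_an

/-- Abstract properties of the defect function `s` for the value `a`. -/
structure Pot (S : Setup) (a : ℂ) (s : ℂ → ℝ) : Prop where
  nonneg : ∀ z, 0 ≤ s z
  supp : ∀ z, z ∉ S.Om → s z = 0
  bound : ∀ z ∈ S.Om, ‖S.g z - a‖ / 2 ≤ Real.exp (-(s z))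
  cont : ContinuousOn s {z | ‖z‖ ^ S.N < 2 * S.N}
  loc : ∀ z, ‖z‖ ^ S.N < 2 * S.N → ∃ (h : ℂ → ℂ) (r : ℝ), 0 < r ∧
    ball z r ⊆ {z | ‖z‖ ^ S.N < 2 * S.N} ∧ DifferentiableOn ℂ h (ball z r) ∧
    (h z).re = s z ∧ ∀ z' ∈ ball z r, (h z').re ≤ s z'

namespace Setup

variable (S : Setup)

/-- the radius of the small discs -/
noncomputable def rho : ℝ := 1 / (16 * (S.N : ℝ) ^ 2)

lemma rho_pos : 0 < S.rho := by
  have := S.NposR
  rw [rho]; positivity

lemma rho_N_le : S.N * S.rho ≤ 1 / 16 := by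
  have h1 := S.NposR
  have h2 := S.N_ge_one
  rw [rho, mul_one_div, div_le_div_iff₀ (by positivity) (by norm_num)]
  nlinarith

lemma exp_sixteenth_lt : Real.exp (1 / 16) < 2 := by
  have h := Real.exp_one_lt_d9
  have h1 : Real.exp (1 / 16) ≤ Real.exp (1 / 2) := Real.exp_le_exp.2 (by norm_num)
  have h2 : Real.exp (1 / 2) ^ 2 = Real.exp 1 := by
    rw [← Real.exp_nat_mul]; norm_num
  have h3 : Real.exp (1 / 2) < 2 := by
    by_contra hcon
    push Not at hcon
    nlinarith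
  linarith

lemma pow_small {x : ℝ} (hx : 0 ≤ x) (hxN : x ^ S.N ≤ S.N) : (x + S.rho) ^ S.N < 2 * S.N := by
  have hρ := S.rho_pos
  have hN1 := S.N_ge_one
  have hE : (1 + S.rho) ^ S.N ≤ Real.exp (1 / 16) := by
    calc (1 + S.rho) ^ S.N ≤ (Real.exp S.rho) ^ S.N := by
          apply pow_le_pow_left₀ (by linarith)
          have := Real.add_one_le_exp S.rho
          linarith
      _ = Real.exp (S.N * S.rho) := by rw [← Real.exp_nat_mul]
      _ ≤ Real.exp (1 / 16) := Real.exp_le_exp.2 S.rho_N_le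
  have h2 := exp_sixteenth_lt
  rcases le_or_gt x 1 with h | h
  · calc (x + S.rho) ^ S.N ≤ (1 + S.rho) ^ S.N := by
          apply pow_le_pow_left₀ (by linarith); linarith
      _ < 2 := by linarith
      _ ≤ 2 * S.N := by linarith
  · calc (x + S.rho) ^ S.N ≤ (x * (1 + S.rho)) ^ S.N := by
          apply pow_le_pow_left₀ (by linarith)
          nlinarith
      _ = x ^ S.N * (1 + S.rho) ^ S.N := by rw [mul_pow]
      _ ≤ S.N * (1 + S.rho) ^ S.N := by gcongr
      _ < S.N * 2 := by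
          apply mul_lt_mul_of_pos_left _ (by linarith)
          linarith
      _ = 2 * S.N := by ring

lemma closedBall_rho {c z : ℂ} (hc : ‖c‖ ^ S.N ≤ S.N) (hz : z ∈ closedBall c S.rho) :
    ‖z‖ ^ S.N < 2 * S.N := by
  have h1 : ‖z‖ ≤ ‖c‖ + S.rho := by
    have h2 := mem_closedBall.1 hz
    rw [dist_eq_norm] at h2
    have h3 : ‖z‖ ≤ ‖z - c‖ + ‖c‖ := by
      have := norm_add_le (z - c) c
      simpa using this
    linarith
  calc ‖z‖ ^ S.N ≤ (‖c‖ + S.rho) ^ S.N := pow_le_pow_left₀ (norm_nonneg _) h1 _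
    _ < 2 * S.N := S.pow_small (norm_nonneg _) hc

lemma M2_le_N : S.M2 ≤ S.N := by
  have h1 := S.hN2
  have h2 := S.hR0
  have h3 := S.hM2
  nlinarith

/-- the exponent -/
noncomputable def Q (z : ℂ) : ℂ := S.q z + z ^ S.N

lemma hasDerivAt_Q {z : ℂ} (hz : z ∈ ball (0 : ℂ) S.R0) :
    HasDerivAt S.Q (deriv S.q z + S.N * z ^ (S.N - 1)) z := by
  have h1 : HasDerivAt S.q (deriv S.q z) z :=
    (S.hq.differentiableAt (isOpen_ball.mem_nhds hz)).hasDerivAt
  exact h1.add (hasDerivAt_pow S.N z)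

lemma norm_derivQ_le {z : ℂ} (hz : ‖z‖ ^ S.N ≤ 2 * S.N) :
    ‖deriv S.q z + S.N * z ^ (S.N - 1)‖ ≤ 3 * S.N ^ 2 := by
  have hzb := S.mem_ball_of_pow hz
  have hN1 := S.N_ge_one
  have h1 : ‖z‖ ^ (S.N - 1) ≤ 2 * S.N := by
    rcases le_or_gt ‖z‖ 1 with h | h
    · calc ‖z‖ ^ (S.N - 1) ≤ 1 := pow_le_one₀ (norm_nonneg _) h
        _ ≤ 2 * S.N := by linarith
    · calc ‖z‖ ^ (S.N - 1) ≤ ‖z‖ ^ S.N := pow_le_pow_right₀ h.le (Nat.sub_le _ _)
        _ ≤ 2 * S.N := hz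
  calc ‖deriv S.q z + S.N * z ^ (S.N - 1)‖ ≤ ‖deriv S.q z‖ + ‖(S.N : ℂ) * z ^ (S.N - 1)‖ :=
        norm_add_le _ _
    _ = ‖deriv S.q z‖ + S.N * ‖z‖ ^ (S.N - 1) := by
        rw [norm_mul, norm_pow, Complex.norm_natCast]
    _ ≤ S.M2 + S.N * (2 * S.N) := by
        gcongr
        exact S.hqb' z hzb
    _ ≤ 3 * S.N ^ 2 := by nlinarith [S.M2_le_N]

lemma norm_gder (z : ℂ) : ‖exp (S.q z + z ^ S.N)‖ = Real.exp ((S.q z).re + (z ^ S.N).re) := by
  rw [norm_exp, Complex.add_re]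

lemma gder_close {c z : ℂ} (hc : ‖c‖ ^ S.N ≤ S.N) (hz : z ∈ closedBall c S.rho) :
    ‖exp (S.q z + z ^ S.N) - exp (S.q c + c ^ S.N)‖ ≤ 1 / 2 * ‖exp (S.q c + c ^ S.N)‖ := by
  have hN := S.NposR
  have hρ := S.rho_pos
  have hQ : ‖S.Q z - S.Q c‖ ≤ 3 * (S.N : ℝ) ^ 2 * ‖z - c‖ := by
    apply (convex_closedBall c S.rho).norm_image_sub_le_of_norm_hasDerivWithin_le
      (f' := fun u => deriv S.q u + S.N * u ^ (S.N - 1)) ?_ ?_ (mem_closedBall_self hρ.le) hz
    · intro u hu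
      exact (S.hasDerivAt_Q (S.mem_ball_of_pow (S.closedBall_rho hc hu).le)).hasDerivWithinAt
    · intro u hu
      exact S.norm_derivQ_le (S.closedBall_rho hc hu).le
  have hzc : ‖z - c‖ ≤ S.rho := by rw [← dist_eq_norm]; exact mem_closedBall.1 hz
  have hQ2 : ‖S.Q z - S.Q c‖ ≤ 3 / 16 := by
    calc ‖S.Q z - S.Q c‖ ≤ 3 * (S.N : ℝ) ^ 2 * S.rho := hQ.trans (by gcongr)
      _ = 3 / 16 := by rw [rho]; field_simp
  have h1 : exp (S.q z + z ^ S.N) - exp (S.q c + c ^ S.N)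
      = exp (S.q c + c ^ S.N) * (exp (S.Q z - S.Q c) - 1) := by
    rw [mul_sub, ← exp_add, mul_one, Q, Q]
    congr 2
    ring
  rw [h1, norm_mul, mul_comm (1 / 2 : ℝ)]
  gcongr
  calc ‖exp (S.Q z - S.Q c) - 1‖ ≤ 2 * ‖S.Q z - S.Q c‖ := norm_exp_sub_one_le (by linarith)
    _ ≤ 1 / 2 := by linarith

lemma g_expand {c z w : ℂ} (hc : ‖c‖ ^ S.N ≤ S.N) (hz : z ∈ closedBall c S.rho)
    (hw : w ∈ closedBall c S.rho) :
    1 / 2 * ‖exp (S.q c + c ^ S.N)‖ * ‖z - w‖ ≤ ‖S.g z - S.g w‖ := by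
  set E := exp (S.q c + c ^ S.N) with hE
  have h1 : ‖(S.g z - E * z) - (S.g w - E * w)‖ ≤ 1 / 2 * ‖E‖ * ‖z - w‖ := by
    apply (convex_closedBall c S.rho).norm_image_sub_le_of_norm_hasDerivWithin_le
      (f := fun u => S.g u - E * u)
      (f' := fun u => exp (S.q u + u ^ S.N) - E) ?_ ?_ hw hz
    · intro u hu
      have h2 := S.hg u (S.mem_ball_of_pow (S.closedBall_rho hc hu).le)
      have h3 : HasDerivAt (fun u => E * u) E u := by
        simpa using (hasDerivAt_id u).const_mul E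
      exact (h2.sub h3).hasDerivWithinAt
    · intro u hu
      exact S.gder_close hc hu
  have h2 : ‖E * (z - w)‖ ≤ ‖S.g z - S.g w‖ + ‖(S.g z - E * z) - (S.g w - E * w)‖ := by
    have : E * (z - w) = (S.g z - S.g w) - ((S.g z - E * z) - (S.g w - E * w)) := by ring
    rw [this]
    exact norm_sub_le _ _
  rw [norm_mul] at h2
  linarith

end Setup

variable {S : Setup} {a : ℂ} {s : ℂ → ℝ}

lemma Pot.le_of_dist (hs : Pot S a s) {z : ℂ} {m : ℝ} (hm : 0 < m) (hz : z ∈ S.Om)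
    (h : m ≤ ‖S.g z - a‖) : s z ≤ Real.log (2 / m) := by
  have h1 := hs.bound z hz
  have h2 : m / 2 ≤ Real.exp (-(s z)) := le_trans (by linarith) h1
  have h3 : Real.log (m / 2) ≤ -(s z) := by
    rw [Real.log_le_iff_le_exp (by positivity)]
    exact h2
  have h4 : Real.log (2 / m) = -Real.log (m / 2) := by
    rw [← Real.log_inv, inv_div]
  linarith

/-- local bound -/
lemma Pot.local_bound (hs : Pot S a s) {c : ℂ} (hc : ‖c‖ ^ S.N ≤ S.N) :
    s c ≤ Real.log (1 + 16 / (S.rho * ‖exp (S.q c + c ^ S.N)‖)) := by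
  set E := ‖exp (S.q c + c ^ S.N)‖ with hE
  have hE0 : 0 < E := norm_pos_iff.2 (exp_ne_zero _)
  have hρ := S.rho_pos
  set b := Real.log (1 + 16 / (S.rho * E)) with hb
  have hq : 0 < 16 / (S.rho * E) := by positivity
  have hb0 : 0 ≤ b := Real.log_nonneg (by linarith)
  have hcmem : c ∈ closedBall c S.rho := mem_closedBall_self hρ.le
  -- minimiser
  have hcont : ContinuousOn (fun z => ‖S.g z - a‖) (closedBall c S.rho) := by
    apply ContinuousOn.norm
    apply ContinuousOn.sub _ continuousOn_const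
    exact S.continuousOn_g.mono fun z hz => S.mem_ball_of_pow (S.closedBall_rho hc hz).le
  obtain ⟨z₁, hz₁, hmin⟩ := (isCompact_closedBall c S.rho).exists_isMinOn ⟨c, hcmem⟩ hcont
  have hlow : ∀ z ∈ closedBall c S.rho, 1 / 4 * E * ‖z - z₁‖ ≤ ‖S.g z - a‖ := by
    intro z hz
    have h1 := S.g_expand hc hz hz₁
    have h2 : ‖S.g z₁ - a‖ ≤ ‖S.g z - a‖ := hmin hz
    have h3 : ‖S.g z - S.g z₁‖ ≤ ‖S.g z - a‖ + ‖S.g z₁ - a‖ := by
      have : S.g z - S.g z₁ = (S.g z - a) - (S.g z₁ - a) := by ring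
      rw [this]
      exact norm_sub_le _ _
    rw [← hE] at h1
    linarith
  have hsb : ∀ z ∈ closedBall c S.rho, S.rho / 2 ≤ ‖z - z₁‖ → s z ≤ b := by
    intro z hz hzz
    by_cases hzO : z ∈ S.Om
    · have h1 := hlow z hz
      have h2 : 1 / 8 * E * S.rho ≤ ‖S.g z - a‖ := by
        calc 1 / 8 * E * S.rho = 1 / 4 * E * (S.rho / 2) := by ring
          _ ≤ 1 / 4 * E * ‖z - z₁‖ := by gcongr
          _ ≤ _ := h1
      have h3 := hs.le_of_dist (by positivity) hzO h2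
      refine h3.trans ?_
      apply Real.log_le_log (by positivity)
      have : 2 / (1 / 8 * E * S.rho) = 16 / (S.rho * E) := by field_simp; ring
      rw [this]
      linarith
    · rw [hs.supp z hzO]; exact hb0
  rcases le_or_gt (S.rho / 2) ‖c - z₁‖ with h | h
  · exact hsb c hcmem h
  · -- maximum principle
    have hcontS : ContinuousOn s (closedBall c S.rho) :=
      hs.cont.mono fun z hz => S.closedBall_rho hc hz
    apply maxP (isCompact_closedBall c S.rho) hcontS ?_ c hcmem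
    intro z hz hbz
    have hzne : dist z c < S.rho := by
      refine lt_of_le_of_ne (mem_closedBall.1 hz) ?_
      intro heq
      have h1 : S.rho / 2 ≤ ‖z - z₁‖ := by
        have h2 : ‖z - c‖ ≤ ‖z - z₁‖ + ‖c - z₁‖ := by
          have : z - c = (z - z₁) - (c - z₁) := by ring
          rw [this]; exact norm_sub_le _ _
        rw [dist_eq_norm] at heq
        linarith
      linarith [hsb z hz h1]
    obtain ⟨h', r, hr, hrs, hhd, hhz, hhle⟩ := hs.loc z (S.closedBall_rho hc hz)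
    have hsub1 : ball z (min r (S.rho - dist z c)) ⊆ ball z r := ball_subset_ball (min_le_left _ _)
    refine ⟨h', min r (S.rho - dist z c), lt_min hr (by linarith), ?_, hhd.mono hsub1, hhz,
      fun z' hz' => hhle z' (hsub1 hz')⟩
    intro z' hz'
    have h1 : dist z' z < S.rho - dist z c := lt_of_lt_of_le (mem_ball.1 hz') (min_le_right _ _)
    rw [mem_closedBall]
    linarith [dist_triangle z' z c]

/-- consequence: bound in terms of `Re z^N`. -/
lemma Pot.bound_general (hs : Pot S a s) {c : ℂ} (hc : ‖c‖ ^ S.N ≤ S.N) {x : ℝ} (hx : 0 ≤ x)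
    (hre : -x ≤ (c ^ S.N).re) :
    s c ≤ Real.log (1 + 256 * S.N ^ 2 * Real.exp S.Mq) + x := by
  have hN := S.NposR
  have hcb := S.mem_ball_of_pow (z := c) (by linarith)
  have h1 := hs.local_bound hc
  have hq1 : -S.Mq ≤ (S.q c).re := by
    have h2 := S.hqb c hcb
    have h3 := Complex.abs_re_le_norm (S.q c)
    have h4 := neg_abs_le (S.q c).re
    linarith
  have hE : Real.exp (-S.Mq - x) ≤ ‖exp (S.q c + c ^ S.N)‖ := by
    rw [S.norm_gder]
    apply Real.exp_le_exp.2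
    linarith
  have hρ := S.rho_pos
  have h2 : 16 / (S.rho * ‖exp (S.q c + c ^ S.N)‖) ≤ 256 * S.N ^ 2 * Real.exp (S.Mq + x) := by
    calc 16 / (S.rho * ‖exp (S.q c + c ^ S.N)‖) ≤ 16 / (S.rho * Real.exp (-S.Mq - x)) := by
          gcongr
      _ = 256 * S.N ^ 2 * Real.exp (S.Mq + x) := by
          rw [Setup.rho, show -S.Mq - x = -(S.Mq + x) by ring, Real.exp_neg]
          field_simp
          norm_num
  refine h1.trans ?_
  have hX : 1 ≤ Real.exp x := Real.one_le_exp hx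
  have h3 : 1 + 256 * (S.N : ℝ) ^ 2 * Real.exp (S.Mq + x)
      ≤ (1 + 256 * S.N ^ 2 * Real.exp S.Mq) * Real.exp x := by
    rw [Real.exp_add]
    nlinarith
  calc Real.log (1 + 16 / (S.rho * ‖exp (S.q c + c ^ S.N)‖))
      ≤ Real.log ((1 + 256 * S.N ^ 2 * Real.exp S.Mq) * Real.exp x) := by
        apply Real.log_le_log (by positivity)
        linarith
    _ = Real.log (1 + 256 * S.N ^ 2 * Real.exp S.Mq) + x := by
        rw [Real.log_mul (by positivity) (by positivity), Real.log_exp]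

end Pool.Agent.MP_6cbd4a_an
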