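import Pool.Agent.MP_6cbd4a_an.Loss1

/-!
# Counting the rotated points where `F` is close to `a`
-/

open Complex Metric Set Filter Topology
open scoped ComplexConjugate Real

namespace Pool.Agent.MP_6cbd4a_an

namespace Setup

variable (S : Setup)

noncomputable def c0 : ℝ := Real.exp (-S.Mq) / 2

noncomputable def r0 : ℝ := Real.exp (-(2 * S.Mq)) / (2 * (S.M2 + 1))

lemma c0_pos : 0 < S.c0 := by rw [c0]; positivity

lemma r0_pos : 0 < S.r0 := by
  have := S.hM2
  rw [r0]; positivity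

/-- quantitative local injectivity of `F` -/
lemma F_inj {x y : ℂ} (hx : x ∈ ball (0 : ℂ) S.R0) (hy : y ∈ ball (0 : ℂ) S.R0)
    (hxy : ‖x - y‖ ≤ S.r0) : S.c0 * ‖x - y‖ ≤ ‖S.F x - S.F y‖ := by
  have hM2 := S.hM2
  have hr0 := S.r0_pos
  have hnorm : ∀ u ∈ ball (0 : ℂ) S.R0, ‖exp (S.q u)‖ ≤ Real.exp S.Mq := by
    intro u hu
    rw [norm_exp]
    exact Real.exp_le_exp.2 ((Complex.re_le_norm _).trans (S.hqb _ hu))
  have hexpd : ∀ u ∈ ball (0 : ℂ) S.R0, HasDerivAt (fun u => exp (S.q u))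
      (exp (S.q u) * deriv S.q u) u := by
    intro u hu
    exact (S.hq.differentiableAt (isOpen_ball.mem_nhds hu)).hasDerivAt.cexp
  have h1 : ∀ u ∈ ball (0 : ℂ) S.R0, ‖exp (S.q u) - exp (S.q y)‖
      ≤ Real.exp S.Mq * S.M2 * ‖u - y‖ := by
    intro u hu
    apply (convex_ball (0 : ℂ) S.R0).norm_image_sub_le_of_norm_hasDerivWithin_le
      (f := fun u => exp (S.q u)) (f' := fun u => exp (S.q u) * deriv S.q u) ?_ ?_ hy hu
    · exact fun u hu => (hexpd u hu).hasDerivWithinAt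
    · intro u hu
      rw [norm_mul]
      have := hnorm u hu
      have := S.hqb' u hu
      gcongr
  set T : Set ℂ := ball (0 : ℂ) S.R0 ∩ closedBall y S.r0 with hT
  have hTc : Convex ℝ T := (convex_ball _ _).inter (convex_closedBall _ _)
  have h2 : ‖(S.F x - exp (S.q y) * x) - (S.F y - exp (S.q y) * y)‖
      ≤ Real.exp (-S.Mq) / 2 * ‖x - y‖ := by
    apply hTc.norm_image_sub_le_of_norm_hasDerivWithin_le
      (f := fun u => S.F u - exp (S.q y) * u)
      (f' := fun u => exp (S.q u) - exp (S.q y)) ?_ ?_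
      ⟨hy, mem_closedBall_self hr0.le⟩ ⟨hx, by rw [mem_closedBall, dist_eq_norm]; exact hxy⟩
    · intro u hu
      have h3 : HasDerivAt (fun u => exp (S.q y) * u) (exp (S.q y)) u := by
        simpa using (hasDerivAt_id u).const_mul (exp (S.q y))
      exact ((S.hF u hu.1).sub h3).hasDerivWithinAt
    · intro u hu
      have h4 : ‖u - y‖ ≤ S.r0 := by
        have := hu.2
        rwa [mem_closedBall, dist_eq_norm] at this
      calc ‖exp (S.q u) - exp (S.q y)‖ ≤ Real.exp S.Mq * S.M2 * ‖u - y‖ := h1 u hu.1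
        _ ≤ Real.exp S.Mq * (S.M2 + 1) * S.r0 := by gcongr; linarith
        _ = Real.exp (-S.Mq) / 2 := by
            rw [r0, show -(2 * S.Mq) = -S.Mq - S.Mq by ring, Real.exp_sub]
            field_simp
  have h5 : Real.exp (-S.Mq) ≤ ‖exp (S.q y)‖ := by
    rw [norm_exp]
    apply Real.exp_le_exp.2
    have h6 := S.hqb y hy
    have h7 := Complex.abs_re_le_norm (S.q y)
    have h8 := neg_abs_le (S.q y).re
    linarith
  have h9 : ‖exp (S.q y) * (x - y)‖ ≤ ‖S.F x - S.F y‖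
      + ‖(S.F x - exp (S.q y) * x) - (S.F y - exp (S.q y) * y)‖ := by
    have : exp (S.q y) * (x - y) = (S.F x - S.F y)
      - ((S.F x - exp (S.q y) * x) - (S.F y - exp (S.q y) * y)) := by ring
    rw [this]
    exact norm_sub_le _ _
  rw [norm_mul] at h9
  have h10 : Real.exp (-S.Mq) * ‖x - y‖ ≤ ‖exp (S.q y)‖ * ‖x - y‖ := by gcongr
  rw [c0]
  linarith

/-- the rotations -/
noncomputable def rot (j : ℕ) : ℂ := exp (I * ((2 * π * j / S.N : ℝ) : ℂ))

lemma norm_rot (j : ℕ) : ‖S.rot j‖ = 1 := by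
  rw [rot, norm_exp]
  simp

lemma rot_pow (j : ℕ) : S.rot j ^ S.N = 1 := by
  rw [rot, ← exp_nat_mul]
  have : (S.N : ℂ) * (I * ((2 * π * j / S.N : ℝ) : ℂ)) = j * (2 * π * I) := by
    have h1 : (S.N : ℂ) ≠ 0 := by exact_mod_cast S.Npos.ne'
    push_cast
    field_simp
  rw [this, exp_nat_mul_two_pi_mul_I]

lemma rot_mul_pow (j : ℕ) (z : ℂ) : (S.rot j * z) ^ S.N = z ^ S.N := by
  rw [mul_pow, S.rot_pow, one_mul]

lemma norm_rot_mul (j : ℕ) (z : ℂ) : ‖S.rot j * z‖ = ‖z‖ := by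
  rw [norm_mul, S.norm_rot, one_mul]

lemma rot_dist (j l : ℕ) : ‖S.rot j - S.rot l‖ = 2 * |Real.sin (π * ((j : ℝ) - l) / S.N)| := by
  have h1 : S.rot j - S.rot l = S.rot l * (exp (I * ((2 * π * ((j : ℝ) - l) / S.N : ℝ) : ℂ)) - 1) := by
    rw [rot, rot, mul_sub, ← exp_add, mul_one]
    congr 2
    push_cast
    ring
  rw [h1, norm_mul, S.norm_rot, one_mul, Complex.norm_exp_I_mul_ofReal_sub_one, norm_mul]
  simp only [Real.norm_eq_abs, abs_two]
  congr 3
  ring

lemma rot_dist_le (j l : ℕ) : ‖S.rot j - S.rot l‖ ≤ 7 * |(j : ℝ) - l| / S.N := by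
  have hN := S.NposR
  rw [S.rot_dist]
  have h1 : |Real.sin (π * ((j : ℝ) - l) / S.N)| ≤ |π * ((j : ℝ) - l) / S.N| := Real.abs_sin_le_abs
  have h2 : |π * ((j : ℝ) - l) / S.N| = π * |(j : ℝ) - l| / S.N := by
    rw [abs_div, abs_mul, abs_of_pos Real.pi_pos, abs_of_pos hN]
  rw [h2] at h1
  have h3 : π < 3.15 := Real.pi_lt_d2
  calc 2 * |Real.sin (π * ((j : ℝ) - l) / S.N)| ≤ 2 * (π * |(j : ℝ) - l| / S.N) := by linarith
    _ = (2 * π) * |(j : ℝ) - l| / S.N := by ring
    _ ≤ 7 * |(j : ℝ) - l| / S.N := by gcongr; linarith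

lemma le_rot_dist {j l : ℕ} (h : |(j : ℝ) - l| ≤ S.N / 2) :
    4 * |(j : ℝ) - l| / S.N ≤ ‖S.rot j - S.rot l‖ := by
  have hN := S.NposR
  have hπ := Real.pi_pos
  rw [S.rot_dist]
  have h2 : |π * ((j : ℝ) - l) / S.N| = π * |(j : ℝ) - l| / S.N := by
    rw [abs_div, abs_mul, abs_of_pos Real.pi_pos, abs_of_pos hN]
  have h1 : 2 / π * |π * ((j : ℝ) - l) / S.N| ≤ |Real.sin (π * ((j : ℝ) - l) / S.N)| := by
    apply Real.mul_abs_le_abs_sin
    rw [h2, div_le_div_iff₀ hN (by norm_num)]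
    nlinarith
  rw [h2] at h1
  have h3 : 2 / π * (π * |(j : ℝ) - l| / S.N) = 2 * |(j : ℝ) - l| / S.N := by
    field_simp
  rw [h3] at h1
  calc 4 * |(j : ℝ) - l| / S.N = 2 * (2 * |(j : ℝ) - l| / S.N) := by ring
    _ ≤ _ := by linarith

/-- the set of rotated points at which `F` is close to `a` -/
noncomputable def badSet (z a : ℂ) (ε : ℝ) : Finset ℕ :=
  open Classical in (Finset.range S.N).filter fun j => ‖S.F (S.rot j * z) - a‖ ≤ ε

lemma card_bad {z a : ℂ} {ε : ℝ} (hε : 0 ≤ ε) (hz : ‖z‖ ^ S.N = S.N) {ℓ : ℕ} (hℓ : 1 ≤ ℓ)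
    (hℓ2 : 2 * ℓ ≤ S.N) (hℓr : 7 * S.R0 * ℓ ≤ S.r0 * S.N) :
    ((S.badSet z a ε).card : ℝ) ≤ (ε * S.N / (2 * S.c0) + 1) * (S.N / ℓ + 1) := by
  classical
  have hN := S.NposR
  have hc0 := S.c0_pos
  have hR0 := S.hR0
  have hz1 : 1 ≤ ‖z‖ := by
    by_contra hcon
    push Not at hcon
    have h1 : ‖z‖ ^ S.N < 1 := pow_lt_one₀ (norm_nonneg _) hcon S.Npos.ne'
    linarith [S.N_ge_one]
  have hzb : ∀ j, S.rot j * z ∈ ball (0 : ℂ) S.R0 := by
    intro j
    apply S.mem_ball_of_pow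
    rw [S.norm_rot_mul, hz]
    linarith
  have hzR : ‖z‖ ≤ S.R0 := by
    have := mem_ball_zero_iff.1 (hzb 0)
    rw [S.norm_rot_mul] at this
    exact this.le
  set D : ℕ := ⌊ε * S.N / (2 * S.c0)⌋₊ with hD
  have hfib : ∀ b ∈ Finset.range (S.N / ℓ + 1),
      ((S.badSet z a ε).filter fun j => j / ℓ = b).card ≤ D + 1 := by
    intro b _
    rcases ((S.badSet z a ε).filter fun j => j / ℓ = b).eq_empty_or_nonempty with hem | hne
    · rw [hem]; simp
    · set m := ((S.badSet z a ε).filter fun j => j / ℓ = b).min' hne with hm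
      have hmm := Finset.min'_mem _ hne
      rw [← hm] at hmm
      have hsub : (S.badSet z a ε).filter (fun j => j / ℓ = b) ⊆ Finset.Icc m (m + D) := by
        intro j hj
        have hmj : m ≤ j := Finset.min'_le _ _ hj
        rw [Finset.mem_Icc]
        refine ⟨hmj, ?_⟩
        rw [Finset.mem_filter] at hj hmm
        have hj1 : ‖S.F (S.rot j * z) - a‖ ≤ ε := by
          have := hj.1
          rw [badSet, Finset.mem_filter] at this
          exact this.2
        have hm1 : ‖S.F (S.rot m * z) - a‖ ≤ ε := by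
          have := hmm.1
          rw [badSet, Finset.mem_filter] at this
          exact this.2
        have hjm : j < m + ℓ := by
          have h1 := hj.2
          have h2 := hmm.2
          have h3 : j < (b + 1) * ℓ := (Nat.div_lt_iff_lt_mul hℓ).1 (by omega)
          have h4 : b * ℓ ≤ m := by
            rw [← h2]
            exact Nat.div_mul_le_self m ℓ
          calc j < (b + 1) * ℓ := h3
            _ = b * ℓ + ℓ := by ring
            _ ≤ m + ℓ := by omega
        have hjmR : (j : ℝ) - m ≤ ℓ := by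
          have : (j : ℝ) ≤ m + ℓ := by exact_mod_cast hjm.le
          linarith
        have hjm0 : 0 ≤ (j : ℝ) - m := by
          have : (m : ℝ) ≤ j := by exact_mod_cast hmj
          linarith
        have habs : |(j : ℝ) - m| = j - m := abs_of_nonneg hjm0
        have hℓ2R : 2 * (ℓ : ℝ) ≤ S.N := by exact_mod_cast hℓ2
        have hd1 : ‖S.rot j * z - S.rot m * z‖ ≤ S.r0 := by
          rw [← sub_mul, norm_mul]
          calc ‖S.rot j - S.rot m‖ * ‖z‖ ≤ (7 * |(j : ℝ) - m| / S.N) * S.R0 := by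
                gcongr
                exact S.rot_dist_le j m
            _ ≤ (7 * ℓ / S.N) * S.R0 := by
                rw [habs]
                gcongr
            _ = 7 * S.R0 * ℓ / S.N := by ring
            _ ≤ S.r0 := by
                rw [div_le_iff₀ hN]
                exact hℓr
        have hd2 := S.F_inj (hzb j) (hzb m) hd1
        have hd3 : ‖S.F (S.rot j * z) - S.F (S.rot m * z)‖ ≤ 2 * ε := by
          have : S.F (S.rot j * z) - S.F (S.rot m * z)
            = (S.F (S.rot j * z) - a) - (S.F (S.rot m * z) - a) := by ring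
          rw [this]
          exact (norm_sub_le _ _).trans (by linarith)
        have hd4 : 4 * |(j : ℝ) - m| / S.N ≤ ‖S.rot j * z - S.rot m * z‖ := by
          have h5 := S.le_rot_dist (j := j) (l := m) (by rw [habs]; linarith)
          rw [← sub_mul, norm_mul]
          calc 4 * |(j : ℝ) - m| / S.N ≤ ‖S.rot j - S.rot m‖ := h5
            _ = ‖S.rot j - S.rot m‖ * 1 := by ring
            _ ≤ ‖S.rot j - S.rot m‖ * ‖z‖ := by gcongr
        have hd5 : S.c0 * (4 * ((j : ℝ) - m) / S.N) ≤ 2 * ε := by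
          rw [habs] at hd4
          calc S.c0 * (4 * ((j : ℝ) - m) / S.N) ≤ S.c0 * ‖S.rot j * z - S.rot m * z‖ := by gcongr
            _ ≤ _ := hd2
            _ ≤ 2 * ε := hd3
        have hd6 : (j : ℝ) - m ≤ ε * S.N / (2 * S.c0) := by
          rw [le_div_iff₀ (by positivity)]
          rw [← mul_div_assoc, div_le_iff₀ hN] at hd5
          linarith
        have hd7 : j - m ≤ D := by
          apply Nat.le_floor
          rw [Nat.cast_sub hmj]
          exact hd6
        omega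
      calc _ ≤ (Finset.Icc m (m + D)).card := Finset.card_le_card hsub
        _ = D + 1 := by rw [Nat.card_Icc]; omega
  have hmaps : ∀ j ∈ S.badSet z a ε, j / ℓ ∈ Finset.range (S.N / ℓ + 1) := by
    intro j hj
    rw [badSet, Finset.mem_filter, Finset.mem_range] at hj
    rw [Finset.mem_range]
    exact Nat.lt_succ_of_le (Nat.div_le_div_right hj.1.le)
  have hcard := Finset.card_le_mul_card_image_of_maps_to hmaps (D + 1) hfib
  rw [Finset.card_range] at hcard
  have hcardR : ((S.badSet z a ε).card : ℝ) ≤ ((D : ℝ) + 1) * ((S.N / ℓ : ℕ) + 1) := by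
    exact_mod_cast hcard
  have hDR : (D : ℝ) ≤ ε * S.N / (2 * S.c0) := Nat.floor_le (by positivity)
  have hdiv : ((S.N / ℓ : ℕ) : ℝ) ≤ S.N / ℓ := Nat.cast_div_le
  calc ((S.badSet z a ε).card : ℝ) ≤ ((D : ℝ) + 1) * ((S.N / ℓ : ℕ) + 1) := hcardR
    _ ≤ (ε * S.N / (2 * S.c0) + 1) * (S.N / ℓ + 1) := by gcongr

end Setup

end Pool.Agent.MP_6cbd4a_an
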