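import Pool.Agent.MP_6cbd4a_an.Loss2

/-!
# Bound of the defect at the origin
-/

open Complex Metric Set Filter Topology
open scoped ComplexConjugate Real

namespace Pool.Agent.MP_6cbd4a_an

variable {S : Setup} {a : ℂ} {s : ℂ → ℝ}

namespace Setup

variable (S : Setup)

noncomputable def bA : ℝ := Real.log (1 + 256 * S.N ^ 2 * Real.exp S.Mq)

lemma bA_nonneg : 0 ≤ S.bA := Real.log_nonneg (by
  have : 0 ≤ 256 * (S.N : ℝ) ^ 2 * Real.exp S.Mq := by positivity
  linarith)

noncomputable def eps : ℝ := 1 / S.N + 2 * S.R0 * Real.exp (S.Mq + 0) / S.k ^ 3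

lemma eps_nonneg : 0 ≤ S.eps := by
  have h1 := S.NposR
  have h2 := S.kposR
  have h3 := S.hR0
  rw [eps]; positivity

noncomputable def beta (ℓ : ℕ) : ℝ :=
  S.N * (Real.log (2 * S.N) + S.bA)
    + (S.eps * S.N / (2 * S.c0) + 1) * (S.N / ℓ + 1) * (S.bA + S.N)

lemma log2N_nonneg : 0 ≤ Real.log (2 * S.N) := Real.log_nonneg (by linarith [S.N_ge_one])

lemma beta_nonneg (ℓ : ℕ) : 0 ≤ S.beta ℓ := by
  have h1 := S.NposR
  have h2 := S.bA_nonneg
  have h3 := S.log2N_nonneg
  have h4 := S.c0_pos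
  have h5 := S.eps_nonneg
  rw [beta]; positivity

end Setup

lemma Pot.sum_bound (hs : Pot S a s) {z : ℂ} (hz : ‖z‖ ^ S.N = S.N) {ℓ : ℕ} (hℓ : 1 ≤ ℓ)
    (hℓ2 : 2 * ℓ ≤ S.N) (hℓr : 7 * S.R0 * ℓ ≤ S.r0 * S.N) :
    ∑ j ∈ Finset.range S.N, s (S.rot j * z) ≤ S.beta ℓ := by
  classical
  have h1 := S.NposR
  have h2 := S.bA_nonneg
  have h3 := S.log2N_nonneg
  have h5 := S.eps_nonneg
  have hrz : ∀ j, ‖S.rot j * z‖ ^ S.N ≤ S.N := by
    intro j; rw [S.norm_rot_mul, hz]
  have hpt : ∀ j ∈ Finset.range S.N, s (S.rot j * z) ≤ (Real.log (2 * S.N) + S.bA)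
      + if j ∈ S.badSet z a S.eps then (S.bA + S.N) else 0 := by
    intro j hj
    have hite : 0 ≤ if j ∈ S.badSet z a S.eps then (S.bA + S.N) else 0 := by
      split_ifs <;> linarith
    rcases le_or_gt 0 (z ^ S.N).re with hre | hre
    · have h6 := hs.bound_general (hrz j) (le_refl 0) (by rw [S.rot_mul_pow]; linarith)
      rw [← Setup.bA] at h6
      linarith
    · by_cases hO : S.rot j * z ∈ S.Om
      · rcases le_or_gt (1 / (S.N : ℝ)) ‖S.g (S.rot j * z) - a‖ with hd | hd
        · have h6 := hs.le_of_dist (by positivity) hO hd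
          have h7 : 2 / (1 / (S.N : ℝ)) = 2 * S.N := by field_simp
          rw [h7] at h6
          linarith
        · have hbad : j ∈ S.badSet z a S.eps := by
            rw [Setup.badSet, Finset.mem_filter]
            refine ⟨hj, ?_⟩
            have h8 := S.g_sub_F (K := 0) (le_refl 0) (z := S.rot j * z)
              (by linarith [hrz j]) (by rw [S.rot_mul_pow]; exact hre.le)
            have h9 : ‖S.F (S.rot j * z) - a‖ ≤ ‖S.g (S.rot j * z) - S.F (S.rot j * z)‖
                + ‖S.g (S.rot j * z) - a‖ := by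
              have : S.F (S.rot j * z) - a = (S.g (S.rot j * z) - a)
                - (S.g (S.rot j * z) - S.F (S.rot j * z)) := by ring
              rw [this]
              exact (norm_sub_le _ _).trans (by linarith)
            rw [Setup.eps]
            linarith
          have h6 := hs.bound_general (hrz j) (x := S.N) h1.le (by
            rw [S.rot_mul_pow]
            have h7 := Complex.abs_re_le_norm (z ^ S.N)
            rw [norm_pow, hz] at h7
            have := neg_abs_le (z ^ S.N).re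
            linarith)
          rw [← Setup.bA] at h6
          rw [if_pos hbad]
          linarith
      · rw [hs.supp _ hO]
        linarith
  have hcard := S.card_bad h5 hz (a := a) hℓ hℓ2 hℓr
  calc ∑ j ∈ Finset.range S.N, s (S.rot j * z)
      ≤ ∑ j ∈ Finset.range S.N, ((Real.log (2 * S.N) + S.bA)
        + if j ∈ S.badSet z a S.eps then (S.bA + S.N) else 0) := Finset.sum_le_sum hpt
    _ = S.N * (Real.log (2 * S.N) + S.bA)
        + ∑ j ∈ Finset.range S.N, if j ∈ S.badSet z a S.eps then (S.bA + S.N) else 0 := by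
        rw [Finset.sum_add_distrib, Finset.sum_const, Finset.card_range, nsmul_eq_mul]
    _ ≤ S.N * (Real.log (2 * S.N) + S.bA) + (S.badSet z a S.eps).card * (S.bA + S.N) := by
        gcongr
        rw [← Finset.sum_filter, Finset.sum_const, nsmul_eq_mul]
        gcongr
        intro j hj
        exact (Finset.mem_filter.1 hj).2
    _ ≤ S.beta ℓ := by
        rw [Setup.beta]
        gcongr

lemma sqrt_props {w : ℂ} (hw : 0 < w.re) :
    ‖exp (log w / 2)‖ ^ 2 = ‖w‖ ∧ 0 ≤ (exp (log w / 2)).re ∧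
      ‖w‖ ≤ 2 * (exp (log w / 2)).re ^ 2 := by
  have hw0 : w ≠ 0 := by
    intro h; rw [h] at hw; simp at hw
  set u := exp (log w / 2) with hu
  have hu2 : u ^ 2 = w := by
    rw [hu, ← exp_nat_mul]
    push_cast
    rw [mul_div_cancel₀ _ (two_ne_zero), exp_log hw0]
  have h1 : ‖u‖ ^ 2 = ‖w‖ := by rw [← norm_pow, hu2]
  have h2 : 0 ≤ u.re := by
    rw [hu, exp_re]
    apply mul_nonneg (Real.exp_pos _).le
    apply Real.cos_nonneg_of_mem_Icc
    have h3 : |arg w| ≤ π / 2 := abs_arg_le_pi_div_two_iff.2 hw.le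
    have h4 : (log w / 2).im = arg w / 2 := by
      rw [show (2 : ℂ) = ((2 : ℝ) : ℂ) by norm_num, Complex.div_ofReal_im, log_im]
    rw [h4]
    have h5 := abs_le.1 h3
    have := Real.pi_pos
    constructor <;> linarith [h5.1, h5.2]
  refine ⟨h1, h2, ?_⟩
  have h6 : w.re = u.re ^ 2 - u.im ^ 2 := by
    rw [← hu2, sq, Complex.mul_re]; ring
  have h7 : ‖u‖ ^ 2 = u.re ^ 2 + u.im ^ 2 := by
    rw [Complex.sq_norm, Complex.normSq_apply]; ring
  rw [← h1, h7]
  linarith

lemma Pot.zero_bound (hs : Pot S a s) {β A : ℝ} (hβ0 : 0 ≤ β)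
    (hβ : ∀ z : ℂ, ‖z‖ ^ S.N = S.N → ∑ j ∈ Finset.range S.N, s (S.rot j * z) ≤ β)
    (hA : Real.log (8 * S.N ^ 2) + S.Mq + S.K + 2 ≤ A) (hAN : A < S.N) :
    S.N * s 0 ≤ β * √(2 * A / (S.N - A)) := by
  have hN := S.NposR
  have hN1 := S.N_ge_one
  have hlog : 0 ≤ Real.log (8 * S.N ^ 2) := Real.log_nonneg (by nlinarith)
  have hApos : 0 < A := by linarith [S.hMq, S.Kpos]
  set cc : ℝ := √2 / √(S.N - A) with hcc
  have hcc0 : 0 < cc := by
    have : 0 < S.N - A := by linarith
    positivity
  set U : ℂ → ℂ := fun z => exp (log ((A : ℂ) - z ^ S.N) / 2) with hU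
  set V : ℂ → ℝ := fun z => (U z).re * cc with hV
  set D : ℂ → ℝ := fun z => ∑ j ∈ Finset.range S.N, s (S.rot j * z) - β * V z with hD
  set Y : Set ℂ := {z | ‖z‖ ^ S.N ≤ S.N ∧ (z ^ S.N).re ≤ A - 1} with hY
  have hYc : IsCompact Y := by
    apply (isCompact_closedBall (0 : ℂ) S.R0).of_isClosed_subset
    · exact (isClosed_le (continuous_norm.pow _) continuous_const).inter
        (isClosed_le (Complex.continuous_re.comp (continuous_pow _)) continuous_const)
    · intro z hz
      exact ball_subset_closedBall (S.mem_ball_of_pow (by linarith [hz.1]))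
  have hwre : ∀ z : ℂ, (z ^ S.N).re ≤ A - 1 → 0 < ((A : ℂ) - z ^ S.N).re := by
    intro z hz
    rw [Complex.sub_re, Complex.ofReal_re]
    linarith
  have hslit : ∀ z : ℂ, (z ^ S.N).re ≤ A - 1 → (A : ℂ) - z ^ S.N ∈ slitPlane := by
    intro z hz
    exact Or.inl (hwre z hz)
  have hUd : ∀ z : ℂ, (z ^ S.N).re ≤ A - 1 → DifferentiableAt ℂ U z := by
    intro z hz
    have h : DifferentiableAt ℂ (fun x : ℂ => (A : ℂ) - x ^ S.N) z := by fun_prop
    exact ((h.clog (hslit z hz)).div_const 2).cexp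
  have hV0 : ∀ z ∈ Y, 0 ≤ V z := by
    intro z hz
    exact mul_nonneg (sqrt_props (hwre z hz.2)).2.1 hcc0.le
  have hmem : ∀ z ∈ Y, ∀ j, ‖S.rot j * z‖ ^ S.N < 2 * S.N := by
    intro z hz j
    rw [S.norm_rot_mul]
    linarith [hz.1]
  have hDc : ContinuousOn D Y := by
    apply ContinuousOn.sub
    · apply continuousOn_finsetSum
      intro j _
      apply hs.cont.comp (by fun_prop)
      intro z hz
      exact hmem z hz j
    · apply ContinuousOn.mul continuousOn_const
      apply ContinuousOn.mul _ continuousOn_const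
      intro z hz
      exact (Complex.continuous_re.continuousAt.comp (hUd z hz.2).continuousAt).continuousWithinAt
  have hmain := maxP hYc hDc (c := 0) ?_ 0 (by
    constructor
    · rw [norm_zero, zero_pow S.Npos.ne']; exact hN.le
    · rw [zero_pow S.Npos.ne']
      simp only [Complex.zero_re]
      linarith [S.hMq, S.Kpos])
  · -- conclusion
    simp only [hD, mul_zero, Finset.sum_const, Finset.card_range, nsmul_eq_mul] at hmain
    have hV00 : V 0 ≤ √(2 * A / (S.N - A)) := by
      have h1 := sqrt_props (w := (A : ℂ) - 0 ^ S.N) (hwre 0 (by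
        rw [zero_pow S.Npos.ne']; simp only [Complex.zero_re]
        linarith [S.hMq, S.Kpos]))
      have h2 : ‖U 0‖ = √A := by
        rw [← Real.sqrt_sq (norm_nonneg (U 0))]
        congr 1
        simp only [hU]
        rw [h1.1, zero_pow S.Npos.ne', sub_zero, Complex.norm_real, Real.norm_of_nonneg hApos.le]
      have h3 : (U 0).re ≤ √A := by rw [← h2]; exact Complex.re_le_norm _
      have h4 : √(2 * A / (S.N - A)) = √A * cc := by
        rw [Real.sqrt_div (by positivity), Real.sqrt_mul (by norm_num), hcc]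
        ring
      rw [h4]
      simp only [hV]
      gcongr
    calc S.N * s 0 ≤ β * V 0 := by linarith
      _ ≤ β * √(2 * A / (S.N - A)) := by gcongr
  · -- local minorants
    intro z hz hDz
    have hz1 : ‖z‖ ^ S.N < S.N := by
      refine lt_of_le_of_ne hz.1 ?_
      intro heq
      have h1 := hβ z heq
      have h2 : 1 ≤ V z := by
        have h3 := sqrt_props (hwre z hz.2)
        have h4 : S.N - A ≤ ‖(A : ℂ) - z ^ S.N‖ := by
          have h5 : ‖z ^ S.N‖ ≤ ‖(A : ℂ) - z ^ S.N‖ + ‖(A : ℂ)‖ := by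
            have : z ^ S.N = (A : ℂ) - ((A : ℂ) - z ^ S.N) := by ring
            calc ‖z ^ S.N‖ = ‖(A : ℂ) - ((A : ℂ) - z ^ S.N)‖ := by rw [← this]
              _ ≤ ‖(A : ℂ)‖ + ‖(A : ℂ) - z ^ S.N‖ := norm_sub_le _ _
              _ = _ := by ring
          rw [norm_pow, heq, Complex.norm_real, Real.norm_of_nonneg hApos.le] at h5
          linarith
        have h6 : √(S.N - A) ≤ √2 * (U z).re := by
          rw [Real.sqrt_le_left (by have := h3.2.1; positivity), mul_pow,
            Real.sq_sqrt (by norm_num)]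
          linarith [h3.2.2]
        simp only [hV, hcc]
        have h7 : 0 < √(S.N - A) := Real.sqrt_pos.2 (by linarith)
        rw [← mul_div_assoc, le_div_iff₀ h7, one_mul]
        linarith
      have h8 : β * 1 ≤ β * V z := by gcongr
      simp only [hD] at hDz
      linarith
    have hz2 : (z ^ S.N).re < A - 1 := by
      refine lt_of_le_of_ne hz.2 ?_
      intro heq
      have h1 : ∀ j ∈ Finset.range S.N, s (S.rot j * z) = 0 := by
        intro j _
        apply hs.supp
        intro hO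
        have h2 := S.re_bound hO.1.le hO.2
        rw [S.rot_mul_pow, heq] at h2
        linarith
      simp only [hD] at hDz
      rw [Finset.sum_eq_zero h1] at hDz
      have := mul_nonneg hβ0 (hV0 z hz)
      linarith
    have hUo : {z : ℂ | ‖z‖ ^ S.N < S.N ∧ (z ^ S.N).re < A - 1} ∈ 𝓝 z := by
      have hop : IsOpen {z : ℂ | ‖z‖ ^ S.N < S.N ∧ (z ^ S.N).re < A - 1} :=
        (isOpen_lt (continuous_norm.pow _) continuous_const).inter
          (isOpen_lt (Complex.continuous_re.comp (continuous_pow _)) continuous_const)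
      exact hop.mem_nhds ⟨hz1, hz2⟩
    obtain ⟨r1, hr1, hball1⟩ := Metric.mem_nhds_iff.1 hUo
    choose hh rr hrr hsub hdiff hval hle using fun j : ℕ => hs.loc (S.rot j * z) (hmem z hz j)
    have hev : ∀ᶠ r : ℝ in 𝓝[>] 0, (∀ j ∈ Finset.range S.N, r ≤ rr j) ∧ r ≤ r1 ∧ 0 < r := by
      refine ((Filter.eventually_all_finset _).2 fun j _ => ?_).and (Filter.Eventually.and ?_ ?_)
      · exact Filter.mem_of_superset (Ioc_mem_nhdsGT (hrr j)) fun x hx => hx.2
      · exact Filter.mem_of_superset (Ioc_mem_nhdsGT hr1) fun x hx => hx.2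
      · exact self_mem_nhdsWithin
    obtain ⟨r, hrj, hr1', hr0⟩ := hev.exists
    have hbr : ∀ z' ∈ ball z r, ‖z'‖ ^ S.N < S.N ∧ (z' ^ S.N).re < A - 1 := fun z' hz' =>
      hball1 (ball_subset_ball hr1' hz')
    have hrotmem : ∀ z' ∈ ball z r, ∀ j ∈ Finset.range S.N, S.rot j * z' ∈ ball (S.rot j * z) (rr j) := by
      intro z' hz' j hj
      rw [mem_ball, dist_eq_norm, ← mul_sub, S.norm_rot_mul, ← dist_eq_norm]
      exact lt_of_lt_of_le (mem_ball.1 hz') (hrj j hj)
    refine ⟨fun z' => ∑ j ∈ Finset.range S.N, hh j (S.rot j * z') - ((β * cc : ℝ) : ℂ) * U z', r, hr0,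
      ?_, ?_, ?_, ?_⟩
    · intro z' hz'
      exact ⟨(hbr z' hz').1.le, (hbr z' hz').2.le⟩
    · apply DifferentiableOn.sub
      · apply DifferentiableOn.fun_sum
        intro j hj
        apply (hdiff j).comp (by fun_prop)
        intro z' hz'
        exact hrotmem z' hz' j hj
      · apply DifferentiableOn.const_mul
        intro z' hz'
        exact (hUd z' (hbr z' hz').2.le).differentiableWithinAt
    · simp only [hD, hV, Complex.sub_re, Complex.re_sum, Complex.re_ofReal_mul]
      rw [Finset.sum_congr rfl fun j _ => hval j]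
      ring
    · intro z' hz'
      simp only [hD, hV, Complex.sub_re, Complex.re_sum, Complex.re_ofReal_mul]
      have h1 : ∑ j ∈ Finset.range S.N, (hh j (S.rot j * z')).re
          ≤ ∑ j ∈ Finset.range S.N, s (S.rot j * z') :=
        Finset.sum_le_sum fun j hj => hle j _ (hrotmem z' hz' j hj)
      linarith

end Pool.Agent.MP_6cbd4a_an
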