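import Pool.Agent.MP_6cbd4a_an.Loss3

/-!
# The defect at the origin tends to zero
-/

open Complex Metric Set Filter Topology
open scoped ComplexConjugate Real

namespace Pool.Agent.MP_6cbd4a_an

noncomputable def Lc (Mq K : ℝ) : ℝ := 10 + Real.log 16385 + Mq + K

noncomputable def tauc (R0 Mq M2 : ℝ) : ℝ :=
  min (1 / 2) (Real.exp (-(2 * Mq)) / (2 * (M2 + 1)) / (7 * R0))

noncomputable def Ckc (R0 Mq : ℝ) : ℝ :=
  (1 + 16 * R0 * Real.exp (Mq + 0)) / (2 * (Real.exp (-Mq) / 2)) + 1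

noncomputable def C2c (R0 Mq M2 K : ℝ) : ℝ :=
  2 * Lc Mq K + 2 * Ckc R0 Mq * (2 / tauc R0 Mq M2 + 1)

variable {S : Setup} {a : ℂ} {s : ℂ → ℝ}

lemma tauc_pos {R0 Mq M2 : ℝ} (h1 : 0 < R0) (h2 : 0 ≤ M2) : 0 < tauc R0 Mq M2 := by
  rw [tauc]
  apply lt_min (by norm_num)
  positivity

theorem Pot.main (hs : Pot S a s) (h1 : Lc S.Mq S.K ≤ S.k)
    (h2 : 2 ≤ tauc S.R0 S.Mq S.M2 * S.N) :
    s 0 ≤ C2c S.R0 S.Mq S.M2 S.K * √(Lc S.Mq S.K / (2 * S.k)) := by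
  have hN := S.NposR
  have hN1 := S.N_ge_one
  have hk := S.kposR
  have hk1 : (1 : ℝ) ≤ S.k := by exact_mod_cast S.hk
  have hR0 := S.hR0
  have hMq := S.hMq
  have hM2 := S.hM2
  have hK := S.Kpos
  have hNk : (S.N : ℝ) = 8 * (S.k : ℝ) ^ 4 := by rw [S.hN]; push_cast; ring
  set L := Lc S.Mq S.K with hL
  set τ := tauc S.R0 S.Mq S.M2 with hτ
  have hlog16385 : 0 ≤ Real.log 16385 := Real.log_nonneg (by norm_num)
  have hL10 : 10 ≤ L := by rw [hL, Lc]; linarith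
  have hτ0 : 0 < τ := tauc_pos (by linarith) hM2
  have hlogk : Real.log S.k ≤ S.k - 1 := Real.log_le_sub_one_of_pos hk
  have hLk : 10 * (S.k : ℝ) + Real.log 16385 + S.Mq + S.K ≤ L * S.k := by
    have e1 : L * S.k = 10 * S.k + (Real.log 16385 + S.Mq + S.K) * S.k := by
      rw [hL, Lc]; ring
    have e2 : 0 ≤ (Real.log 16385 + S.Mq + S.K) := by linarith
    rw [e1]
    nlinarith
  have hlogmono : ∀ c : ℝ, 0 < c → c ≤ 16385 → ∀ m : ℕ, m ≤ 8 →
      Real.log (c * (S.k : ℝ) ^ m) ≤ Real.log 16385 + 8 * S.k - 8 := by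
    intro c hc hc2 m hm
    rw [Real.log_mul hc.ne' (by positivity), Real.log_pow]
    have e1 : Real.log c ≤ Real.log 16385 := Real.log_le_log hc hc2
    have e2 : (m : ℝ) ≤ 8 := by exact_mod_cast hm
    have e3 : 0 ≤ Real.log S.k := Real.log_nonneg hk1
    nlinarith
  have hlog2N : Real.log (2 * S.N) ≤ L * S.k := by
    have e := hlogmono 16 (by norm_num) (by norm_num) 4 (by norm_num)
    have e2 : 2 * (S.N : ℝ) = 16 * (S.k : ℝ) ^ 4 := by rw [hNk]; ring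
    rw [e2]
    linarith
  have hbA : S.bA ≤ L * S.k := by
    have e := hlogmono 16385 (by norm_num) (by norm_num) 8 (by norm_num)
    have e3 : 1 ≤ (S.k : ℝ) ^ 8 := one_le_pow₀ hk1
    have e4 : 1 ≤ Real.exp S.Mq := Real.one_le_exp hMq
    have e2 : 1 + 256 * (S.N : ℝ) ^ 2 * Real.exp S.Mq ≤ 16385 * (S.k : ℝ) ^ 8 * Real.exp S.Mq := by
      rw [hNk]
      have : 1 ≤ (S.k : ℝ) ^ 8 * Real.exp S.Mq := one_le_mul_of_one_le_of_one_le e3 e4
      nlinarith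
    calc S.bA ≤ Real.log (16385 * (S.k : ℝ) ^ 8 * Real.exp S.Mq) := by
          rw [Setup.bA]
          exact Real.log_le_log (by positivity) e2
      _ = Real.log (16385 * (S.k : ℝ) ^ 8) + S.Mq := by
          rw [Real.log_mul (by positivity) (by positivity), Real.log_exp]
      _ ≤ L * S.k := by linarith
  set A := Real.log (8 * S.N ^ 2) + S.Mq + S.K + 2 with hA
  have hAL : A ≤ L * S.k := by
    have e := hlogmono 512 (by norm_num) (by norm_num) 8 (by norm_num)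
    have e2 : 8 * (S.N : ℝ) ^ 2 = 512 * (S.k : ℝ) ^ 8 := by rw [hNk]; ring
    rw [hA, e2]
    linarith
  have hA0 : 0 < A := by
    have : 0 ≤ Real.log (8 * S.N ^ 2) := Real.log_nonneg (by nlinarith)
    linarith
  have hk4 : (S.k : ℝ) * S.k ≤ (S.k : ℝ) ^ 4 := by
    have e : (1 : ℝ) ≤ (S.k : ℝ) ^ 2 := one_le_pow₀ hk1
    nlinarith
  have hLk2 : L * S.k ≤ (S.k : ℝ) ^ 4 := by
    calc L * S.k ≤ S.k * S.k := by gcongr
      _ ≤ _ := hk4
  have hk4pos : (0 : ℝ) < (S.k : ℝ) ^ 4 := by positivity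
  have hNA : 4 * (S.k : ℝ) ^ 4 ≤ S.N - A := by rw [hNk]; linarith
  -- the block length
  set ℓ := ⌊τ * S.N⌋₊ with hℓ
  have hℓle : (ℓ : ℝ) ≤ τ * S.N := Nat.floor_le (by positivity)
  have hℓge : τ * S.N / 2 ≤ ℓ := by
    have := Nat.lt_floor_add_one (τ * S.N)
    rw [← hℓ] at this
    linarith
  have hℓ1 : 1 ≤ ℓ := by
    have : (1 : ℝ) ≤ ℓ := by linarith
    exact_mod_cast this
  have hℓ2 : 2 * ℓ ≤ S.N := by
    have e1 : τ ≤ 1 / 2 := min_le_left _ _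
    have : 2 * (ℓ : ℝ) ≤ S.N := by nlinarith
    exact_mod_cast this
  have hℓr : 7 * S.R0 * ℓ ≤ S.r0 * S.N := by
    have e1 : τ ≤ S.r0 / (7 * S.R0) := min_le_right _ _
    rw [le_div_iff₀ (by linarith)] at e1
    calc 7 * S.R0 * ℓ ≤ 7 * S.R0 * (τ * S.N) := by gcongr
      _ = (τ * (7 * S.R0)) * S.N := by ring
      _ ≤ S.r0 * S.N := by gcongr
  have hNl : (S.N : ℝ) / ℓ ≤ 2 / τ := by
    have : (0 : ℝ) < ℓ := by linarith
    rw [div_le_div_iff₀ this hτ0]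
    linarith
  have hmain := hs.zero_bound (β := S.beta ℓ) (A := A) (S.beta_nonneg ℓ)
    (fun z hz => hs.sum_bound hz hℓ1 hℓ2 hℓr) (le_refl _) (by linarith)
  -- bound for beta
  have hCk : S.eps * S.N / (2 * S.c0) + 1 ≤ Ckc S.R0 S.Mq * S.k := by
    have e1 : S.eps * S.N = 1 + 16 * S.R0 * Real.exp (S.Mq + 0) * S.k := by
      rw [Setup.eps, add_mul, one_div, inv_mul_cancel₀ hN.ne', hNk]
      field_simp
      ring
    have e2 : 1 + 16 * S.R0 * Real.exp (S.Mq + 0) * S.k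
        ≤ (1 + 16 * S.R0 * Real.exp (S.Mq + 0)) * S.k := by nlinarith
    have hc0 := S.c0_pos
    rw [Ckc, ← Setup.c0, e1, add_mul, one_mul, div_mul_eq_mul_div]
    gcongr
  have hCk0 : 0 ≤ Ckc S.R0 S.Mq := by
    rw [Ckc]; positivity
  have hbAN : S.bA + S.N ≤ 2 * S.N := by
    rw [hNk] at *
    linarith
  have hε : 0 ≤ S.eps * S.N / (2 * S.c0) + 1 := by
    have := S.eps_nonneg
    have := S.c0_pos
    positivity
  have hβ : S.beta ℓ ≤ S.N * (C2c S.R0 S.Mq S.M2 S.K * S.k) := by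
    have hbA0 := S.bA_nonneg
    rw [Setup.beta]
    calc S.N * (Real.log (2 * S.N) + S.bA)
          + (S.eps * S.N / (2 * S.c0) + 1) * (S.N / ℓ + 1) * (S.bA + S.N)
        ≤ S.N * (L * S.k + L * S.k)
          + (Ckc S.R0 S.Mq * S.k) * (2 / τ + 1) * (2 * S.N) := by
          gcongr
      _ = S.N * (C2c S.R0 S.Mq S.M2 S.K * S.k) := by
          rw [C2c, ← hL, ← hτ]; ring
  have hsq : √(2 * A / (S.N - A)) ≤ √(L / (2 * S.k ^ 3)) := by
    apply Real.sqrt_le_sqrt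
    rw [div_le_div_iff₀ (by linarith) (by positivity)]
    calc 2 * A * (2 * (S.k : ℝ) ^ 3) ≤ 2 * (L * S.k) * (2 * (S.k : ℝ) ^ 3) := by gcongr
      _ = L * (4 * (S.k : ℝ) ^ 4) := by ring
      _ ≤ L * (S.N - A) := by gcongr
  have hC20 : 0 ≤ C2c S.R0 S.Mq S.M2 S.K := by
    rw [C2c]
    positivity
  have hsq2 : (S.k : ℝ) * √(L / (2 * S.k ^ 3)) = √(L / (2 * S.k)) := by
    rw [← Real.sqrt_sq hk.le, ← Real.sqrt_mul (by positivity), Real.sqrt_sq hk.le]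
    congr 1
    field_simp
  have hfin : S.N * s 0 ≤ S.N * (C2c S.R0 S.Mq S.M2 S.K * √(L / (2 * S.k))) := by
    calc S.N * s 0 ≤ S.beta ℓ * √(2 * A / (S.N - A)) := hmain
      _ ≤ (S.N * (C2c S.R0 S.Mq S.M2 S.K * S.k)) * √(L / (2 * S.k ^ 3)) := by
          gcongr
      _ = S.N * (C2c S.R0 S.Mq S.M2 S.K * ((S.k : ℝ) * √(L / (2 * S.k ^ 3)))) := by ring
      _ = _ := by rw [hsq2]
  exact le_of_mul_le_mul_left hfin hN

end Pool.Agent.MP_6cbd4a_an
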