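import Pool.Agent.MP_6cbd4a_an.Close

/-!
# Representation as Blaschke product, automorphisms of the disc, extremality
-/

open Complex Metric Set Filter Topology
open scoped ComplexConjugate Real

namespace Pool.Agent.MP_6cbd4a_an

/-- the normalised Blaschke factor -/
noncomputable def bfac (w z : ℂ) : ℂ := ((‖w‖ : ℝ) : ℂ) / w * ((w - z) / (1 - conj w * z))

lemma bfac_eq (w z : ℂ) : bfac w z = -(((‖w‖ : ℝ) : ℂ) / w) * mob w z := by
  rw [bfac, mob]; ring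

lemma norm_unit {w : ℂ} (hw : w ≠ 0) : ‖-(((‖w‖ : ℝ) : ℂ) / w)‖ = 1 := by
  rw [norm_neg, norm_div, Complex.norm_real, norm_norm, div_self (norm_ne_zero_iff.2 hw)]

lemma norm_bfac_le {w z : ℂ} (hw0 : w ≠ 0) (hw : ‖w‖ < 1) (hz : ‖z‖ < 1) : ‖bfac w z‖ ≤ 1 := by
  rw [bfac_eq, norm_mul, norm_unit hw0, one_mul]
  exact norm_mob_le hw hz.le

lemma bfac_zero {w : ℂ} (hw0 : w ≠ 0) : bfac w 0 = ((‖w‖ : ℝ) : ℂ) := by
  rw [bfac]
  simp only [mul_zero, sub_zero, div_one]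
  field_simp

/-- finite Blaschke product times a function almost of modulus one at the origin -/
def GoodF (h : ℂ → ℂ) (ε : ℝ) : Prop :=
  ∃ (S : Finset ℂ) (k : ℂ → ℂ), (∀ w ∈ S, ‖w‖ < 1) ∧ DifferentiableOn ℂ k (ball 0 1) ∧
    (∀ z ∈ ball (0 : ℂ) 1, ‖k z‖ ≤ 1) ∧
    (∀ z ∈ ball (0 : ℂ) 1, h z = (∏ w ∈ S, mob w z) * k z) ∧ 1 - ε < ‖k 0‖

theorem rep_aux {h : ℂ → ℂ} (hd : DifferentiableOn ℂ h (ball 0 1))
    (hb : ∀ z ∈ ball (0 : ℂ) 1, ‖h z‖ ≤ 1) (h0 : h 0 ≠ 0) (hg : ∀ ε : ℝ, 0 < ε → GoodF h ε) :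
    Summable (fun w : {w : ℂ | ‖w‖ < 1 ∧ h w = 0} => 1 - ‖(w : ℂ)‖) ∧
      ∃ c : ℂ, ‖c‖ = 1 ∧ ∀ z ∈ ball (0 : ℂ) 1,
        HasProd (fun w : {w : ℂ | ‖w‖ < 1 ∧ h w = 0} => bfac w z) (h z / c) := by
  classical
  set Z : Set ℂ := {w : ℂ | ‖w‖ < 1 ∧ h w = 0} with hZ
  have h0b : (0 : ℂ) ∈ ball (0 : ℂ) 1 := mem_ball_self one_pos
  have hZ1 : ∀ w : Z, ‖(w : ℂ)‖ < 1 := fun w => w.2.1
  have hZ0 : ∀ w : Z, (w : ℂ) ≠ 0 := by
    intro w hw
    have := w.2.2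
    rw [hw] at this
    exact h0 this
  have hZn : ∀ w : Z, 0 < ‖(w : ℂ)‖ := fun w => norm_pos_iff.2 (hZ0 w)
  -- factorisation for every finite subset
  have key : ∀ T : Finset Z, ∃ κ : ℂ → ℂ, DifferentiableOn ℂ κ (ball 0 1) ∧
      (∀ z ∈ ball (0 : ℂ) 1, ‖κ z‖ ≤ 1) ∧
      ∀ z ∈ ball (0 : ℂ) 1, h z = (∏ w ∈ T, bfac w z) * κ z := by
    intro T
    obtain ⟨k, hk1, hk2, hk3⟩ := exists_div_finset hd hb
      (T.map ⟨Subtype.val, Subtype.val_injective⟩)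
      (by
        intro w hw
        obtain ⟨v, _, rfl⟩ := Finset.mem_map.1 hw
        exact v.2.1)
      (by
        intro w hw
        obtain ⟨v, _, rfl⟩ := Finset.mem_map.1 hw
        exact v.2.2)
    set σ : ℂ := ∏ w ∈ T, -(((‖(w : ℂ)‖ : ℝ) : ℂ) / (w : ℂ)) with hσ
    have hσ1 : ‖σ‖ = 1 := by
      rw [hσ, norm_prod]
      exact Finset.prod_eq_one fun w _ => norm_unit (hZ0 w)
    have hσ0 : σ ≠ 0 := by rw [← norm_pos_iff, hσ1]; exact one_pos
    refine ⟨fun z => σ⁻¹ * k z, hk1.const_mul _, ?_, ?_⟩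
    · intro z hz
      rw [norm_mul, norm_inv, hσ1, inv_one, one_mul]
      exact hk2 z hz
    · intro z hz
      rw [hk3 z hz, Finset.prod_map]
      have h1 : ∏ w ∈ T, bfac (w : ℂ) z = σ * ∏ w ∈ T, mob (w : ℂ) z := by
        rw [hσ, ← Finset.prod_mul_distrib]
        exact Finset.prod_congr rfl fun w _ => bfac_eq _ _
      rw [h1]
      simp only [Function.Embedding.coeFn_mk]
      field_simp
  have hP0 : ∀ T : Finset Z, ∏ w ∈ T, bfac (w : ℂ) 0 = ((∏ w ∈ T, ‖(w : ℂ)‖ : ℝ) : ℂ) := by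
    intro T
    push_cast
    exact Finset.prod_congr rfl fun w _ => bfac_zero (hZ0 w)
  have hPpos : ∀ T : Finset Z, 0 < ∏ w ∈ T, ‖(w : ℂ)‖ := fun T =>
    Finset.prod_pos fun w _ => hZn w
  have hh0 : 0 < ‖h 0‖ := norm_pos_iff.2 h0
  have hPge : ∀ T : Finset Z, ‖h 0‖ ≤ ∏ w ∈ T, ‖(w : ℂ)‖ := by
    intro T
    obtain ⟨κ, _, hκ2, hκ3⟩ := key T
    rw [hκ3 0 h0b, hP0, norm_mul, Complex.norm_real, Real.norm_of_nonneg (hPpos T).le]
    calc _ ≤ (∏ w ∈ T, ‖(w : ℂ)‖) * 1 := by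
          gcongr
          exact hκ2 0 h0b
      _ = _ := mul_one _
  constructor
  · apply summable_of_sum_le (c := -Real.log ‖h 0‖)
    · intro w
      have := hZ1 w
      simp only [Pi.zero_apply]
      linarith
    · intro T
      have h1 : ∀ w ∈ T, 1 - ‖(w : ℂ)‖ ≤ -Real.log ‖(w : ℂ)‖ := by
        intro w _
        have := Real.log_le_sub_one_of_pos (hZn w)
        linarith
      calc ∑ w ∈ T, (1 - ‖(w : ℂ)‖) ≤ ∑ w ∈ T, -Real.log ‖(w : ℂ)‖ := Finset.sum_le_sum h1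
        _ = -Real.log (∏ w ∈ T, ‖(w : ℂ)‖) := by
            rw [Real.log_prod (fun w _ => (hZn w).ne'), Finset.sum_neg_distrib]
        _ ≤ -Real.log ‖h 0‖ := by
            have := Real.log_le_log hh0 (hPge T)
            linarith
  · set c : ℂ := h 0 / ((‖h 0‖ : ℝ) : ℂ) with hc
    have hhc : ((‖h 0‖ : ℝ) : ℂ) ≠ 0 := by exact_mod_cast hh0.ne'
    have hc1 : ‖c‖ = 1 := by
      rw [hc, norm_div, Complex.norm_real, norm_norm, div_self hh0.ne']
    have hc0 : c ≠ 0 := by rw [← norm_pos_iff, hc1]; exact one_pos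
    refine ⟨c, hc1, fun z hz => ?_⟩
    have hz1 : ‖z‖ < 1 := mem_ball_zero_iff.1 hz
    have hz1' : 0 < 1 - ‖z‖ := by linarith
    rw [HasProd, SummationFilter.unconditional_filter, Metric.tendsto_atTop]
    intro ε' hε'
    set Cz : ℝ := 2 * ‖z‖ / (1 - ‖z‖) + 1 with hCz
    have hCz0 : 0 < Cz := by rw [hCz]; positivity
    set ε : ℝ := ε' / (2 * Cz) with hε
    have hε0 : 0 < ε := by rw [hε]; positivity
    obtain ⟨S, k, hS1, hS2, hS3, hS4, hS5⟩ := hg ε hε0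
    have hSZ : ∀ w ∈ S, w ∈ Z := by
      intro w hw
      refine ⟨hS1 w hw, ?_⟩
      have hP : ∏ v ∈ S, mob v w = 0 := Finset.prod_eq_zero hw (mob_self w)
      rw [hS4 w (mem_ball_zero_iff.2 (hS1 w hw)), hP, zero_mul]
    set T0 : Finset Z := S.subtype (· ∈ Z) with hT0
    have hT0prod : ∏ w ∈ T0, ‖(w : ℂ)‖ = ∏ w ∈ S, ‖w‖ :=
      Finset.prod_subtype_of_mem (fun w : ℂ => ‖w‖) hSZ
    have hn0 : ‖h 0‖ = (∏ w ∈ T0, ‖(w : ℂ)‖) * ‖k 0‖ := by
      rw [hT0prod, hS4 0 h0b, norm_mul, norm_prod]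
      congr 1
      refine Finset.prod_congr rfl fun w _ => ?_
      simp [mob]
    refine ⟨T0, fun T hT => ?_⟩
    obtain ⟨κ, hκ1, hκ2, hκ3⟩ := key T
    have hTle : ∏ w ∈ T, ‖(w : ℂ)‖ ≤ ∏ w ∈ T0, ‖(w : ℂ)‖ := by
      rw [← Finset.prod_sdiff hT]
      calc (∏ w ∈ T \ T0, ‖(w : ℂ)‖) * ∏ w ∈ T0, ‖(w : ℂ)‖ ≤ 1 * ∏ w ∈ T0, ‖(w : ℂ)‖ := by
            gcongr
            exact Finset.prod_le_one (fun w _ => norm_nonneg _) fun w _ => (hZ1 w).le
        _ = _ := one_mul _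
    set t : ℝ := ‖h 0‖ / ∏ w ∈ T, ‖(w : ℂ)‖ with ht
    have ht1 : t ≤ 1 := by
      rw [ht, div_le_one (hPpos T)]
      exact hPge T
    have htε : 1 - ε < t := by
      rw [ht, lt_div_iff₀ (hPpos T)]
      rcases le_or_gt (1 - ε) 0 with hneg | hpos
      · calc (1 - ε) * ∏ w ∈ T, ‖(w : ℂ)‖ ≤ 0 := mul_nonpos_of_nonpos_of_nonneg hneg (hPpos T).le
          _ < ‖h 0‖ := hh0
      · calc (1 - ε) * ∏ w ∈ T, ‖(w : ℂ)‖ ≤ (1 - ε) * ∏ w ∈ T0, ‖(w : ℂ)‖ := by gcongr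
          _ < ‖k 0‖ * ∏ w ∈ T0, ‖(w : ℂ)‖ := mul_lt_mul_of_pos_right hS5 (hPpos T0)
          _ = ‖h 0‖ := by rw [hn0]; ring
    have hκ0 : κ 0 / c = (t : ℂ) := by
      have h1 := hκ3 0 h0b
      rw [hP0] at h1
      have hPne : ((∏ w ∈ T, ‖(w : ℂ)‖ : ℝ) : ℂ) ≠ 0 := by exact_mod_cast (hPpos T).ne'
      have h2 : κ 0 = h 0 / ((∏ w ∈ T, ‖(w : ℂ)‖ : ℝ) : ℂ) := by
        rw [eq_div_iff hPne, h1]; ring
      rw [h2, hc, ht, Complex.ofReal_div]
      field_simp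
    have hclose := unit_close (u := fun z => κ z / c) (hκ1.div_const c) (by
      intro u hu
      rw [norm_div, hc1, div_one]
      exact hκ2 u hu) hκ0 hz1 hε0 (by linarith)
    have h3 : ‖κ z / c - 1‖ ≤ ε * Cz := by
      have h4 : ‖κ z / c - 1‖ ≤ ‖κ z / c - t‖ + ‖(t : ℂ) - 1‖ := by
        have : κ z / c - 1 = (κ z / c - t) + ((t : ℂ) - 1) := by ring
        rw [this]; exact norm_add_le _ _
      have h5 : ‖(t : ℂ) - 1‖ ≤ ε := by
        rw [← Complex.ofReal_one, ← Complex.ofReal_sub, Complex.norm_real, Real.norm_eq_abs,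
          abs_sub_comm, abs_of_nonneg (by linarith)]
        linarith
      calc ‖κ z / c - 1‖ ≤ 2 * ε * ‖z‖ / (1 - ‖z‖) + ε := by linarith
        _ = ε * Cz := by rw [hCz]; ring
    have h6 : ‖∏ w ∈ T, bfac (w : ℂ) z‖ ≤ 1 := by
      rw [norm_prod]
      exact Finset.prod_le_one (fun w _ => norm_nonneg _)
        fun w _ => norm_bfac_le (hZ0 w) (hZ1 w) hz1
    rw [dist_eq_norm]
    have h7 : (∏ w ∈ T, bfac (w : ℂ) z) - h z / c
        = -((∏ w ∈ T, bfac (w : ℂ) z) * (κ z / c - 1)) := by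
      rw [hκ3 z hz]; ring
    rw [h7, norm_neg, norm_mul]
    calc ‖∏ w ∈ T, bfac (w : ℂ) z‖ * ‖κ z / c - 1‖ ≤ 1 * (ε * Cz) := by gcongr
      _ = ε' / 2 := by rw [hε]; field_simp
      _ < ε' := by linarith

/-- Blaschke representation of `mob a ∘ f`. -/
theorem rep {f : ℂ → ℂ} (hf : Adm f) {a : ℂ} (ha : ‖a‖ < 1) (hg : ∀ ε : ℝ, 0 < ε → Good f a ε) :
    ∃ (c : ℂ) (m : ℕ) (Z : Set ℂ), ‖c‖ = 1 ∧ Z.Countable ∧ (∀ w ∈ Z, w ≠ 0 ∧ ‖w‖ < 1) ∧
      Summable (fun w : Z => 1 - ‖(w : ℂ)‖) ∧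
      ∀ z ∈ ball (0 : ℂ) 1, ∃ p : ℂ, HasProd (fun w : Z => bfac w z) p ∧
        mob a (f z) = c * z ^ m * p := by
  classical
  have h0b : (0 : ℂ) ∈ ball (0 : ℂ) 1 := mem_ball_self one_pos
  set μ : ℂ → ℂ := fun z => mob a (f z) with hμ
  have hμder : ∀ z ∈ ball (0 : ℂ) 1, ∃ d : ℂ, d ≠ 0 ∧ HasDerivAt μ d z := by
    intro z hz
    have h1 := (hasDerivAt_mob ha (hf.maps z hz).le).comp z
      (hf.diff.differentiableAt (isOpen_ball.mem_nhds hz)).hasDerivAt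
    refine ⟨_, ?_, h1⟩
    apply mul_ne_zero _ (hf.der z hz)
    apply div_ne_zero
    · intro h2
      have h3 : conj a * a = 1 := (sub_eq_zero.1 h2).symm
      rw [Complex.conj_mul'] at h3
      have h4 : ‖a‖ ^ 2 = 1 := by exact_mod_cast h3
      have := norm_nonneg a
      nlinarith
    · exact pow_ne_zero _ (den_ne ha (hf.maps z hz).le)
  have hμd : DifferentiableOn ℂ μ (ball 0 1) := by
    intro z hz
    obtain ⟨d, _, hd⟩ := hμder z hz
    exact hd.differentiableAt.differentiableWithinAt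
  have hμb : ∀ z ∈ ball (0 : ℂ) 1, ‖μ z‖ ≤ 1 := fun z hz => norm_mob_le ha (hf.maps z hz).le
  -- general conclusion from a zero-free-at-0 factor
  have hfin : ∀ (h : ℂ → ℂ) (m : ℕ), DifferentiableOn ℂ h (ball 0 1) →
      (∀ z ∈ ball (0 : ℂ) 1, ‖h z‖ ≤ 1) → h 0 ≠ 0 → (∀ ε : ℝ, 0 < ε → GoodF h ε) →
      (∀ z ∈ ball (0 : ℂ) 1, μ z = z ^ m * h z) →
      ∃ (c : ℂ) (m : ℕ) (Z : Set ℂ), ‖c‖ = 1 ∧ Z.Countable ∧ (∀ w ∈ Z, w ≠ 0 ∧ ‖w‖ < 1) ∧
      Summable (fun w : Z => 1 - ‖(w : ℂ)‖) ∧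
      ∀ z ∈ ball (0 : ℂ) 1, ∃ p : ℂ, HasProd (fun w : Z => bfac w z) p ∧
        mob a (f z) = c * z ^ m * p := by
    intro h m h1 h2 h3 h4 h5
    obtain ⟨hsum, c, hc1, hc2⟩ := rep_aux h1 h2 h3 h4
    have hc0 : c ≠ 0 := by rw [← norm_pos_iff, hc1]; exact one_pos
    refine ⟨c, m, {w : ℂ | ‖w‖ < 1 ∧ h w = 0}, hc1, ?_, ?_, hsum, ?_⟩
    · have h6 := hsum.countable_support
      have h7 : Function.support (fun w : {w : ℂ | ‖w‖ < 1 ∧ h w = 0} => 1 - ‖(w : ℂ)‖) = univ := by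
        rw [Function.support_eq_univ]
        intro w hw
        have := w.2.1
        linarith
      rw [h7, Set.countable_univ_iff] at h6
      exact Set.countable_coe_iff.1 h6
    · intro w hw
      refine ⟨?_, hw.1⟩
      intro hw0
      have := hw.2
      rw [hw0] at this
      exact h3 this
    · intro z hz
      refine ⟨h z / c, hc2 z hz, ?_⟩
      show μ z = _
      rw [h5 z hz]
      field_simp
  by_cases hμ0 : μ 0 = 0
  · -- simple zero at the origin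
    obtain ⟨d, hd0, hd⟩ := hμder 0 h0b
    set h : ℂ → ℂ := dslope μ 0 with hh
    have hhd : DifferentiableOn ℂ h (ball 0 1) :=
      (differentiableOn_dslope (isOpen_ball.mem_nhds h0b)).mpr hμd
    have hh0 : h 0 = d := by rw [hh, dslope_same, hd.deriv]
    have hfac : ∀ z : ℂ, μ z = z * h z := by
      intro z
      have h3 : (z - 0) • dslope μ 0 z = μ z - μ 0 := sub_smul_dslope μ 0 z
      rw [hμ0, sub_zero, sub_zero, smul_eq_mul] at h3
      exact h3.symm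
    apply hfin h 1 hhd ?_ (by rw [hh0]; exact hd0) ?_ (fun z _ => by rw [pow_one]; exact hfac z)
    · intro z hz
      have h1 := Complex.norm_dslope_le_div_of_mapsTo_ball (R₂ := 1) hμd (by
        intro u hu
        rw [hμ0, mem_closedBall_zero_iff]
        exact hμb u hu) hz
      rwa [div_one] at h1
    · intro ε hε
      obtain ⟨S, k, hS1, hS2, hS3, hS4, hS5⟩ := hg (min ε 1) (lt_min hε one_pos)
      have h0S : (0 : ℂ) ∈ S := by
        by_contra hcon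
        have h1 : μ 0 = (∏ w ∈ S, mob w 0) * k 0 := hS4 0 h0b
        rw [hμ0] at h1
        rcases mul_eq_zero.1 h1.symm with h2 | h2
        · rw [Finset.prod_eq_zero_iff] at h2
          obtain ⟨v, hv, hv2⟩ := h2
          rw [mob_eq_zero (hS1 v hv) (by simp)] at hv2
          exact hcon (hv2 ▸ hv)
        · rw [h2, norm_zero] at hS5
          have := min_le_right ε 1
          linarith
      refine ⟨S.erase 0, k, fun w hw => hS1 w (Finset.mem_of_mem_erase hw), hS2, hS3, ?_,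
        lt_of_le_of_lt (by linarith [min_le_left ε 1]) hS5⟩
      have hne : ∀ z ∈ ball (0 : ℂ) 1, z ≠ 0 → h z = (∏ w ∈ S.erase 0, mob w z) * k z := by
        intro z hz hz0
        have h1 : μ z = (∏ w ∈ S, mob w z) * k z := hS4 z hz
        rw [hfac z, ← Finset.mul_prod_erase S (fun w => mob w z) h0S, mob_zero_left, mul_assoc] at h1
        exact mul_left_cancel₀ hz0 h1
      intro z hz
      by_cases hz0 : z = 0
      · rw [hz0]
        have hc1 : ContinuousAt h 0 :=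
          (hhd.differentiableAt (isOpen_ball.mem_nhds h0b)).continuousAt
        have hc2 : ContinuousAt (fun z => (∏ w ∈ S.erase 0, mob w z) * k z) 0 := by
          have h2 : DifferentiableAt ℂ (fun z => ∏ w ∈ S.erase 0, mob w z) 0 := by
            apply DifferentiableAt.fun_finsetProd
            intro v hv
            exact differentiableAt_mob (hS1 v (Finset.mem_of_mem_erase hv)) (by simp)
          exact h2.continuousAt.mul
            (hS2.differentiableAt (isOpen_ball.mem_nhds h0b)).continuousAt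
        have h3 : h =ᶠ[𝓝[≠] 0] fun z => (∏ w ∈ S.erase 0, mob w z) * k z := by
          filter_upwards [self_mem_nhdsWithin,
            nhdsWithin_le_nhds (isOpen_ball.mem_nhds h0b)] with u hu1 hu2
          exact hne u hu2 hu1
        exact ((hc1.eventuallyEq_nhds_iff_eventuallyEq_nhdsNE hc2).1 h3).eq_of_nhds
      · exact hne z hz hz0
  · exact hfin μ 0 hμd hμb hμ0 (fun ε hε => hg ε hε) (fun z _ => by rw [pow_zero, one_mul])

/-- Automorphisms of the disc. -/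
theorem aut_form {T T' : ℂ → ℂ} (hT : DifferentiableOn ℂ T (ball 0 1))
    (hTm : MapsTo T (ball 0 1) (ball 0 1)) (hT' : DifferentiableOn ℂ T' (ball 0 1))
    (hT'm : MapsTo T' (ball 0 1) (ball 0 1)) (h1 : ∀ z ∈ ball (0 : ℂ) 1, T' (T z) = z)
    (h2 : ∀ z ∈ ball (0 : ℂ) 1, T (T' z) = z) :
    ∃ a c : ℂ, ‖a‖ < 1 ∧ ‖c‖ = 1 ∧ ∀ z ∈ ball (0 : ℂ) 1, T z = c * mob a z := by
  have h0b : (0 : ℂ) ∈ ball (0 : ℂ) 1 := mem_ball_self one_pos
  set a : ℂ := T' 0 with ha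
  have ha1 : ‖a‖ < 1 := mem_ball_zero_iff.1 (hT'm h0b)
  have hna1 : ‖-a‖ < 1 := by rwa [norm_neg]
  have hmaps1 : MapsTo (mob (-a)) (ball 0 1) (ball 0 1) := fun z hz =>
    mem_ball_zero_iff.2 (norm_mob_lt hna1 (mem_ball_zero_iff.1 hz))
  have hmaps2 : MapsTo (mob a) (ball 0 1) (ball 0 1) := fun z hz =>
    mem_ball_zero_iff.2 (norm_mob_lt ha1 (mem_ball_zero_iff.1 hz))
  set g : ℂ → ℂ := fun z => T (mob (-a) z) with hg
  set g' : ℂ → ℂ := fun z => mob a (T' z) with hg'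
  have hgd : DifferentiableOn ℂ g (ball 0 1) := hT.comp (differentiableOn_mob hna1) hmaps1
  have hg'd : DifferentiableOn ℂ g' (ball 0 1) := (differentiableOn_mob ha1).comp hT' hT'm
  have hgm : MapsTo g (ball 0 1) (ball 0 1) := hTm.comp hmaps1
  have hg'm : MapsTo g' (ball 0 1) (ball 0 1) := hmaps2.comp hT'm
  have hg0 : g 0 = 0 := by
    have e : mob (-a) 0 = a := by simp [mob]
    show T (mob (-a) 0) = 0
    rw [e]
    exact h2 0 h0b
  have hg'0 : g' 0 = 0 := by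
    simp only [hg', ← ha, mob_self]
  have hgg : ∀ z ∈ ball (0 : ℂ) 1, g' (g z) = z := by
    intro z hz
    simp only [hg, hg']
    rw [h1 _ (hmaps1 hz), mob_mob_neg ha1 (mem_ball_zero_iff.1 hz).le]
  have hnorm : ∀ z ∈ ball (0 : ℂ) 1, ‖g z‖ = ‖z‖ := by
    intro z hz
    have hz1 := mem_ball_zero_iff.1 hz
    have e1 := Complex.norm_le_norm_of_mapsTo_ball hgd (hgm.mono_right ball_subset_closedBall) hg0 hz1
    have e2 := Complex.norm_le_norm_of_mapsTo_ball hg'd (hg'm.mono_right ball_subset_closedBall) hg'0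
      (mem_ball_zero_iff.1 (hgm hz))
    rw [hgg z hz] at e2
    exact le_antisymm e1 e2
  have hhalf : (1 / 2 : ℂ) ∈ ball (0 : ℂ) 1 := by
    rw [mem_ball_zero_iff]; norm_num
  obtain ⟨c, hc1, hc2⟩ := Complex.affine_of_mapsTo_ball_of_exists_norm_dslope_eq_div' (f := g)
    (c := 0) (R₁ := 1) (R₂ := 1) hgd
    (by rw [hg0]; exact hgm.mono_right ball_subset_closedBall) ⟨1 / 2, hhalf, by
      have hne : (1 / 2 : ℂ) ≠ 0 := by norm_num
      rw [dslope_of_ne _ hne, slope_def_field, hg0, sub_zero, sub_zero, norm_div, hnorm _ hhalf,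
        div_self (norm_ne_zero_iff.2 hne), div_one]⟩
  refine ⟨a, c, ha1, by rw [hc1, div_one], ?_⟩
  intro z hz
  have e1 := hc2 (hmaps2 hz)
  simp only [hg, sub_zero, smul_eq_mul] at e1
  rw [mob_neg_mob ha1 (mem_ball_zero_iff.1 hz).le] at e1
  rw [e1]
  have e2 : T (mob (-a) 0) = 0 := hg0
  rw [e2, zero_add, mul_comm]

/-- The extremal self-map for the derivative at the origin is the identity up to rotation. -/
theorem schwarz_extremal {F : ℂ → ℂ} (hd : DifferentiableOn ℂ F (ball 0 1))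
    (hm : ∀ z ∈ ball (0 : ℂ) 1, ‖F z‖ < 1) (hder : 1 ≤ (deriv F 0).re) :
    InjOn F (ball 0 1) := by
  have h0b : (0 : ℂ) ∈ ball (0 : ℂ) 1 := mem_ball_self one_pos
  set b : ℂ := F 0 with hb
  have hb1 : ‖b‖ < 1 := hm 0 h0b
  have hnd : 1 ≤ ‖deriv F 0‖ := hder.trans (Complex.re_le_norm _)
  set g : ℂ → ℂ := fun z => mob b (F z) with hg
  have hgd : DifferentiableOn ℂ g (ball 0 1) :=
    (differentiableOn_mob hb1).comp hd fun z hz => mem_ball_zero_iff.2 (hm z hz)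
  have hg0 : g 0 = 0 := by simp only [hg, ← hb, mob_self]
  have hgm : MapsTo g (ball 0 1) (closedBall (g 0) 1) := by
    intro z hz
    rw [hg0, mem_closedBall_zero_iff]
    exact norm_mob_le hb1 (hm z hz).le
  have hgder : HasDerivAt g ((1 - conj b * b) / (1 - conj b * F 0) ^ 2 * deriv F 0) 0 :=
    (hasDerivAt_mob hb1 (hm 0 h0b).le).comp 0
      (hd.differentiableAt (isOpen_ball.mem_nhds h0b)).hasDerivAt
  have hn := Complex.norm_deriv_le_one_of_mapsTo_ball hgd hgm one_pos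
  have hbb : (1 : ℂ) - conj b * b = ((1 - ‖b‖ ^ 2 : ℝ) : ℂ) := by
    rw [Complex.conj_mul']; push_cast; ring
  have hpos : 0 < 1 - ‖b‖ ^ 2 := by
    have := norm_nonneg b
    nlinarith
  rw [hgder.deriv, norm_mul, norm_div, norm_pow, ← hb, hbb, Complex.norm_real,
    Real.norm_of_nonneg hpos.le] at hn
  have hn2 : ‖deriv F 0‖ ≤ 1 - ‖b‖ ^ 2 := by
    have e : (1 - ‖b‖ ^ 2) / (1 - ‖b‖ ^ 2) ^ 2 * ‖deriv F 0‖ = ‖deriv F 0‖ / (1 - ‖b‖ ^ 2) := by
      field_simp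
    rw [e, div_le_one hpos] at hn
    exact hn
  have hb0 : b = 0 := by
    have : ‖b‖ ^ 2 ≤ 0 := by linarith
    have h3 : ‖b‖ = 0 := by
      have := norm_nonneg b
      nlinarith
    exact norm_eq_zero.1 h3
  have hn3 : ‖deriv F 0‖ = 1 := by
    rw [hb0, norm_zero] at hn2
    apply le_antisymm _ hnd
    linarith
  obtain ⟨c, hc1, hc2⟩ := Complex.affine_of_mapsTo_ball_of_exists_norm_dslope_eq_div' (f := F)
    (c := 0) (R₁ := 1) (R₂ := 1) hd
    (by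
      intro z hz
      rw [← hb, hb0, mem_closedBall_zero_iff]
      exact (hm z hz).le) ⟨0, h0b, by rw [dslope_same, hn3, div_one]⟩
  rw [div_one] at hc1
  have hc0 : c ≠ 0 := by rw [← norm_pos_iff, hc1]; exact one_pos
  intro z hz w hw hzw
  rw [hc2 hz, hc2 hw] at hzw
  simp only [sub_zero, smul_eq_mul, add_right_inj] at hzw
  exact mul_right_cancel₀ hc0 hzw

end Pool.Agent.MP_6cbd4a_an
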