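import Pool.Agent.MP_6cbd4a_an.Tools

/-!
# Openness of the condition `Good`
-/

open Complex Metric Set Filter Topology
open scoped ComplexConjugate Real

namespace Pool.Agent.MP_6cbd4a_an

/-- From nearby points to a convergent selection. -/
lemma exists_selection {P : ℕ → ℂ → Prop} {w : ℂ}
    (h : ∀ t : ℝ, 0 < t → ∀ᶠ n : ℕ in atTop, ∃ z, dist z w < t ∧ P n z) :
    ∃ z : ℕ → ℂ, Tendsto z atTop (𝓝 w) ∧ ∀ᶠ n in atTop, P n (z n) := by
  classical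
  have hsel : ∀ n : ℕ, ∃ z : ℂ, (∃ u, P n u) → (P n z ∧
      dist w z < infDist w {u | P n u} + 1 / ((n : ℝ) + 1)) := by
    intro n
    by_cases hex : ∃ u, P n u
    · have h1 : infDist w {u | P n u} < infDist w {u | P n u} + 1 / ((n : ℝ) + 1) := by
        have : (0 : ℝ) < 1 / ((n : ℝ) + 1) := by positivity
        linarith
      obtain ⟨y, hy, hyd⟩ := (Metric.infDist_lt_iff (s := {u | P n u}) hex).1 h1
      exact ⟨y, fun _ => ⟨hy, hyd⟩⟩
    · exact ⟨0, fun h => absurd h hex⟩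
  choose z hz using hsel
  refine ⟨z, ?_, ?_⟩
  · rw [Metric.tendsto_nhds]
    intro t ht
    have h2 : ∀ᶠ n : ℕ in atTop, 1 / ((n : ℝ) + 1) < t / 2 :=
      tendsto_one_div_add_atTop_nhds_zero_nat.eventually (gt_mem_nhds (by positivity))
    filter_upwards [h (t / 2) (by positivity), h2] with n hn1 hn2
    obtain ⟨u, hu1, hu2⟩ := hn1
    have h3 := (hz n ⟨u, hu2⟩).2
    have h4 : infDist w {u | P n u} ≤ dist w u := infDist_le_dist_of_mem hu2
    rw [dist_comm] at hu1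
    rw [dist_comm]
    linarith
  · filter_upwards [h 1 one_pos] with n hn
    obtain ⟨u, _, hu2⟩ := hn
    exact (hz n ⟨u, hu2⟩).1

lemma Adm.eventually_ne {f : ℂ → ℂ} (hf : Adm f) {w : ℂ} (hw : w ∈ ball (0 : ℂ) 1) (c : ℂ) :
    ∀ᶠ z in 𝓝[≠] w, f z ≠ c :=
  (hf.diff.differentiableAt (isOpen_ball.mem_nhds hw)).hasDerivAt.eventually_ne (hf.der w hw)

theorem good_seq {f : ℕ → ℂ → ℂ} {f0 : ℂ → ℂ} (hf : ∀ n, DifferentiableOn ℂ (f n) (ball 0 1))
    (hfm : ∀ n, ∀ z ∈ ball (0 : ℂ) 1, ‖f n z‖ < 1) (h0 : Adm f0)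
    (hlim : TendstoLocallyUniformlyOn f f0 atTop (ball 0 1))
    {a : ℕ → ℂ} {a0 : ℂ} (ha : ∀ n, ‖a n‖ < 1) (ha0 : ‖a0‖ < 1) (halim : Tendsto a atTop (𝓝 a0))
    {ε : ℝ} (hg : Good f0 a0 ε) : ∀ᶠ n in atTop, Good (f n) (a n) ε := by
  classical
  obtain ⟨S, k, hS, hkd, hkb, hfac, hk0⟩ := hg
  have hSb : ∀ w ∈ S, w ∈ ball (0 : ℂ) 1 := fun w hw => mem_ball_zero_iff.2 (hS w hw)
  have h0b : (0 : ℂ) ∈ ball (0 : ℂ) 1 := mem_ball_self one_pos
  have hpt : ∀ z ∈ ball (0 : ℂ) 1, Tendsto (fun n => f n z) atTop (𝓝 (f0 z)) := fun z hz =>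
    hlim.tendsto_at hz
  have hSa : ∀ w ∈ S, f0 w = a0 := by
    intro w hw
    have h1 := hfac w (hSb w hw)
    have hP : ∏ v ∈ S, mob v w = 0 := Finset.prod_eq_zero hw (mob_self w)
    rw [hP, zero_mul, mob_eq_zero ha0 (h0.maps w (hSb w hw)).le] at h1
    exact h1
  -- nearby zeros
  have hsub : TendstoLocallyUniformlyOn (fun n z => f n z - a n) (fun z => f0 z - a0) atTop
      (ball 0 1) := by
    apply hlim.fun_sub
    apply TendstoUniformlyOn.tendstoLocallyUniformlyOn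
    exact halim.tendstoUniformlyOn_const _
  have hzeros : ∀ w : ℂ, ∃ z : ℕ → ℂ, w ∈ S → (Tendsto z atTop (𝓝 w) ∧
      ∀ᶠ n in atTop, z n ∈ ball (0 : ℂ) 1 ∧ f n (z n) = a n) := by
    intro w
    by_cases hw : w ∈ S
    · obtain ⟨z, hz1, hz2⟩ := exists_selection (w := w)
        (P := fun n z => z ∈ ball (0 : ℂ) 1 ∧ f n z = a n) (by
        intro t ht
        have h1 := hurwitz isOpen_ball (l := atTop) (f := fun n z => f n z - a n)
          (g := fun z => f0 z - a0)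
          (Eventually.of_forall fun n => (hf n).sub (differentiableOn_const _))
          (h0.diff.sub (differentiableOn_const _)) hsub (hSb w hw)
          (by simp [hSa w hw]) (by
            filter_upwards [h0.eventually_ne (hSb w hw) a0] with z hz
            exact sub_ne_zero.2 hz) ht
        filter_upwards [h1] with n hn
        obtain ⟨z, hz1, hz2, hz3⟩ := hn
        exact ⟨z, hz1, hz2, sub_eq_zero.1 hz3⟩)
      exact ⟨z, fun _ => ⟨hz1, hz2⟩⟩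
    · exact ⟨fun _ => 0, fun h => absurd h hw⟩
  choose Z hZ using hzeros
  -- choice of p
  obtain ⟨p, hpb, hpS, hpk⟩ : ∃ p ∈ ball (0 : ℂ) 1, p ∉ S ∧ 1 - ε + 2 * ‖p‖ < ‖k p‖ := by
    have h1 : ∀ᶠ p in 𝓝[≠] (0 : ℂ), ∀ w ∈ S, p ≠ w := by
      refine (Filter.eventually_all_finset S).2 fun w _ => ?_
      by_cases hw0 : w = 0
      · rw [hw0]; exact self_mem_nhdsWithin
      · exact Filter.Eventually.filter_mono nhdsWithin_le_nhds (isOpen_ne.mem_nhds (Ne.symm hw0))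
    have h2 : ∀ᶠ p in 𝓝[≠] (0 : ℂ), 1 - ε + 2 * ‖p‖ < ‖k p‖ := by
      have hkc : ContinuousAt k 0 := (hkd.differentiableAt (isOpen_ball.mem_nhds h0b)).continuousAt
      have h3 : ∀ᶠ p in 𝓝 (0 : ℂ), 1 - ε + 2 * ‖p‖ < ‖k p‖ := by
        apply ContinuousAt.eventually_lt _ hkc.norm
        · simpa using hk0
        · fun_prop
      exact h3.filter_mono nhdsWithin_le_nhds
    have h3 : ∀ᶠ p in 𝓝[≠] (0 : ℂ), p ∈ ball (0 : ℂ) 1 :=
      Filter.Eventually.filter_mono nhdsWithin_le_nhds (isOpen_ball.mem_nhds h0b)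
    obtain ⟨p, hp1, hp2, hp3⟩ := (h1.and (h2.and h3)).exists
    exact ⟨p, hp3, fun hp => hp1 p hp rfl, hp2⟩
  have hpn : ‖p‖ < 1 := mem_ball_zero_iff.1 hpb
  -- eventual properties
  have hev1 : ∀ᶠ n in atTop, ∀ w ∈ S, Z w n ∈ ball (0 : ℂ) 1 ∧ f n (Z w n) = a n :=
    (Filter.eventually_all_finset S).2 fun w hw => (hZ w hw).2
  have hev2 : ∀ᶠ n in atTop, ∀ w ∈ S, ∀ w' ∈ S, w ≠ w' → Z w n ≠ Z w' n := by
    refine (Filter.eventually_all_finset S).2 fun w hw => ?_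
    refine (Filter.eventually_all_finset S).2 fun w' hw' => ?_
    by_cases hww : w = w'
    · exact Eventually.of_forall fun n h => absurd hww h
    · have h1 := (hZ w hw).1.sub (hZ w' hw').1
      have h2 : ∀ᶠ n in atTop, Z w n - Z w' n ≠ 0 := h1.eventually_ne (sub_ne_zero.2 hww)
      filter_upwards [h2] with n hn _
      exact sub_ne_zero.1 hn
  have hprodne : ∏ w ∈ S, mob w p ≠ 0 := by
    rw [Finset.prod_ne_zero_iff]
    intro w hw h1
    rw [mob_eq_zero (hS w hw) hpn.le] at h1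
    exact hpS (h1 ▸ hw)
  have hprod : Tendsto (fun n => ∏ w ∈ S, mob (Z w n) p) atTop (𝓝 (∏ w ∈ S, mob w p)) := by
    apply tendsto_finsetProd
    intro w hw
    have h1 : ContinuousAt (fun x : ℂ × ℂ => mob x.1 x.2) (w, p) :=
      continuousAt_mob₂ (hS w hw) hpn.le
    exact h1.tendsto.comp ((hZ w hw).1.prodMk_nhds tendsto_const_nhds)
  have hmobf : Tendsto (fun n => mob (a n) (f n p)) atTop (𝓝 (mob a0 (f0 p))) := by
    have h1 : ContinuousAt (fun x : ℂ × ℂ => mob x.1 x.2) (a0, f0 p) :=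
      continuousAt_mob₂ ha0 (h0.maps p hpb).le
    exact h1.tendsto.comp (halim.prodMk_nhds (hpt p hpb))
  have hratio : Tendsto (fun n => ‖mob (a n) (f n p)‖ / ‖∏ w ∈ S, mob (Z w n) p‖) atTop
      (𝓝 ‖k p‖) := by
    have h1 := hmobf.norm.div hprod.norm (norm_ne_zero_iff.2 hprodne)
    rw [hfac p hpb, norm_mul, mul_div_cancel_left₀ _ (norm_ne_zero_iff.2 hprodne)] at h1
    exact h1
  have hev3 : ∀ᶠ n in atTop, 1 - ε + 2 * ‖p‖
      < ‖mob (a n) (f n p)‖ / ‖∏ w ∈ S, mob (Z w n) p‖ := hratio.eventually (lt_mem_nhds hpk)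
  have hev4 : ∀ᶠ n in atTop, ∏ w ∈ S, mob (Z w n) p ≠ 0 := hprod.eventually_ne hprodne
  filter_upwards [hev1, hev2, hev3, hev4] with n hn1 hn2 hn3 hn4
  have hinj : ∀ w ∈ S, ∀ w' ∈ S, Z w n = Z w' n → w = w' := by
    intro w hw w' hw' h
    by_contra hne
    exact hn2 w hw w' hw' hne h
  have hprodimg : ∀ z : ℂ, ∏ v ∈ S.image (fun w => Z w n), mob v z = ∏ w ∈ S, mob (Z w n) z :=
    fun z => Finset.prod_image (fun w hw w' hw' h => hinj w hw w' hw' h)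
  have hmd : DifferentiableOn ℂ (fun z => mob (a n) (f n z)) (ball 0 1) := by
    intro z hz
    exact ((differentiableAt_mob (ha n) (hfm n z hz).le).comp z
      ((hf n).differentiableAt (isOpen_ball.mem_nhds hz))).differentiableWithinAt
  obtain ⟨kn, hkn1, hkn2, hkn3⟩ := exists_div_finset hmd
    (fun z hz => norm_mob_le (ha n) (hfm n z hz).le) (S.image (fun w => Z w n))
    (by
      intro v hv
      obtain ⟨w, hw, rfl⟩ := Finset.mem_image.1 hv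
      exact mem_ball_zero_iff.1 (hn1 w hw).1)
    (by
      intro v hv
      obtain ⟨w, hw, rfl⟩ := Finset.mem_image.1 hv
      show mob (a n) (f n (Z w n)) = 0
      rw [(hn1 w hw).2, mob_self])
  refine ⟨S.image (fun w => Z w n), kn, ?_, hkn1, hkn2, hkn3, ?_⟩
  · intro v hv
    obtain ⟨w, hw, rfl⟩ := Finset.mem_image.1 hv
    exact mem_ball_zero_iff.1 (hn1 w hw).1
  · have h1 := hkn3 p hpb
    rw [hprodimg] at h1
    have h2 : ‖kn p‖ = ‖mob (a n) (f n p)‖ / ‖∏ w ∈ S, mob (Z w n) p‖ := by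
      rw [h1, norm_mul, mul_div_cancel_left₀ _ (norm_ne_zero_iff.2 hn4)]
    have h3 : dist (kn p) (kn 0) ≤ 2 / 1 * dist p 0 := by
      apply Complex.dist_le_div_mul_dist_of_mapsTo_ball hkn1 _ hpb
      intro z hz
      rw [mem_closedBall]
      calc dist (kn z) (kn 0) ≤ ‖kn z‖ + ‖kn 0‖ := by
            rw [dist_eq_norm]; exact norm_sub_le _ _
        _ ≤ 2 := by linarith [hkn2 z hz, hkn2 0 h0b]
    rw [dist_eq_norm, dist_zero_right] at h3
    have h4 : ‖kn p‖ ≤ ‖kn p - kn 0‖ + ‖kn 0‖ := by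
      have := norm_add_le (kn p - kn 0) (kn 0)
      simpa using this
    linarith

/-- Uniform openness -/
theorem good_open {f0 : ℂ → ℂ} (h0 : Adm f0) {R ε : ℝ} (hR : R < 1)
    (hg : ∀ a : ℂ, ‖a‖ ≤ R → Good f0 a ε) :
    ∃ r' δ' : ℝ, r' < 1 ∧ 0 < δ' ∧ ∀ f : ℂ → ℂ, DifferentiableOn ℂ f (ball 0 1) →
      (∀ z ∈ ball (0 : ℂ) 1, ‖f z‖ < 1) → (∀ z : ℂ, ‖z‖ ≤ r' → ‖f z - f0 z‖ ≤ δ') →
      ∀ a : ℂ, ‖a‖ ≤ R → Good f a ε := by
  classical
  by_contra hcon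
  push Not at hcon
  have hseq : ∀ n : ℕ, ∃ (f : ℂ → ℂ) (a : ℂ), DifferentiableOn ℂ f (ball 0 1) ∧
      (∀ z ∈ ball (0 : ℂ) 1, ‖f z‖ < 1) ∧
      (∀ z : ℂ, ‖z‖ ≤ 1 - 1 / ((n : ℝ) + 1) → ‖f z - f0 z‖ ≤ 1 / ((n : ℝ) + 1)) ∧
      ‖a‖ ≤ R ∧ ¬ Good f a ε := by
    intro n
    have hpos : (0 : ℝ) < 1 / ((n : ℝ) + 1) := by positivity
    obtain ⟨f, hf1, hf2, hf3, a, ha1, ha2⟩ := hcon (1 - 1 / ((n : ℝ) + 1)) (1 / ((n : ℝ) + 1))
      (by linarith) hpos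
    exact ⟨f, a, hf1, hf2, hf3, ha1, ha2⟩
  choose f a hf1 hf2 hf3 ha1 ha2 using hseq
  obtain ⟨a0, ha0, φ, hφ, hlim⟩ := (isCompact_closedBall (0 : ℂ) R).tendsto_subseq
    (x := a) (fun n => mem_closedBall_zero_iff.2 (ha1 n))
  have ha0R : ‖a0‖ ≤ R := mem_closedBall_zero_iff.1 ha0
  have htend : Tendsto (fun n : ℕ => 1 / (((φ n : ℕ) : ℝ) + 1)) atTop (𝓝 0) :=
    tendsto_one_div_add_atTop_nhds_zero_nat.comp hφ.tendsto_atTop
  have hflim : TendstoLocallyUniformlyOn (fun n => f (φ n)) f0 atTop (ball 0 1) := by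
    rw [tendstoLocallyUniformlyOn_iff_forall_isCompact isOpen_ball]
    intro Kc hKc hKcc
    rcases Kc.eq_empty_or_nonempty with rfl | hne
    · exact tendstoUniformlyOn_empty
    obtain ⟨zm, hzm, hmax⟩ := hKcc.exists_isMaxOn hne continuous_norm.continuousOn
    have hzm1 : ‖zm‖ < 1 := mem_ball_zero_iff.1 (hKc hzm)
    rw [Metric.tendstoUniformlyOn_iff]
    intro t ht
    have h1 : ∀ᶠ n in atTop, 1 / (((φ n : ℕ) : ℝ) + 1) < t := htend.eventually (gt_mem_nhds ht)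
    have h2 : ∀ᶠ n in atTop, 1 / (((φ n : ℕ) : ℝ) + 1) < 1 - ‖zm‖ :=
      htend.eventually (gt_mem_nhds (by linarith))
    filter_upwards [h1, h2] with n hn1 hn2 z hz
    have h3 : ‖z‖ ≤ ‖zm‖ := hmax hz
    have h4 := hf3 (φ n) z (by linarith)
    rw [dist_comm, dist_eq_norm]
    linarith
  have h5 := good_seq (fun n => hf1 (φ n)) (fun n => hf2 (φ n)) h0 hflim
    (a := fun n => a (φ n)) (fun n => lt_of_le_of_lt (ha1 _) hR) (lt_of_le_of_lt ha0R hR) hlim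
    (hg a0 ha0R)
  obtain ⟨n, hn⟩ := h5.exists
  exact ha2 _ hn

end Pool.Agent.MP_6cbd4a_an
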