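import Pool.Agent.MP_6cbd4a_an.Flow

/-!
# The domain `Ω` is open and simply connected
-/

open Complex Metric Set Filter Topology
open scoped ComplexConjugate unitInterval

namespace Pool.Agent.MP_6cbd4a_an

namespace Setup

variable (S : Setup)

/-- the domain -/
def Om : Set ℂ := {z | ‖z‖ ^ S.N < 2 * S.N ∧ ‖S.g z‖ < 1}

lemma Om_sub_ball : S.Om ⊆ ball (0 : ℂ) S.R0 := fun _ hz => S.mem_ball_of_pow hz.1.le

lemma continuousOn_g : ContinuousOn S.g (ball (0 : ℂ) S.R0) :=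
  fun z hz => (S.hg z hz).continuousAt.continuousWithinAt

lemma isOpen_Om : IsOpen S.Om := by
  have h1 : IsOpen {z : ℂ | ‖z‖ ^ S.N < 2 * S.N} :=
    isOpen_lt (by fun_prop) continuous_const
  have h2 : IsOpen (ball (0 : ℂ) S.R0 ∩ S.g ⁻¹' ball 0 1) :=
    S.continuousOn_g.isOpen_inter_preimage isOpen_ball isOpen_ball
  have : S.Om = {z : ℂ | ‖z‖ ^ S.N < 2 * S.N} ∩ (ball (0 : ℂ) S.R0 ∩ S.g ⁻¹' ball 0 1) := by
    ext z
    constructor
    · intro hz
      exact ⟨hz.1, S.Om_sub_ball hz, mem_ball_zero_iff.2 hz.2⟩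
    · rintro ⟨h1, -, h3⟩
      exact ⟨h1, mem_ball_zero_iff.1 h3⟩
  rw [this]
  exact h1.inter h2

lemma mem_Om_left {z : ℂ} (hz : ‖z‖ ^ S.N < 2 * S.N) (hre : (z ^ S.N).re ≤ S.K) : z ∈ S.Om := by
  refine ⟨hz, ?_⟩
  have := S.g_bound_left hz.le hre
  linarith [S.hδ]

lemma closedBall_sub_Om : closedBall (0 : ℂ) 1 ⊆ S.Om := by
  intro z hz
  rw [mem_closedBall_zero_iff] at hz
  have h1 : ‖z‖ ^ S.N ≤ 1 := pow_le_one₀ (norm_nonneg _) hz
  have hN := S.N_ge_one
  apply S.mem_Om_left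
  · linarith
  · calc (z ^ S.N).re ≤ ‖z ^ S.N‖ := Complex.re_le_norm _
      _ = ‖z‖ ^ S.N := norm_pow _ _
      _ ≤ S.K := by linarith [S.Kpos]

lemma zero_mem_Om : (0 : ℂ) ∈ S.Om := S.closedBall_sub_Om (by simp)

/-- amount to be moved -/
noncomputable def Tp (z : ℂ) : ℝ := max ((z ^ S.N).re - S.K) 0

/-- the deformation -/
noncomputable def Mv (p : ℝ × ℂ) : ℂ :=
  p.2 * exp ((log (p.2 ^ S.N - ((p.1 * S.Tp p.2 : ℝ) : ℂ)) - log (p.2 ^ S.N)) / S.N)

lemma Mv_of_le {τ : ℝ} {z : ℂ} (h : (z ^ S.N).re ≤ S.K) : S.Mv (τ, z) = z := by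
  have : S.Tp z = 0 := max_eq_right (by linarith)
  simp [Mv, this]

lemma Mv_zero (z : ℂ) : S.Mv (0, z) = z := by simp [Mv]

lemma Mv_of_ge {τ : ℝ} {z : ℂ} (h : S.K ≤ (z ^ S.N).re) :
    S.Mv (τ, z) = S.P z (((z ^ S.N).re - S.K) - τ * ((z ^ S.N).re - S.K)) := by
  have : S.Tp z = (z ^ S.N).re - S.K := max_eq_left (by linarith)
  rw [Mv, P, W]
  simp only [this]
  congr 4
  push_cast
  ring_nf

lemma continuousAt_Mv {τ : ℝ} (hτ : τ ∈ Icc (0 : ℝ) 1) (z : ℂ) : ContinuousAt S.Mv (τ, z) := by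
  have hK := S.Kpos
  rcases lt_or_ge (z ^ S.N).re S.K with h | h
  · -- locally the identity
    have hev : S.Mv =ᶠ[𝓝 (τ, z)] fun p => p.2 := by
      have ho : IsOpen {p : ℝ × ℂ | (p.2 ^ S.N).re < S.K} :=
        isOpen_lt (Complex.continuous_re.comp (by fun_prop)) continuous_const
      filter_upwards [ho.mem_nhds h] with p hp
      have hp' : (p.2 ^ S.N).re ≤ S.K := le_of_lt hp
      exact S.Mv_of_le hp'
    exact (continuous_snd.continuousAt).congr hev.symm
  · have hT : S.Tp z = (z ^ S.N).re - S.K := max_eq_left (by linarith)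
    have h1 : (z ^ S.N - ((τ * S.Tp z : ℝ) : ℂ)) ∈ slitPlane := by
      rw [mem_slitPlane_iff]
      left
      rw [Complex.sub_re, Complex.ofReal_re, hT]
      nlinarith [hτ.1, hτ.2]
    have h2 : z ^ S.N ∈ slitPlane := S.pow_slit h
    have hTc : Continuous S.Tp :=
      ((Complex.continuous_re.comp (continuous_pow S.N)).sub continuous_const).max continuous_const
    unfold Mv
    apply ContinuousAt.mul continuous_snd.continuousAt
    apply ContinuousAt.cexp
    apply ContinuousAt.div_const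
    apply ContinuousAt.sub
    · have hc : ContinuousAt (fun p : ℝ × ℂ => p.2 ^ S.N - ((p.1 * S.Tp p.2 : ℝ) : ℂ)) (τ, z) := by
        apply ContinuousAt.sub
        · exact (continuous_snd.pow _).continuousAt
        · exact (Complex.continuous_ofReal.comp
            (continuous_fst.mul (hTc.comp continuous_snd))).continuousAt
      exact hc.clog h1
    · have hc : ContinuousAt (fun p : ℝ × ℂ => p.2 ^ S.N) (τ, z) :=
        (continuous_snd.pow _).continuousAt
      exact hc.clog h2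

lemma Mv_mem {τ : ℝ} (hτ : τ ∈ Icc (0 : ℝ) 1) {z : ℂ} (hz : z ∈ S.Om) : S.Mv (τ, z) ∈ S.Om := by
  rcases le_or_gt (z ^ S.N).re S.K with h | h
  · rw [S.Mv_of_le h]; exact hz
  · rw [S.Mv_of_ge h.le]
    have hmem : ((z ^ S.N).re - S.K) - τ * ((z ^ S.N).re - S.K) ∈ Icc 0 ((z ^ S.N).re - S.K) := by
      constructor
      · nlinarith [hτ.1, hτ.2]
      · nlinarith [hτ.1, hτ.2]
    exact ⟨(S.norm_P_pow_le h.le hmem).trans_lt hz.1, S.flow_stays hz.1.le h.le hz.2 hmem⟩

lemma Mv_one_re {z : ℂ} : ((S.Mv (1, z)) ^ S.N).re ≤ S.K := by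
  rcases le_or_gt (z ^ S.N).re S.K with h | h
  · rw [S.Mv_of_le h]; exact h
  · rw [S.Mv_of_ge h.le, one_mul, sub_self, S.P_pow h.le le_rfl, S.W_zero_re]

lemma scale_mem {r : ℝ} (hr : r ∈ Icc (0 : ℝ) 1) {z : ℂ} (hz : z ∈ S.Om)
    (hre : (z ^ S.N).re ≤ S.K) : (r : ℂ) * z ∈ S.Om := by
  have hr0 : 0 ≤ r ^ S.N := pow_nonneg hr.1 _
  have hr1 : r ^ S.N ≤ 1 := pow_le_one₀ hr.1 hr.2
  apply S.mem_Om_left
  · rw [norm_mul, Complex.norm_real, Real.norm_of_nonneg hr.1, mul_pow]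
    have h1 := hz.1
    have h2 : 0 ≤ ‖z‖ ^ S.N := by positivity
    nlinarith
  · rw [mul_pow, ← Complex.ofReal_pow, Complex.re_ofReal_mul]
    have hK := S.Kpos
    rcases le_or_gt (z ^ S.N).re 0 with h | h
    · nlinarith
    · nlinarith

theorem isSimplyConnected_Om : IsSimplyConnected S.Om := by
  have hcontr : ContractibleSpace S.Om := by
    rw [contractible_iff_id_nullhomotopic]
    refine ⟨⟨0, S.zero_mem_Om⟩, ?_⟩
    -- the retraction
    have hcM : Continuous fun p : I × S.Om => S.Mv ((p.1 : ℝ), (p.2 : ℂ)) := by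
      rw [continuous_iff_continuousAt]
      intro p
      exact (S.continuousAt_Mv p.1.2 (p.2 : ℂ)).comp
        (f := fun p : I × S.Om => ((p.1 : ℝ), (p.2 : ℂ))) (by fun_prop)
    have hcr : Continuous fun z : S.Om => S.Mv ((1 : ℝ), (z : ℂ)) := by
      exact hcM.comp (continuous_const.prodMk continuous_id : Continuous fun z : S.Om => ((1 : I), z))
    let r : C(S.Om, S.Om) :=
      ⟨fun z => ⟨S.Mv ((1 : ℝ), (z : ℂ)), S.Mv_mem ⟨zero_le_one, le_rfl⟩ z.2⟩,
        hcr.subtype_mk _⟩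
    let H1 : ContinuousMap.Homotopy (ContinuousMap.id S.Om) r :=
      { toFun := fun p => ⟨S.Mv ((p.1 : ℝ), (p.2 : ℂ)), S.Mv_mem p.1.2 p.2.2⟩
        continuous_toFun := hcM.subtype_mk _
        map_zero_left := by
          intro z
          apply Subtype.ext
          simp [S.Mv_zero]
        map_one_left := by
          intro z
          apply Subtype.ext
          simp [r] }
    have hc2 : Continuous fun p : I × S.Om =>
        ((1 - (p.1 : ℝ) : ℝ) : ℂ) * S.Mv ((1 : ℝ), (p.2 : ℂ)) := by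
      apply Continuous.mul
      · exact Complex.continuous_ofReal.comp (by fun_prop)
      · exact hcr.comp continuous_snd
    let H2 : ContinuousMap.Homotopy r (ContinuousMap.const S.Om ⟨0, S.zero_mem_Om⟩) :=
      { toFun := fun p => ⟨((1 - (p.1 : ℝ) : ℝ) : ℂ) * S.Mv ((1 : ℝ), (p.2 : ℂ)),
          S.scale_mem ⟨by linarith [p.1.2.2], by linarith [p.1.2.1]⟩
            (S.Mv_mem ⟨zero_le_one, le_rfl⟩ p.2.2) S.Mv_one_re⟩
        continuous_toFun := hc2.subtype_mk _
        map_zero_left := by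
          intro z
          apply Subtype.ext
          simp [r]
        map_one_left := by
          intro z
          apply Subtype.ext
          simp }
    exact ⟨H1.trans H2⟩
  exact SimplyConnectedSpace.ofContractible S.Om

end Setup

end Pool.Agent.MP_6cbd4a_an
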